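import Pool.Agent.Helper29.TD.BF

/-!
# Block TD-A1: the game, basic lemmas

`BF.piso`: cases on `q`.  `BF.mono`: first `BF (q + 1) P → BF q P` by induction on `q` for all `P`, then iterate.
`BF.anti`: `PIso` is inherited by subsets; induction on `q` (`insert` is monotone).
`BF.consts`: induction on `q` for all `P ⊇ P0`.  Step: a move `x ∈ X` is answered as before (`P0 ⊆ insert (x, y) P`); a move
`x = p.1` with `p ∈ P0` is answered by `p.2`, then `insert (p.1, p.2) P = P` and one uses `BF.mono` and the induction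
hypothesis for `P`.
`BF.emb`: answer `x ∈ X` by `f x` and `f x` by `x`; `PIso`: equality by `hf`, relations by `hI` (rewrite `(v i).2 = f (v i).1`).
-/

set_option autoImplicit false

namespace Pool.Agent.Helper29.TD

open Pool.Agent.Helper20.Spectra

variable {S : Type} {ar : S → ℕ} {M N : Type} {I : Interp S ar M} {J : Interp S ar N}
  {X : Set M} {Y : Set N}

theorem BF.piso {q : ℕ} {P : Set (M × N)} (h : BF I J X Y q P) : PIso I J P := by
  cases q with
  | zero => exact h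
  | succ q => exact h.1

theorem BF.mono {q q' : ℕ} (hq : q' ≤ q) {P : Set (M × N)} (h : BF I J X Y q P) :
    BF I J X Y q' P := by
  have h1 : ∀ (q : ℕ) {P : Set (M × N)}, BF I J X Y (q + 1) P → BF I J X Y q P := by
    intro q
    induction q with
    | zero => intro P h; exact h.1
    | succ q ih =>
      rintro P ⟨hp, h1, h2⟩
      refine ⟨hp, fun x hx => ?_, fun y hy => ?_⟩
      · obtain ⟨y, hy, h3⟩ := h1 x hx
        exact ⟨y, hy, ih h3⟩
      · obtain ⟨x, hx, h3⟩ := h2 y hy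
        exact ⟨x, hx, ih h3⟩
  obtain ⟨d, rfl⟩ := Nat.exists_eq_add_of_le hq
  clear hq
  induction d with
  | zero => exact h
  | succ d ih => exact ih (h1 _ h)

theorem BF.anti {q : ℕ} {P P' : Set (M × N)} (hP : P' ⊆ P) (h : BF I J X Y q P) :
    BF I J X Y q P' := by
  have h0 : ∀ {P P' : Set (M × N)}, P' ⊆ P → PIso I J P → PIso I J P' := by
    intro P P' hP hp
    exact ⟨fun p hp1 p' hp2 => hp.1 p (hP hp1) p' (hP hp2),
      fun s v hv => hp.2 s v fun i => hP (hv i)⟩
  induction q generalizing P P' with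
  | zero => exact h0 hP h
  | succ q ih =>
    obtain ⟨hp, h1, h2⟩ := h
    refine ⟨h0 hP hp, fun x hx => ?_, fun y hy => ?_⟩
    · obtain ⟨y, hy, h3⟩ := h1 x hx
      exact ⟨y, hy, ih (Set.insert_subset_insert hP) h3⟩
    · obtain ⟨x, hx, h3⟩ := h2 y hy
      exact ⟨x, hx, ih (Set.insert_subset_insert hP) h3⟩

theorem BF.consts {q : ℕ} {P P0 : Set (M × N)} (h0 : P0 ⊆ P) (h : BF I J X Y q P) :
    BF I J (X ∪ Prod.fst '' P0) (Y ∪ Prod.snd '' P0) q P := by
  induction q generalizing P with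
  | zero => exact h
  | succ q ih =>
    have h' := h
    obtain ⟨hp, h1, h2⟩ := h
    have h3 : ∀ p ∈ P0, BF I J (X ∪ Prod.fst '' P0) (Y ∪ Prod.snd '' P0) q
        (insert (p.1, p.2) P) := by
      intro p hpP
      have e : insert (p.1, p.2) P = P := Set.insert_eq_of_mem (h0 hpP)
      rw [e]
      exact ih h0 (h'.mono (Nat.le_succ q))
    refine ⟨hp, fun x hx => ?_, fun y hy => ?_⟩
    · rcases hx with hx | ⟨p, hpP, rfl⟩
      · obtain ⟨y, hy, h4⟩ := h1 x hx
        exact ⟨y, Or.inl hy, ih (h0.trans (Set.subset_insert _ _)) h4⟩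
      · exact ⟨p.2, Or.inr ⟨p, hpP, rfl⟩, h3 p hpP⟩
    · rcases hy with hy | ⟨p, hpP, rfl⟩
      · obtain ⟨x, hx, h4⟩ := h2 y hy
        exact ⟨x, Or.inl hx, ih (h0.trans (Set.subset_insert _ _)) h4⟩
      · exact ⟨p.1, Or.inr ⟨p, hpP, rfl⟩, h3 p hpP⟩

theorem BF.emb (f : M → N) (Z : Set M) (hf : Set.InjOn f Z)
    (hI : ∀ (s : S) (v : Fin (ar s) → M), (∀ i, v i ∈ Z) → (I s v ↔ J s (fun i => f (v i))))
    (hX : X ⊆ Z) (q : ℕ) {P : Set (M × N)} (hP : ∀ p ∈ P, p.1 ∈ Z ∧ p.2 = f p.1) :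
    BF I J X (f '' X) q P := by
  have h0 : ∀ {P : Set (M × N)}, (∀ p ∈ P, p.1 ∈ Z ∧ p.2 = f p.1) → PIso I J P := by
    intro P hP
    refine ⟨fun p hp p' hp' => ?_, fun s v hv => ?_⟩
    · rw [(hP p hp).2, (hP p' hp').2]
      exact ⟨fun h => by rw [h], fun h => hf (hP p hp).1 (hP p' hp').1 h⟩
    · rw [hI s _ fun i => (hP _ (hv i)).1]
      have e : (fun i => (v i).2) = fun i => f (v i).1 := funext fun i => (hP _ (hv i)).2
      rw [e]
  induction q generalizing P with
  | zero => exact h0 hP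
  | succ q ih =>
    have h1 : ∀ x ∈ X, BF I J X (f '' X) q (insert (x, f x) P) := by
      intro x hx
      apply ih
      intro p hp
      rcases hp with rfl | hp
      · exact ⟨hX hx, rfl⟩
      · exact hP p hp
    refine ⟨h0 hP, fun x hx => ⟨f x, ⟨x, hx, rfl⟩, h1 x hx⟩, ?_⟩
    rintro y ⟨x, hx, rfl⟩
    exact ⟨x, hx, h1 x hx⟩

end Pool.Agent.Helper29.TD
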