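import Pool.Agent.Helper29.TD.BF

/-!
# Block TD-A7: functions bounded by towers

`Tow f`: `f k ≤ E d (k + 2)` for some `d` and all `k`.

`E_mono`: induction on `d`.  `le_E`: `m < 2 ^ m` (`Nat.lt_two_pow_self`).  `E_succ_le`: `m ≤ 2 ^ m`.  `E_add`, `E_two_pow`: induction.
`E_mono_d`: from `E_succ_le`.  `Tow.const`: `E d 2 ≥ d` (`E (d + 1) 2 = 2 ^ E d 2 > E d 2`), `d = c`.
`Tow.mul`: for `d ≥ 1` one has `x = E d (k + 2) ≥ 4` and `x * x ≤ 2 ^ x = E (d + 1) (k + 2)`; take the maximum of the two `d` and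
`1`.  `Tow.add`: `x + x ≤ x * x` for `x ≥ 2`, or the same argument.  `Tow.two_pow`: `d + 1`.  `Tow.pow`: `f ^ g ≤ (2 ^ f) ^ g = 2 ^ (f * g)`.
`Tow.shift`: `k + 3 ≤ 2 ^ (k + 2)`, so `E d (k + 3) ≤ E d (2 ^ (k + 2)) = E (d + 1) (k + 2)`.
`Tow.final`: for `k ≥ 2`: `k + 2 ≤ 2 ^ k`, so `E d (k + 2) ≤ E (d + 1) k`.
-/

set_option autoImplicit false

namespace Pool.Agent.Helper29.TD

lemma E_mono (d : ℕ) {m m' : ℕ} (h : m ≤ m') : E d m ≤ E d m' := by
  induction d with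
  | zero => exact h
  | succ d ih => exact Nat.pow_le_pow_right (by norm_num) ih

lemma le_E (d m : ℕ) : m ≤ E d m := by
  induction d with
  | zero => exact le_refl m
  | succ d ih => exact ih.trans Nat.lt_two_pow_self.le

lemma E_succ_le (d m : ℕ) : E d m < E (d + 1) m :=
  Nat.lt_two_pow_self

lemma E_mono_d {d d' : ℕ} (h : d ≤ d') (m : ℕ) : E d m ≤ E d' m := by
  induction d', h using Nat.le_induction with
  | base => exact le_refl _
  | succ n _ ih => exact ih.trans (E_succ_le n m).le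

lemma E_two_pow (d m : ℕ) : E d (2 ^ m) = E (d + 1) m := by
  induction d with
  | zero => rfl
  | succ d ih =>
    show 2 ^ E d (2 ^ m) = 2 ^ E (d + 1) m
    rw [ih]

lemma E_add (d e m : ℕ) : E d (E e m) = E (d + e) m := by
  induction d with
  | zero => rw [Nat.zero_add]; rfl
  | succ d ih =>
    rw [show d + 1 + e = d + e + 1 by omega]
    show 2 ^ E d (E e m) = 2 ^ E (d + e) m
    rw [ih]

private lemma d_le_E16 (d m : ℕ) : d ≤ E d m := by
  induction d with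
  | zero => exact Nat.zero_le _
  | succ d ih =>
    have h1 := E_succ_le d m
    omega

private lemma sq_le16 {x : ℕ} (h : 4 ≤ x) : x * x ≤ 2 ^ x := by
  induction x, h using Nat.le_induction with
  | base => norm_num
  | succ n hn ih =>
    have h1 : (n + 1) * (n + 1) ≤ 2 * (n * n) := by nlinarith
    calc (n + 1) * (n + 1) ≤ 2 * (n * n) := h1
      _ ≤ 2 * 2 ^ n := Nat.mul_le_mul_left 2 ih
      _ = 2 ^ (n + 1) := by rw [pow_succ]; ring

private lemma four_le16 (d k : ℕ) : 4 ≤ E (d + 1) (k + 2) := by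
  have h1 : E 1 (k + 2) ≤ E (d + 1) (k + 2) := E_mono_d (by omega) _
  have h2 : E 1 (k + 2) = 2 ^ (k + 2) := rfl
  have h3 : 2 ^ 2 ≤ 2 ^ (k + 2) := Nat.pow_le_pow_right (by norm_num) (by omega)
  omega

/-- bounded by a tower of fixed height -/
def Tow (f : ℕ → ℕ) : Prop := ∃ d, ∀ k, f k ≤ E d (k + 2)

lemma Tow.mono {f g : ℕ → ℕ} (hg : Tow g) (h : ∀ k, f k ≤ g k) : Tow f := by
  obtain ⟨d, hd⟩ := hg
  exact ⟨d, fun k => (h k).trans (hd k)⟩

lemma Tow.const (c : ℕ) : Tow (fun _ => c) :=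
  ⟨c, fun k => d_le_E16 c (k + 2)⟩

lemma Tow.id : Tow (fun k => k) :=
  ⟨0, fun k => Nat.le_add_right k 2⟩

private lemma Tow.common16 {f g : ℕ → ℕ} (hf : Tow f) (hg : Tow g) :
    ∃ d, ∀ k, f k ≤ E (d + 1) (k + 2) ∧ g k ≤ E (d + 1) (k + 2) := by
  obtain ⟨a, ha⟩ := hf
  obtain ⟨b, hb⟩ := hg
  exact ⟨max a b, fun k => ⟨(ha k).trans (E_mono_d (by omega) _), (hb k).trans (E_mono_d (by omega) _)⟩⟩

lemma Tow.add {f g : ℕ → ℕ} (hf : Tow f) (hg : Tow g) : Tow (fun k => f k + g k) := by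
  obtain ⟨d, hd⟩ := Tow.common16 hf hg
  refine ⟨d + 2, fun k => ?_⟩
  have h1 := four_le16 d k
  have h2 := sq_le16 h1
  obtain ⟨h3, h4⟩ := hd k
  have h5 : f k + g k ≤ E (d + 1) (k + 2) * E (d + 1) (k + 2) := by nlinarith
  exact h5.trans h2

lemma Tow.mul {f g : ℕ → ℕ} (hf : Tow f) (hg : Tow g) : Tow (fun k => f k * g k) := by
  obtain ⟨d, hd⟩ := Tow.common16 hf hg
  refine ⟨d + 2, fun k => ?_⟩
  have h2 := sq_le16 (four_le16 d k)
  obtain ⟨h3, h4⟩ := hd k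
  exact (Nat.mul_le_mul h3 h4).trans h2

lemma Tow.two_pow {f : ℕ → ℕ} (hf : Tow f) : Tow (fun k => 2 ^ f k) := by
  obtain ⟨d, hd⟩ := hf
  exact ⟨d + 1, fun k => Nat.pow_le_pow_right (by norm_num) (hd k)⟩

lemma Tow.pow {f g : ℕ → ℕ} (hf : Tow f) (hg : Tow g) : Tow (fun k => f k ^ g k) := by
  refine (hf.mul hg).two_pow.mono fun k => ?_
  show f k ^ g k ≤ 2 ^ (f k * g k)
  rw [pow_mul]
  exact Nat.pow_le_pow_left Nat.lt_two_pow_self.le _

lemma Tow.shift {f : ℕ → ℕ} (hf : Tow f) : Tow (fun k => f (k + 1)) := by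
  obtain ⟨d, hd⟩ := hf
  refine ⟨d + 1, fun k => (hd (k + 1)).trans ?_⟩
  rw [← E_two_pow]
  refine E_mono d ?_
  have h1 : k + 2 < 2 ^ (k + 2) := Nat.lt_two_pow_self
  omega

lemma Tow.sum {ι : Type} (s : Finset ι) {f : ι → ℕ → ℕ} (hf : ∀ i ∈ s, Tow (f i)) :
    Tow (fun k => ∑ i ∈ s, f i k) := by
  classical
  induction s using Finset.induction_on with
  | empty => exact (Tow.const 0).mono fun k => by simp
  | insert a s ha ih =>
    refine ((hf a (Finset.mem_insert_self a s)).add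
      (ih fun i hi => hf i (Finset.mem_insert_of_mem hi))).mono fun k => ?_
    rw [Finset.sum_insert ha]

lemma Tow.final {f : ℕ → ℕ} (hf : Tow f) : ∃ d, ∀ k, 2 ≤ k → f k ≤ E d k := by
  obtain ⟨d, hd⟩ := hf
  refine ⟨d + 1, fun k hk => (hd k).trans ?_⟩
  rw [← E_two_pow]
  refine E_mono d ?_
  induction k, hk using Nat.le_induction with
  | base => norm_num
  | succ n hn ih =>
    have h1 : 2 ^ (n + 1) = 2 * 2 ^ n := by rw [pow_succ]; ring
    omega

end Pool.Agent.Helper29.TD
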