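import Pool.Agent.Helper29.TD.Types
import Pool.Agent.Helper29.TD.Tow

/-!
# Block TD-A8: the number of types is bounded by a tower

`card_Ty`: induction on `q`.  `Nat.card (Ty S ar 0 k) = 2 ^ (k * k + ∑ s, k ^ ar s)` (or `≤`; `Nat.card_prod`, `Nat.card_fun`,
`Nat.card_pi`, `Nat.card Prop = 2`), and `Nat.card (Ty S ar (q + 1) k) = Nat.card (Ty S ar 0 k) * 2 ^ Nat.card (Ty S ar q (k + 1))`
(`Set α = α → Prop`).  Use `Fintype.ofFinite S` for the sum, and the closure lemmas of `Tow` (`Tow.pow`, `Tow.const`, `Tow.id`, `Tow.sum`,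
`Tow.mul`, `Tow.two_pow`, `Tow.shift`, `Tow.mono`).
`card_Ty_mono`: the bound for all `k ≤ W` at the same time: `E d` is monotone.
-/

set_option autoImplicit false

namespace Pool.Agent.Helper29.TD

open Pool.Agent.Helper20.Spectra

variable (S : Type) [Finite S] (ar : S → ℕ)

private lemma card_prop_h12 : Nat.card Prop = 2 := by
  rw [Nat.card_eq_fintype_card]
  rfl

private lemma card_base_h12 [Fintype S] (k : ℕ) :
    Nat.card ((Fin k → Fin k → Prop) × ∀ s : S, (Fin (ar s) → Fin k) → Prop) =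
      (2 ^ k) ^ k * 2 ^ (∑ s, k ^ ar s) := by
  rw [Nat.card_prod]
  congr 1
  · rw [Nat.card_fun, Nat.card_fun, card_prop_h12, Nat.card_fin]
  · rw [Nat.card_pi]
    have h1 : ∀ s : S, Nat.card ((Fin (ar s) → Fin k) → Prop) = 2 ^ (k ^ ar s) := by
      intro s
      rw [Nat.card_fun, Nat.card_fun, card_prop_h12, Nat.card_fin, Nat.card_fin]
    rw [Finset.prod_congr rfl fun s _ => h1 s, Finset.prod_pow_eq_pow_sum]

private lemma tow_base_h12 :
    Tow (fun k => Nat.card ((Fin k → Fin k → Prop) × ∀ s : S, (Fin (ar s) → Fin k) → Prop)) := by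
  have : Fintype S := Fintype.ofFinite S
  have h1 : (fun k => Nat.card ((Fin k → Fin k → Prop) × ∀ s : S, (Fin (ar s) → Fin k) → Prop)) =
      fun k => (2 ^ k) ^ k * 2 ^ (∑ s, k ^ ar s) := by
    funext k
    exact card_base_h12 S ar k
  rw [h1]
  exact Tow.mul (Tow.pow (Tow.two_pow Tow.id) Tow.id)
    (Tow.two_pow (Tow.sum Finset.univ fun s _ => Tow.pow Tow.id (Tow.const (ar s))))

private lemma card_succ_h12 (q k : ℕ) : Nat.card (Ty S ar (q + 1) k) =
    Nat.card ((Fin k → Fin k → Prop) × ∀ s : S, (Fin (ar s) → Fin k) → Prop) *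
      2 ^ Nat.card (Ty S ar q (k + 1)) := by
  have := finite_Ty (S := S) (ar := ar) q (k + 1)
  have h1 : Nat.card (Ty S ar (q + 1) k) =
    Nat.card (((Fin k → Fin k → Prop) × ∀ s : S, (Fin (ar s) → Fin k) → Prop) ×
      (Ty S ar q (k + 1) → Prop)) := rfl
  rw [h1, Nat.card_prod, Nat.card_fun (α := Ty S ar q (k + 1)), card_prop_h12]

theorem card_Ty (q : ℕ) : Tow (fun k => Nat.card (Ty S ar q k)) := by
  induction q with
  | zero => exact tow_base_h12 S ar
  | succ q ih =>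
    have h1 : (fun k => Nat.card (Ty S ar (q + 1) k)) = fun k =>
        Nat.card ((Fin k → Fin k → Prop) × ∀ s : S, (Fin (ar s) → Fin k) → Prop) *
          2 ^ Nat.card (Ty S ar q (k + 1)) := by
      funext k
      exact card_succ_h12 S ar q k
    rw [h1]
    exact Tow.mul (tow_base_h12 S ar) (Tow.two_pow (Tow.shift ih))

theorem card_Ty_mono (q : ℕ) : ∃ T : ℕ → ℕ, Tow T ∧ ∀ W k, k ≤ W → Nat.card (Ty S ar q k) ≤ T W := by
  obtain ⟨d, hd⟩ := card_Ty S ar q
  refine ⟨fun k => E d (k + 2), ⟨d, fun k => le_rfl⟩, fun W k hk => ?_⟩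
  exact (hd k).trans (E_mono d (by omega))

end Pool.Agent.Helper29.TD
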