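import Pool.Agent.Helper29.TD.BFBasic

/-!
# Block TD-A6: types describe the game

`finite_Ty`: induction on `q` for all `k` (`Prop` is finite, `Set T` is finite for finite `T`; unfold `Ty`).
`tp_eq_iff`: induction on `q` for all `k`, `c`, `e`.  `q = 0`: equality of the pairs of functions is
`∀ i j, (c i = c j) = (e i = e j)` and `∀ s f, I s (c ∘ f) = J s (e ∘ f)`; a tuple `v` with all `v i` in `prs c e` is of the
form `v i = (c (f i), e (f i))` (choose `f`).  `q + 1`: the first component as for `q = 0`; the sets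
`{t | ∃ x ∈ X, tp I X q (snoc c x) = t}` and `{t | ∃ y ∈ Y, tp J Y q (snoc e y) = t}` are equal if and only if the two
back-and-forth clauses hold, by the induction hypothesis and
`prs (Fin.snoc c x) (Fin.snoc e y) = insert (x, y) (prs c e)` (`prs_snoc`).
-/

set_option autoImplicit false

namespace Pool.Agent.Helper29.TD

open Pool.Agent.Helper20.Spectra

variable {S : Type} {ar : S → ℕ} {M N : Type} {I : Interp S ar M} {J : Interp S ar N}
  {X : Set M} {Y : Set N}

theorem finite_Ty [Finite S] (q k : ℕ) : Finite (Ty S ar q k) := by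
  have h0 : ∀ k : ℕ, Finite ((Fin k → Fin k → Prop) × ∀ s : S, (Fin (ar s) → Fin k) → Prop) :=
    fun k => inferInstance
  induction q generalizing k with
  | zero => exact h0 k
  | succ q ih =>
    have h1 := h0 k
    have h2 := ih (k + 1)
    change Finite (((Fin k → Fin k → Prop) × ∀ s : S, (Fin (ar s) → Fin k) → Prop) ×
      Set (Ty S ar q (k + 1)))
    exact Finite.instProd

theorem prs_snoc {k : ℕ} (c : Fin k → M) (e : Fin k → N) (x : M) (y : N) :
    prs (Fin.snoc c x : Fin (k + 1) → M) (Fin.snoc e y : Fin (k + 1) → N) =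
      insert (x, y) (prs c e) := by
  ext p
  constructor
  · rintro ⟨i, rfl⟩
    refine Fin.lastCases ?_ (fun j => ?_) i
    · left
      simp only [Fin.snoc_last]
    · right
      exact ⟨j, by simp only [Fin.snoc_castSucc]⟩
  · rintro (rfl | ⟨j, rfl⟩)
    · exact ⟨Fin.last k, by simp only [Fin.snoc_last]⟩
    · exact ⟨j.castSucc, by simp only [Fin.snoc_castSucc]⟩

private theorem at_iff {k : ℕ} (c : Fin k → M) (e : Fin k → N) :
    (((fun i j => c i = c j, fun s f => I s (fun i => c (f i))) :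
        (Fin k → Fin k → Prop) × ∀ s : S, (Fin (ar s) → Fin k) → Prop) =
      (fun i j => e i = e j, fun s f => J s (fun i => e (f i)))) ↔ PIso I J (prs c e) := by
  rw [Prod.ext_iff]
  constructor
  · rintro ⟨h1, h2⟩
    refine ⟨?_, fun s v hv => ?_⟩
    · rintro _ ⟨i, rfl⟩ _ ⟨j, rfl⟩
      exact (congrFun (congrFun h1 i) j).to_iff
    · choose f hf using hv
      have e1 : (fun i => (v i).1) = fun i => c (f i) := funext fun i => by rw [hf i]
      have e2 : (fun i => (v i).2) = fun i => e (f i) := funext fun i => by rw [hf i]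
      rw [e1, e2]
      exact (congrFun (congrFun h2 s) f).to_iff
  · rintro ⟨h1, h2⟩
    refine ⟨funext fun i => funext fun j => propext ?_, funext fun s => funext fun f => propext ?_⟩
    · exact h1 (c i, e i) ⟨i, rfl⟩ (c j, e j) ⟨j, rfl⟩
    · exact h2 s (fun i => (c (f i), e (f i))) fun i => ⟨f i, rfl⟩

theorem tp_eq_iff (q : ℕ) : ∀ {k : ℕ} (c : Fin k → M) (e : Fin k → N),
    tp I X q c = tp J Y q e ↔ BF I J X Y q (prs c e) := by
  induction q with
  | zero => exact fun c e => at_iff c e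
  | succ q ih =>
    intro k c e
    have hL : tp I X (q + 1) c = tp J Y (q + 1) e ↔
        (((fun i j => c i = c j, fun s f => I s (fun i => c (f i))) :
          (Fin k → Fin k → Prop) × ∀ s : S, (Fin (ar s) → Fin k) → Prop) =
          (fun i j => e i = e j, fun s f => J s (fun i => e (f i)))) ∧
        {t | ∃ x ∈ X, tp I X q (Fin.snoc c x : Fin (k + 1) → M) = t} =
          {t | ∃ y ∈ Y, tp J Y q (Fin.snoc e y : Fin (k + 1) → N) = t} := Prod.ext_iff
    rw [hL, at_iff]
    change _ ↔ PIso I J (prs c e) ∧ (∀ x ∈ X, ∃ y ∈ Y, BF I J X Y q (insert (x, y) (prs c e))) ∧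
      ∀ y ∈ Y, ∃ x ∈ X, BF I J X Y q (insert (x, y) (prs c e))
    refine and_congr_right fun _ => ?_
    simp only [← prs_snoc, ← ih]
    constructor
    · intro h
      refine ⟨fun x hx => ?_, fun y hy => ?_⟩
      · have h1 : tp I X q (Fin.snoc c x : Fin (k + 1) → M) ∈
            {t | ∃ y ∈ Y, tp J Y q (Fin.snoc e y : Fin (k + 1) → N) = t} := h ▸ ⟨x, hx, rfl⟩
        obtain ⟨y, hy, h2⟩ := h1
        exact ⟨y, hy, h2.symm⟩
      · have h1 : tp J Y q (Fin.snoc e y : Fin (k + 1) → N) ∈
            {t | ∃ x ∈ X, tp I X q (Fin.snoc c x : Fin (k + 1) → M) = t} := h.symm ▸ ⟨y, hy, rfl⟩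
        obtain ⟨x, hx, h2⟩ := h1
        exact ⟨x, hx, h2⟩
    · rintro ⟨h1, h2⟩
      refine Set.Subset.antisymm ?_ ?_
      · rintro _ ⟨x, hx, rfl⟩
        obtain ⟨y, hy, h3⟩ := h1 x hx
        exact ⟨y, hy, h3.symm⟩
      · rintro _ ⟨y, hy, rfl⟩
        obtain ⟨x, hx, h3⟩ := h2 y hy
        exact ⟨x, hx, h3⟩

end Pool.Agent.Helper29.TD
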