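import Pool.Agent.Helper20.OP.UltP

/-!
# Spectra of sentences whose models have only short paths: definitions
-/

set_option autoImplicit false

namespace Pool.Agent.Helper29.TD

open FirstOrder FirstOrder.Language Pool.Agent.Helper20.Spectra

variable {S : Type} {ar : S → ℕ} {M : Type}

/-- `x` and `y` are adjacent in the Gaifman graph: they are distinct and occur together in a tuple
of a relation -/
def Adj (I : Interp S ar M) (x y : M) : Prop :=
  x ≠ y ∧ ∃ (s : S) (v : Fin (ar s) → M), I s v ∧ (∃ i, v i = x) ∧ ∃ j, v j = y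

/-- `p 0, ..., p (l - 1)` are the vertices of a path of the Gaifman graph -/
def IsPath (I : Interp S ar M) {l : ℕ} (p : Fin l → M) : Prop :=
  Function.Injective p ∧ ∀ i j : Fin l, i.1 + 1 = j.1 → Adj I (p i) (p j)

/-- every path has at most `w` vertices -/
def PathLe (I : Interp S ar M) (w : ℕ) : Prop :=
  ∀ (l : ℕ) (p : Fin l → M), IsPath I p → l ≤ w

/-- the sentence `φ` holds in `(M, I)` -/
def Sat (I : Interp S ar M) (φ : (RelLang S ar).Sentence) : Prop :=
  @Sentence.Realize _ M (mkS I) φ

/-- `A` is the spectrum of a first-order sentence `φ` in a finite relational vocabulary such that all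
paths in a model of `φ` with `n` elements have at most `w n` vertices -/
def ShortSpectrum (w : ℕ → ℕ) (A : Set ℕ) : Prop :=
  ∃ (S : Type) (_ : Finite S) (ar : S → ℕ) (φ : (RelLang S ar).Sentence),
    (∀ (n : ℕ) (I : Interp S ar (Fin n)), 1 ≤ n → Sat I φ → PathLe I (w n)) ∧
    ∀ n : ℕ, n ∈ A ↔ (1 ≤ n ∧ ∃ I : Interp S ar (Fin n), Sat I φ)

/-- the tower `E d m`: `E 0 m = m`, `E (d + 1) m = 2 ^ E d m` -/
def E : ℕ → ℕ → ℕ
  | 0, m => m
  | d + 1, m => 2 ^ E d m

end Pool.Agent.Helper29.TD
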