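import Pool.Agent.Helper29.TD.Code

/-!
# Decoding
-/

set_option autoImplicit false

namespace Pool.Agent.Helper29.TD

open Pool.Agent.Helper29.Prefix Pool.Agent.Helper20.OP

variable {Γ V : Type} {d c0 : ℕ} {W : Wang Γ} {R : St Γ V}

theorem Cond.decode [Finite V] (h : Cond d c0 W R) (hc : 2 ≤ c0) :
    ∃ N m, c0 ≤ (Nat.clog 2)^[d] N ∧ (Nat.clog 2)^[d] N = Nat.card {a // R.apex a} ∧ m < N ∧
      Nat.card V = Fs d N + m ∧ Tiles W N := by
  obtain ⟨f, K, hV⟩ := h.1.vals (by omega)
  have hs := h.sqCode hc hV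
  have hit := K_iter h.1 hc hV
  have h0 := hV.zero
  have hd := dum_card h hc hV
  have hcard := hs.card
  have htil := hs.tiles
  rw [rep_card h hV] at hcard htil
  refine ⟨K d, Nat.card {x // R.dum x}, ?_, hit.trans h0, hd, ?_, htil⟩
  · obtain ⟨g, hg, hga⟩ := h.1.big
    rw [hit, h0]
    have : Function.Injective (fun i : Fin c0 => (⟨g i, hga i⟩ : {a // R.apex a})) := by
      intro i j hij
      exact hg (congrArg Subtype.val hij)
    simpa using Nat.card_le_card_of_injective _ this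
  · have e1 : Nat.card {x // R.apex x ∨ R.dum x} = Nat.card {x // R.apex x} +
        Nat.card {x // R.dum x} := by
      classical
      have e : {x // R.apex x ∨ R.dum x} ≃ {x // R.apex x} ⊕ {x // R.dum x} := by
        refine Equiv.ofBijective (fun x => if hx : R.apex x.1 then Sum.inl ⟨x.1, hx⟩ else
          Sum.inr ⟨x.1, x.2.resolve_left hx⟩) ⟨?_, ?_⟩
        · rintro ⟨x, hx⟩ ⟨y, hy⟩ hxy
          by_cases h1 : R.apex x <;> by_cases h2 : R.apex y <;> simp [h1, h2] at hxy <;>
            exact Subtype.ext hxy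
        · rintro (⟨x, hx⟩ | ⟨x, hx⟩)
          · exact ⟨⟨x, Or.inl hx⟩, by simp [hx]⟩
          · have h1 : ¬ R.apex x := fun h1 => (h.1.dis x).2.2.1 ⟨h1, hx⟩
            exact ⟨⟨x, Or.inr hx⟩, by simp [h1]⟩
      rw [Nat.card_congr e, Nat.card_sum]
    rw [hcard, e1]
    unfold Fs
    rw [hit, h0]
    ring

end Pool.Agent.Helper29.TD
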