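import Pool.Agent.Helper29.TD.Cond

/-!
# Block TD-U11: short codes are definable

Mechanical: unfold the definitions and use the closure lemmas of `Def` (file `St.lean`).  `def_Lev`, `def_eqv`, `def_ltv`: induction on `i`.
For `def_tree`, `def_cells` write the structures as the conjunction of their fields (with `Def.congr`) and then
`repeat' first | exact Def.const _ | exact Def.eq _ _ | exact Def.par _ _ | ... | exact (def_Lev _).app _ | exact (def_eqv _).app _ _ | ... |
refine Def.not ?_ | refine Def.and ?_ ?_ | refine Def.or ?_ ?_ | refine Def.imp ?_ ?_ | refine Def.all_lt _ (fun _ => ?_) |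
refine Def.ex_lt _ (fun _ => ?_) | refine Def.all ?_ | refine Def.ex ?_ | refine Def.all_fin (fun _ => ?_) | refine Def.ex_fin (fun _ => ?_)`, exactly as in the
proof of `def_sqCode` in `Pool/Agent/Helper20/OP/SqDef.lean`.  `AtLeast c0 P`: first as `∃ f : Fin c0 → V, ...` with a lemma
`Def.exTuple` as in `Pool/Agent/Helper20/OP/Def.lean` (copy; `Function.Injective f` is `∀ i j, f i = f j → i = j`, `Def.all_fin`).
The quantifiers over bounded natural numbers (`∀ i, i < d → ...`, `∃ i, i < d ∧ ...`) are `Def.all_lt`, `Def.ex_lt`.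
-/

set_option autoImplicit false

namespace Pool.Agent.Helper29.TD

open Pool.Agent.Helper29.Prefix

variable {Γ : Type}

private lemma exTuple11 : ∀ (k : ℕ) {r : ℕ}
    {P : ∀ (V : Type), St Γ V → (Fin r → V) → (Fin k → V) → Prop}
    (_ : Def Γ (r + k) (fun V R v => P V R (fun i => v (Fin.castAdd k i))
      (fun j => v (Fin.natAdd r j)))), Def Γ r (fun V R v => ∃ x : Fin k → V, P V R v x)
  | 0, r, P, h => by
    refine h.congr (fun V R v => ?_)
    constructor
    · rintro ⟨x, hx⟩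
      have : x = fun j : Fin 0 => v (Fin.natAdd r j) := funext (fun j => j.elim0)
      rw [this] at hx
      exact hx
    · intro h
      exact ⟨_, h⟩
  | k + 1, r, P, h => by
    have h1 : Def Γ (r + k) (fun V R v => ∃ y : V, P V R (fun i => v (Fin.castAdd k i))
        (Fin.snoc (fun j => v (Fin.natAdd r j)) y)) := by
      refine Def.ex (h.congr (fun V R v => ?_))
      refine Iff.of_eq (congrArg₂ (P V R) rfl ?_)
      funext j
      refine Fin.lastCases ?_ (fun j => ?_) j
      · simp only [Fin.snoc_last]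
        rfl
      · simp only [Fin.snoc_castSucc]
        rfl
    refine (exTuple11 k (P := fun V R v x => ∃ y : V, P V R v (Fin.snoc x y)) h1).congr
      (fun V R v => ?_)
    constructor
    · rintro ⟨x, hx⟩
      refine ⟨fun j => x j.castSucc, x (Fin.last k), ?_⟩
      have : (Fin.snoc (fun j => x j.castSucc) (x (Fin.last k)) : Fin (k + 1) → V) = x := by
        funext j
        refine Fin.lastCases ?_ (fun j => ?_) j <;> simp
      rw [this]
      exact hx
    · rintro ⟨x, y, h⟩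
      exact ⟨_, h⟩

private lemma def_big11 (c : ℕ) : Def0 Γ (fun _ R => AtLeast c R.apex) := by
  unfold AtLeast
  refine exTuple11 c ?_
  refine Def.and ?_ (Def.all_fin (fun i => Def.apex _))
  exact (Def.all_fin (γ := Fin c) (P := fun i V R v => ∀ j : Fin c,
      v (Fin.natAdd 0 i) = v (Fin.natAdd 0 j) → i = j) (fun i => Def.all_fin (fun j =>
      (Def.eq _ _).imp (Def.const _)))).congr (fun V R v => Iff.rfl)

theorem def_Lev (i : ℕ) : Def1 Γ (fun _ R x => Lev R i x) := by
  induction i with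
  | zero => exact Def.and (Def.node _) (Def.ex (Def.att _ _))
  | succ i ih => exact Def.and (Def.node _) (Def.ex (Def.and (ih.app _) (Def.par _ _)))

theorem def_eqv (i : ℕ) : Def2 Γ (fun _ R x y => eqv R i x y) := by
  induction i with
  | zero => exact Def.ex (Def.and (Def.att _ _) (Def.att _ _))
  | succ i ih =>
    refine Def.and ?_ ?_
    · exact Def.all (Def.imp (Def.par _ _) (Def.imp (Def.bit _) (Def.ex (Def.and (Def.par _ _)
        (Def.and (Def.bit _) (ih.app _ _))))))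
    · exact Def.all (Def.imp (Def.par _ _) (Def.imp (Def.bit _) (Def.ex (Def.and (Def.par _ _)
        (Def.and (Def.bit _) (ih.app _ _))))))

private lemma def_high11 {E L : ∀ (V : Type), St Γ V → V → V → Prop} (hE : Def2 Γ E)
    (hL : Def2 Γ L) : Def3 Γ (fun V R x y v => high R (E V R) (L V R) x y v) := by
  unfold high
  refine Def.and ?_ ?_
  · exact Def.all (Def.imp (Def.par _ _) (Def.imp (Def.bit _) (Def.imp (hL.app _ _)
      (Def.ex (Def.and (Def.par _ _) (Def.and (Def.bit _) (hE.app _ _)))))))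
  · exact Def.all (Def.imp (Def.par _ _) (Def.imp (Def.bit _) (Def.imp (hL.app _ _)
      (Def.ex (Def.and (Def.par _ _) (Def.and (Def.bit _) (hE.app _ _)))))))

private lemma def_stepL11 {E L : ∀ (V : Type), St Γ V → V → V → Prop} (hE : Def2 Γ E)
    (hL : Def2 Γ L) : Def2 Γ (fun V R x y => stepL R (E V R) (L V R) x y) := by
  unfold stepL
  refine Def.ex ?_
  refine Def.and (Def.par _ _) (Def.and (Def.bit _) (Def.and ?_ ?_))
  · exact Def.all (Def.imp (Def.par _ _) (Def.imp (Def.bit _) (Def.not (hE.app _ _))))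
  · exact (def_high11 hE hL).app _ _ _

private lemma def_stepS11 {E L : ∀ (V : Type), St Γ V → V → V → Prop} (hE : Def2 Γ E)
    (hL : Def2 Γ L) : Def2 Γ (fun V R x y => stepS R (E V R) (L V R) x y) := by
  unfold stepS
  refine Def.ex ?_
  refine Def.and (Def.par _ _) (Def.and (Def.bit _) (Def.and ?_ (Def.and ?_ (Def.and ?_ ?_))))
  · exact Def.all (Def.imp (Def.par _ _) (Def.imp (Def.bit _) (Def.not (hE.app _ _))))
  · exact Def.all (Def.imp (Def.par _ _) (Def.imp (hL.app _ _) (Def.bit _)))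
  · exact Def.all (Def.imp (Def.par _ _) (Def.imp (hL.app _ _) (Def.not (Def.bit _))))
  · exact (def_high11 hE hL).app _ _ _

theorem def_ltv (i : ℕ) : Def2 Γ (fun _ R x y => ltv R i x y) := by
  induction i with
  | zero =>
    exact Def.ex (Def.ex (Def.and (Def.att _ _) (Def.and (Def.att _ _) (Def.ord _ _))))
  | succ i ih => exact def_stepL11 (def_eqv i) ih

theorem def_suc (i : ℕ) : Def2 Γ (fun _ R x y => suc R i x y) :=
  def_stepS11 (def_eqv i) (def_ltv i)

theorem def_tree (d c0 : ℕ) : Def0 Γ (fun _ R => Tree d c0 R) := by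
  refine Def.congr (P := fun V R _ =>
    (∀ x, R.apex x ∨ R.cell x ∨ R.node x ∨ R.dum x) ∧
    (∀ x, ¬ (R.apex x ∧ R.cell x) ∧ ¬ (R.apex x ∧ R.node x) ∧ ¬ (R.apex x ∧ R.dum x) ∧
      ¬ (R.cell x ∧ R.node x) ∧ ¬ (R.cell x ∧ R.dum x) ∧ ¬ (R.node x ∧ R.dum x)) ∧
    (∀ a b, R.ord a b → R.apex a ∧ R.apex b) ∧
    (∀ a, ¬ R.ord a a) ∧
    (∀ a b c, R.ord a b → R.ord b c → R.ord a c) ∧
    (∀ a b, R.apex a → R.apex b → R.ord a b ∨ a = b ∨ R.ord b a) ∧
    (∀ u x, R.par u x → (Lev R d u ∧ R.cell x) ∨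
      (∃ i, i < d ∧ Lev R i u ∧ Lev R (i + 1) x) ∨ (R.dum u ∧ R.cell x)) ∧
    (∀ u x y, R.par u x → R.par u y → x = y) ∧
    (∀ u, (R.node u ∨ R.dum u) → ∃ x, R.par u x) ∧
    (∀ x, R.node x → ∃ i, i < d + 1 ∧ Lev R i x) ∧
    (∀ i, i < d + 1 → ∀ j, j < d + 1 → i ≠ j → ∀ x, ¬ (Lev R i x ∧ Lev R j x)) ∧
    (∀ x a, R.att x a → R.node x ∧ R.apex a) ∧
    (∀ x a b, R.att x a → R.att x b → a = b) ∧
    (∀ a, R.apex a → ∃ x, R.att x a) ∧
    (∀ i, i < d → ∀ x v, Lev R (i + 1) x → Lev R i v → ∃ u, R.par u x ∧ eqv R i u v) ∧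
    (∀ i, i < d → ∀ x u v, Lev R (i + 1) x → R.par u x → R.par v x → eqv R i u v → u = v) ∧
    (∀ i, i < d → ∀ x v, Lev R (i + 1) x → R.par v x → R.bit v →
      ∃ y, Lev R (i + 1) y ∧ suc R i y x) ∧
    (∀ i, i < d → ∃ x v, Lev R (i + 1) x ∧ R.par v x ∧ R.bit v ∧
      ∀ w, Lev R i w → ¬ ltv R i v w) ∧
    AtLeast c0 R.apex) ?_
    (fun V R _ => ⟨fun h => ⟨h.kind, h.dis, h.ord_apex, h.ord_irr, h.ord_trans, h.ord_lin,
      h.par_kind, h.par_uniq, h.par_ex, h.node_lev, h.lev_uniq, h.att_kind, h.att_uniq, h.att_all,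
      h.ch_ex, h.ch_uniq, h.pred, h.top, h.big⟩,
      fun ⟨h1, h2, h3, h4, h5, h6, h7, h8, h9, h10, h11, h12, h13, h14, h15, h16, h17, h18, h19⟩ =>
        ⟨h1, h2, h3, h4, h5, h6, h7, h8, h9, h10, h11, h12, h13, h14, h15, h16, h17, h18, h19⟩⟩)
  repeat' first
    | exact Def.const _
    | exact Def.eq _ _
    | exact Def.ord _ _
    | exact Def.par _ _
    | exact Def.att _ _
    | exact Def.apex _
    | exact Def.cell _
    | exact Def.node _
    | exact Def.dum _
    | exact Def.bit _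
    | exact Def.row _
    | exact (def_Lev _).app _
    | exact (def_eqv _).app _ _
    | exact (def_ltv _).app _ _
    | exact (def_suc _).app _ _
    | exact def_big11 _
    | refine Def.not ?_
    | refine Def.and ?_ ?_
    | refine Def.or ?_ ?_
    | refine Def.imp ?_ ?_
    | refine Def.all_lt _ (fun _ => ?_)
    | refine Def.ex_lt _ (fun _ => ?_)
    | refine Def.all ?_
    | refine Def.ex ?_

private lemma def_cellOf11 (d : ℕ) : Def3 Γ (fun _ R c x y => CellOf d R c x y) := by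
  unfold CellOf
  refine Def.and (Def.cell _) (Def.and ?_ ?_)
  · exact Def.ex (Def.and (Def.par _ _) (Def.and (Def.node _) (Def.and (Def.row _)
      ((def_eqv d).app _ _))))
  · exact Def.ex (Def.and (Def.par _ _) (Def.and (Def.node _) (Def.and (Def.not (Def.row _))
      ((def_eqv d).app _ _))))

private lemma def_rep11 (d : ℕ) : Def1 Γ (fun _ R x => Rep d R x) := by
  unfold Rep
  refine Def.and (Def.node _) (Def.and (Def.row _) (Def.ex (Def.ex ?_)))
  exact Def.and (Def.cell _) (Def.and (Def.par _ _) (Def.and (Def.par _ _) (Def.and (Def.node _)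
    (Def.and (Def.not (Def.row _)) ((def_eqv d).app _ _)))))

private lemma def_tl11 (d : ℕ) (γ : Γ) : Def2 Γ (fun _ R x y => tl d R x y γ) := by
  unfold tl
  exact Def.ex (Def.and ((def_cellOf11 d).app _ _ _) (Def.tile _ _))

private lemma def_til11 [Finite Γ] (W : Wang Γ) {I : ∀ V : Type, St Γ V → V → Prop}
    {lt : ∀ V : Type, St Γ V → V → V → Prop} {t : ∀ V : Type, St Γ V → V → V → Γ → Prop}
    (hI : Def1 Γ I) (hlt : Def2 Γ lt) (ht : ∀ γ, Def2 Γ (fun V R x y => t V R x y γ)) :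
    Def0 Γ (fun V R => Til W (I V R) (lt V R) (t V R)) := by
  refine Def.congr (P := fun V R _ =>
    (∀ x y, I V R x → I V R y → ∃ γ, t V R x y γ) ∧
    (∀ x x' y γ δ, I V R x → I V R x' → I V R y → lt V R x x' →
      (∀ z, I V R z → ¬ (lt V R x z ∧ lt V R z x')) →
      t V R x y γ → t V R x' y δ → W.R γ δ) ∧
    (∀ x y y' γ δ, I V R x → I V R y → I V R y' → lt V R y y' →
      (∀ z, I V R z → ¬ (lt V R y z ∧ lt V R z y')) →
      t V R x y γ → t V R x y' δ → W.U γ δ) ∧
    (∀ x y γ, I V R x → I V R y → (∀ z, I V R z → ¬ lt V R z x) → t V R x y γ → W.l γ) ∧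
    (∀ x y γ, I V R x → I V R y → (∀ z, I V R z → ¬ lt V R x z) → t V R x y γ → W.r γ) ∧
    (∀ x y γ, I V R x → I V R y → (∀ z, I V R z → ¬ lt V R z y) → t V R x y γ → W.b γ) ∧
    (∀ x y γ, I V R x → I V R y → (∀ z, I V R z → ¬ lt V R y z) → t V R x y γ → W.t γ) ∧
    (∀ x γ, I V R x → (∀ z, I V R z → ¬ lt V R z x) → t V R x x γ → W.c γ)) ?_
    (fun V R _ => ⟨fun h => ⟨h.tot, h.hR, h.hU, h.hl, h.hr, h.hb, h.ht, h.hc⟩,
      fun ⟨h1, h2, h3, h4, h5, h6, h7, h8⟩ => ⟨h1, h2, h3, h4, h5, h6, h7, h8⟩⟩)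
  repeat' first
    | exact Def.const _
    | exact hI.app _
    | exact hlt.app _ _
    | exact (ht _).app _ _
    | refine Def.not ?_
    | refine Def.and ?_ ?_
    | refine Def.or ?_ ?_
    | refine Def.imp ?_ ?_
    | refine Def.all ?_
    | refine Def.ex ?_
    | refine Def.all_fin (fun _ => ?_)
    | refine Def.ex_fin (fun _ => ?_)

theorem def_cells [Finite Γ] (d : ℕ) (W : Wang Γ) : Def0 Γ (fun _ R => Cells d W R) := by
  refine Def.congr (P := fun V R _ =>
    (∀ c, R.cell c → ∃ r, R.par r c ∧ R.node r ∧ R.row r ∧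
      ∀ r', R.par r' c → R.node r' → R.row r' → r' = r) ∧
    (∀ c, R.cell c → ∃ s, R.par s c ∧ R.node s ∧ ¬ R.row s ∧
      ∀ s', R.par s' c → R.node s' → ¬ R.row s' → s' = s) ∧
    (∀ x y, Lev R d x → Lev R d y → ∃ c, CellOf d R c x y ∧
      ∀ c', CellOf d R c' x y → c' = c) ∧
    (∀ z c, R.dum z → R.par z c →
      (∀ s, R.par s c → R.node s → ¬ R.row s → ∀ w, Lev R d w → ¬ ltv R d w s) ∧
      ∀ r, R.par r c → R.node r → R.row r → ∃ w, Lev R d w ∧ ltv R d r w) ∧
    (∀ z z' c, R.dum z → R.dum z' → R.par z c → R.par z' c → z = z') ∧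
    Til W (Rep d R) (ltv R d) (tl d R)) ?_
    (fun V R _ => ⟨fun h => ⟨h.rowc, h.colc, h.pair, h.dumc, h.dumu, h.til⟩,
      fun ⟨h1, h2, h3, h4, h5, h6⟩ => ⟨h1, h2, h3, h4, h5, h6⟩⟩)
  repeat' first
    | exact Def.const _
    | exact Def.eq _ _
    | exact Def.par _ _
    | exact Def.cell _
    | exact Def.node _
    | exact Def.dum _
    | exact Def.row _
    | exact (def_Lev _).app _
    | exact (def_ltv _).app _ _
    | exact (def_cellOf11 _).app _ _ _
    | exact def_til11 W (def_rep11 d) (def_ltv d) (def_tl11 d)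
    | refine Def.not ?_
    | refine Def.and ?_ ?_
    | refine Def.imp ?_ ?_
    | refine Def.all ?_
    | refine Def.ex ?_

theorem def_cond [Finite Γ] (d c0 : ℕ) (W : Wang Γ) : Def0 Γ (fun _ R => Cond d c0 W R) :=
  Def.and (def_tree d c0) (def_cells d W)

end Pool.Agent.Helper29.TD
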