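import Pool.Agent.Helper29.TD.StdVals

/-!
# Block TD-U15: the standard code satisfies the conditions on the cells

The nodes of level `d` are `node r c b []` (`std_lev`), with value `r` (`b = true`) or `c` (`b = false`).  `std_cellOf`: for `x`, `y` of level `d`:
the row code of `cell r c` is `node r c true []` with value `r`, the column code `node r c false []` with value `c`; so
`CellOf d R z x y ↔ z.1 = cell (val x) (val y)` (`std_vals` with `i = d`).  `std_rep`: `Rep d R x ↔ ∃ r, x.1 = node r r true []`.  `tl d R x y γ ↔ f (val x) (val y) = γ`.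
`Cells`: `dumc`: the dummy `z < m < s 0` is attached to `cell z 0`: the column value is `0`, the row value is `z < s 0 - 1`, and
there is a node of level `d` with the value `z + 1 < s 0`.  `til`: `ltv` on representatives is the order of the values `0, ..., s 0 - 1`; nothing
between `x`, `x'` means `val x' = val x + 1`; minimal: value `0`; maximal: value `s 0 - 1`; then use the conditions on `f`.
-/

set_option autoImplicit false

namespace Pool.Agent.Helper29.TD

open Pool.Agent.Helper29.Prefix

variable {Γ : Type} {s : ℕ → ℕ} {d m c0 : ℕ}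

private def nd50 (s : ℕ → ℕ) (d m : ℕ) (r c : ℕ) (b : Bool) (hr : r < s 0) (hc : c < s 0) :
    {v : Ver // v.ok s d m} :=
  ⟨Ver.node r c b [], hr, hc, Nat.zero_le _, trivial⟩

private def ce50 (s : ℕ → ℕ) (d m : ℕ) (r c : ℕ) (hr : r < s 0) (hc : c < s 0) :
    {v : Ver // v.ok s d m} :=
  ⟨Ver.cell r c, hr, hc⟩

private theorem cell50 {v : Ver} (h : v.isCell) : ∃ r c, v = Ver.cell r c := by
  cases v with
  | cell r c => exact ⟨r, c, rfl⟩
  | apex a => exact h.elim
  | dum z => exact h.elim
  | node r c b l => exact h.elim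

private theorem dum50 {v : Ver} (h : v.isDum) : ∃ z, v = Ver.dum z := by
  cases v with
  | cell r c => exact h.elim
  | apex a => exact h.elim
  | dum z => exact ⟨z, rfl⟩
  | node r c b l => exact h.elim

private theorem par50 {u : Ver} {r c : ℕ} (h : u.isNode) (hp : u.par (Ver.cell r c)) :
    ∃ b, u = Ver.node r c b [] := by
  cases u with
  | cell r c => exact h.elim
  | apex a => exact h.elim
  | dum z => exact h.elim
  | node r' c' b l =>
    cases l with
    | nil =>
      obtain ⟨h1, h2⟩ : r' = r ∧ c' = c := hp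
      subst h1 h2
      exact ⟨b, rfl⟩
    | cons a l => exact (hp : False).elim

private theorem row50 {u : Ver} (h : u.row) : ∃ r c, u = Ver.node r c true [] := by
  cases u with
  | cell r c => exact h.elim
  | apex a => exact h.elim
  | dum z => exact h.elim
  | node r' c' b l =>
    cases l with
    | nil =>
      have h1 : b = true := h
      subst h1
      exact ⟨r', c', rfl⟩
    | cons a l => exact (h : False).elim

private theorem nrow50 {r c : ℕ} {b : Bool} (h : ¬ (Ver.node r c b []).row) : b = false := by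
  have h1 : ¬ (b = true) := h
  simpa using h1

private theorem lev50 (h : StdHyp s d m c0) (f : ℕ → ℕ → Γ) {x : {v : Ver // v.ok s d m}}
    (hx : Lev (std s d m f) d x) : ∃ r c b, x.1 = Ver.node r c b [] := by
  obtain ⟨r, c, b, l, h1, h2⟩ := (std_lev h f d x).1 hx
  have h3 : l = [] := List.eq_nil_of_length_eq_zero (by omega)
  subst h3
  exact ⟨r, c, b, h1⟩

private theorem levn50 (h : StdHyp s d m c0) (f : ℕ → ℕ → Γ) {x : {v : Ver // v.ok s d m}}
    {r c : ℕ} {b : Bool} (hx : x.1 = Ver.node r c b []) : Lev (std s d m f) d x :=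
  (std_lev h f d x).2 ⟨r, c, b, [], hx, rfl⟩

private theorem lt50 (h : StdHyp s d m c0) (f : ℕ → ℕ → Γ) {x : {v : Ver // v.ok s d m}}
    (hx : Lev (std s d m f) d x) : x.1.val < s 0 := by
  obtain ⟨r, c, b, h1⟩ := lev50 h f hx
  have h2 := x.2
  rw [h1] at h2
  rw [h1]
  exact vl_lt h2

theorem std_cellOf (h : StdHyp s d m c0) (f : ℕ → ℕ → Γ) {x y : {v : Ver // v.ok s d m}}
    (hx : Lev (std s d m f) d x) (hy : Lev (std s d m f) d y) (z : {v : Ver // v.ok s d m}) :
    CellOf d (std s d m f) z x y ↔ z.1 = Ver.cell x.1.val y.1.val := by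
  have hxl := lt50 h f hx
  have hyl := lt50 h f hy
  constructor
  · rintro ⟨h1, ⟨r, hr1, hr2, hr3, hr4⟩, ⟨t, ht1, ht2, ht3, ht4⟩⟩
    obtain ⟨r0, c1, hz⟩ := cell50 h1
    have hr1' : r.1.par z.1 := hr1
    have ht1' : t.1.par z.1 := ht1
    rw [hz] at hr1' ht1' ⊢
    obtain ⟨b, hb⟩ := par50 hr2 hr1'
    obtain ⟨b', hb'⟩ := par50 ht2 ht1'
    have e1 : b = true := by
      have h2 : r.1.row := hr3
      rw [hb] at h2
      exact h2
    have e2 : b' = false := by
      have h2 : ¬ t.1.row := ht3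
      rw [hb'] at h2
      exact nrow50 h2
    subst e1 e2
    have h3 := ((std_vals h f d r x (levn50 h f hb) hx).1).1 hr4
    have h4 := ((std_vals h f d t y (levn50 h f hb') hy).1).1 ht4
    rw [hb] at h3
    rw [hb'] at h4
    rw [← h3, ← h4]
    rfl
  · intro hz
    refine ⟨?_, ⟨nd50 s d m _ _ true hxl hyl, ?_, trivial, ?_, ?_⟩, ⟨nd50 s d m _ _ false hxl hyl, ?_, trivial, ?_, ?_⟩⟩
    · change z.1.isCell
      rw [hz]
      trivial
    · change (nd50 s d m _ _ true hxl hyl).1.par z.1
      rw [hz]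
      exact ⟨rfl, rfl⟩
    · exact (rfl : true = true)
    · exact ((std_vals h f d _ x (levn50 h f rfl) hx).1).2 rfl
    · change (nd50 s d m _ _ false hxl hyl).1.par z.1
      rw [hz]
      exact ⟨rfl, rfl⟩
    · intro h1
      have h2 : false = true := h1
      exact Bool.noConfusion h2
    · exact ((std_vals h f d _ y (levn50 h f rfl) hy).1).2 rfl

theorem std_rep (h : StdHyp s d m c0) (f : ℕ → ℕ → Γ) (x : {v : Ver // v.ok s d m}) :
    Rep d (std s d m f) x ↔ ∃ r, x.1 = Ver.node r r true [] := by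
  constructor
  · rintro ⟨_, h2, c, t, h3, h4, h5, h6, h7, h8⟩
    obtain ⟨r0, c1, hx⟩ := row50 h2
    obtain ⟨r2, c2, hc⟩ := cell50 h3
    have h4' : x.1.par c.1 := h4
    have h5' : t.1.par c.1 := h5
    rw [hc] at h4' h5'
    obtain ⟨b, hb⟩ := par50 h6 h5'
    have e2 : b = false := by
      have h2 : ¬ t.1.row := h7
      rw [hb] at h2
      exact nrow50 h2
    subst e2
    rw [hx] at h4'
    obtain ⟨e3, e4⟩ : r0 = r2 ∧ c1 = c2 := h4'
    subst e3 e4
    have h9 := ((std_vals h f d x t (levn50 h f hx) (levn50 h f hb)).1).1 h8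
    rw [hx, hb] at h9
    have h10 : r0 = c1 := h9
    subst h10
    exact ⟨r0, hx⟩
  · rintro ⟨r, hx⟩
    have h2 := x.2
    rw [hx] at h2
    have hr : r < s 0 := h2.1
    refine ⟨?_, ?_, ce50 s d m r r hr hr, nd50 s d m r r false hr hr, trivial, ?_, ⟨rfl, rfl⟩, trivial, ?_, ?_⟩
    · change x.1.isNode
      rw [hx]
      trivial
    · change x.1.row
      rw [hx]
      exact (rfl : true = true)
    · change x.1.par _
      rw [hx]
      exact ⟨rfl, rfl⟩
    · intro h1
      have h2 : false = true := h1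
      exact Bool.noConfusion h2
    · refine ((std_vals h f d x _ (levn50 h f hx) (levn50 h f rfl)).1).2 ?_
      rw [hx]
      rfl

theorem std_cells (h : StdHyp s d m c0) (W : Wang Γ) (f : ℕ → ℕ → Γ)
    (hR : ∀ x y, x + 1 < s 0 → y < s 0 → W.R (f x y) (f (x + 1) y))
    (hU : ∀ x y, x < s 0 → y + 1 < s 0 → W.U (f x y) (f x (y + 1)))
    (hl : ∀ y, y < s 0 → W.l (f 0 y)) (hr : ∀ y, y < s 0 → W.r (f (s 0 - 1) y))
    (hb : ∀ x, x < s 0 → W.b (f x 0)) (ht : ∀ x, x < s 0 → W.t (f x (s 0 - 1)))
    (hc : W.c (f 0 0)) : Cells d W (std s d m f) := by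
  have hcol : ∀ c : {v : Ver // v.ok s d m}, (std s d m f).cell c → ∃ r0 c1, c.1 = Ver.cell r0 c1 ∧ r0 < s 0 ∧ c1 < s 0 := by
    intro c hc1
    obtain ⟨r0, c1, e⟩ := cell50 hc1
    have h2 := c.2
    rw [e] at h2
    exact ⟨r0, c1, e, h2.1, h2.2⟩
  have hlt : ∀ x y : {v : Ver // v.ok s d m}, Rep d (std s d m f) x → Rep d (std s d m f) y →
      (ltv (std s d m f) d x y ↔ x.1.val < y.1.val) := by
    intro x y hx hy
    obtain ⟨r, e⟩ := (std_rep h f x).1 hx
    obtain ⟨r', e'⟩ := (std_rep h f y).1 hy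
    exact (std_vals h f d x y (levn50 h f e) (levn50 h f e')).2
  have hrl : ∀ x : {v : Ver // v.ok s d m}, Rep d (std s d m f) x → Lev (std s d m f) d x := by
    intro x hx
    obtain ⟨r, e⟩ := (std_rep h f x).1 hx
    exact levn50 h f e
  have hrep : ∀ k, ∀ hk : k < s 0, Rep d (std s d m f) (nd50 s d m k k true hk hk) := by
    intro k hk
    exact (std_rep h f _).2 ⟨k, rfl⟩
  have htl : ∀ (x y : {v : Ver // v.ok s d m}) (γ : Γ), Rep d (std s d m f) x → Rep d (std s d m f) y →
      tl d (std s d m f) x y γ → f x.1.val y.1.val = γ := by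
    rintro x y γ hx hy ⟨c, h1, h2⟩
    have h3 := (std_cellOf h f (hrl x hx) (hrl y hy) c).1 h1
    have h2' : c.1.tile f γ := h2
    rw [h3] at h2'
    exact h2'
  have hsuc : ∀ x x' : {v : Ver // v.ok s d m}, Rep d (std s d m f) x → Rep d (std s d m f) x' →
      ltv (std s d m f) d x x' →
      (∀ z, Rep d (std s d m f) z → ¬ (ltv (std s d m f) d x z ∧ ltv (std s d m f) d z x')) →
      x'.1.val = x.1.val + 1 := by
    intro x x' hx hx' h1 h2
    have h3 := (hlt x x' hx hx').1 h1
    by_contra h4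
    have h5 : x'.1.val < s 0 := lt50 h f (hrl x' hx')
    have h6 : x.1.val + 1 < s 0 := by omega
    have e : (nd50 s d m (x.1.val + 1) (x.1.val + 1) true h6 h6).1.val = x.1.val + 1 := rfl
    refine h2 (nd50 s d m (x.1.val + 1) (x.1.val + 1) true h6 h6) (hrep _ h6)
      ⟨(hlt x _ hx (hrep _ h6)).2 ?_, (hlt _ x' (hrep _ h6) hx').2 ?_⟩
    · rw [e]
      omega
    · rw [e]
      omega
  have hmin : ∀ x : {v : Ver // v.ok s d m}, Rep d (std s d m f) x →
      (∀ z, Rep d (std s d m f) z → ¬ ltv (std s d m f) d z x) → x.1.val = 0 := by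
    intro x hx h1
    by_contra h2
    have h5 : x.1.val < s 0 := lt50 h f (hrl x hx)
    have h6 : 0 < s 0 := by omega
    have e : (nd50 s d m 0 0 true h6 h6).1.val = 0 := rfl
    refine h1 (nd50 s d m 0 0 true h6 h6) (hrep _ h6) ((hlt _ x (hrep _ h6) hx).2 ?_)
    rw [e]
    omega
  have hmax : ∀ x : {v : Ver // v.ok s d m}, Rep d (std s d m f) x →
      (∀ z, Rep d (std s d m f) z → ¬ ltv (std s d m f) d x z) → x.1.val = s 0 - 1 := by
    intro x hx h1
    by_contra h2
    have h5 : x.1.val < s 0 := lt50 h f (hrl x hx)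
    have h6 : s 0 - 1 < s 0 := by omega
    have e : (nd50 s d m (s 0 - 1) (s 0 - 1) true h6 h6).1.val = s 0 - 1 := rfl
    refine h1 (nd50 s d m (s 0 - 1) (s 0 - 1) true h6 h6) (hrep _ h6) ((hlt x _ hx (hrep _ h6)).2 ?_)
    rw [e]
    omega
  have hval : ∀ x : {v : Ver // v.ok s d m}, Rep d (std s d m f) x → x.1.val < s 0 :=
    fun x hx => lt50 h f (hrl x hx)
  refine ⟨?_, ?_, ?_, ?_, ?_, ?_⟩
  · intro c hc1
    obtain ⟨r0, c1, e, h1, h2⟩ := hcol c hc1
    refine ⟨nd50 s d m r0 c1 true h1 h2, ?_, trivial, (rfl : true = true), ?_⟩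
    · change Ver.par _ c.1
      rw [e]
      exact ⟨rfl, rfl⟩
    · intro r' h3 h4 h5
      have h3' : r'.1.par c.1 := h3
      rw [e] at h3'
      obtain ⟨b, hb⟩ := par50 h4 h3'
      have h5' : r'.1.row := h5
      rw [hb] at h5'
      have h6 : b = true := h5'
      subst h6
      exact Subtype.ext hb
  · intro c hc1
    obtain ⟨r0, c1, e, h1, h2⟩ := hcol c hc1
    refine ⟨nd50 s d m r0 c1 false h1 h2, ?_, trivial, fun h9 => Bool.noConfusion (h9 : false = true), ?_⟩
    · change Ver.par _ c.1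
      rw [e]
      exact ⟨rfl, rfl⟩
    · intro r' h3 h4 h5
      have h3' : r'.1.par c.1 := h3
      rw [e] at h3'
      obtain ⟨b, hb⟩ := par50 h4 h3'
      have h5' : ¬ r'.1.row := h5
      rw [hb] at h5'
      have h6 : b = false := nrow50 h5'
      subst h6
      exact Subtype.ext hb
  · intro x y hx hy
    refine ⟨ce50 s d m x.1.val y.1.val (lt50 h f hx) (lt50 h f hy), (std_cellOf h f hx hy _).2 rfl, ?_⟩
    intro c' hc'
    exact Subtype.ext ((std_cellOf h f hx hy c').1 hc')
  · intro z c hz hzc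
    obtain ⟨z0, ez⟩ := dum50 hz
    have hz2 := z.2
    rw [ez] at hz2
    have hz3 : z0 < m := hz2
    have hzm : z0 + 1 < s 0 := by
      have := h.hm
      omega
    have hzc' : z.1.par c.1 := hzc
    have hcc : ∃ r0 c1, c.1 = Ver.cell r0 c1 ∧ r0 = z0 ∧ c1 = 0 := by
      obtain ⟨cv, hcv⟩ := c
      rw [ez] at hzc'
      cases cv with
      | cell r c => exact ⟨r, c, rfl, hzc'.1, hzc'.2⟩
      | apex a => exact (hzc' : False).elim
      | dum z => exact (hzc' : False).elim
      | node r c b l => exact (hzc' : False).elim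
    obtain ⟨r0, c1, ec, e1, e2⟩ := hcc
    subst e1 e2
    constructor
    · intro t h1 h2 h3 w hw h4
      have h1' : t.1.par c.1 := h1
      rw [ec] at h1'
      obtain ⟨b, hb⟩ := par50 h2 h1'
      have h3' : ¬ t.1.row := h3
      rw [hb] at h3'
      have h6 : b = false := nrow50 h3'
      subst h6
      have h7 := ((std_vals h f d w t hw (levn50 h f hb)).2).1 h4
      rw [hb] at h7
      exact absurd h7 (Nat.not_lt_zero _)
    · intro t h1 h2 h3
      have h1' : t.1.par c.1 := h1
      rw [ec] at h1'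
      obtain ⟨b, hb⟩ := par50 h2 h1'
      have h3' : t.1.row := h3
      rw [hb] at h3'
      have h6 : b = true := h3'
      subst h6
      refine ⟨nd50 s d m (r0 + 1) (r0 + 1) true hzm hzm, levn50 h f rfl,
        ((std_vals h f d t _ (levn50 h f hb) (levn50 h f rfl)).2).2 ?_⟩
      rw [hb]
      exact Nat.lt_succ_self r0
  · intro z z' c hz hz' hzc hzc'
    obtain ⟨z0, ez⟩ := dum50 hz
    obtain ⟨z1, ez1⟩ := dum50 hz'
    have h1 : z.1.par c.1 := hzc
    have h2 : z'.1.par c.1 := hzc'
    rw [ez] at h1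
    rw [ez1] at h2
    obtain ⟨cv, hcv⟩ := c
    apply Subtype.ext
    rw [ez, ez1]
    cases cv with
    | cell r c =>
      have e1 : r = z0 := h1.1
      have e2 : r = z1 := h2.1
      rw [← e1, ← e2]
    | apex a => exact (h1 : False).elim
    | dum z => exact (h1 : False).elim
    | node r c b l => exact (h1 : False).elim
  · refine ⟨?_, ?_, ?_, ?_, ?_, ?_, ?_, ?_⟩
    · intro x y hx hy
      refine ⟨f x.1.val y.1.val, ce50 s d m x.1.val y.1.val (hval x hx) (hval y hy),
        (std_cellOf h f (hrl x hx) (hrl y hy) _).2 rfl, rfl⟩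
    · intro x x' y γ δ hx hx' hy h1 h2 h3 h4
      have e := hsuc x x' hx hx' h1 h2
      have e1 := htl x y γ hx hy h3
      have e2 := htl x' y δ hx' hy h4
      have h5 := hval x' hx'
      rw [e] at e2 h5
      rw [← e1, ← e2]
      exact hR _ _ h5 (hval y hy)
    · intro x y y' γ δ hx hy hy' h1 h2 h3 h4
      have e := hsuc y y' hy hy' h1 h2
      have e1 := htl x y γ hx hy h3
      have e2 := htl x y' δ hx hy' h4
      have h5 := hval y' hy'
      rw [e] at e2 h5
      rw [← e1, ← e2]
      exact hU _ _ (hval x hx) h5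
    · intro x y γ hx hy h1 h3
      have e := hmin x hx h1
      have e1 := htl x y γ hx hy h3
      rw [e] at e1
      rw [← e1]
      exact hl _ (hval y hy)
    · intro x y γ hx hy h1 h3
      have e := hmax x hx h1
      have e1 := htl x y γ hx hy h3
      rw [e] at e1
      rw [← e1]
      exact hr _ (hval y hy)
    · intro x y γ hx hy h1 h3
      have e := hmin y hy h1
      have e1 := htl x y γ hx hy h3
      rw [e] at e1
      rw [← e1]
      exact hb _ (hval x hx)
    · intro x y γ hx hy h1 h3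
      have e := hmax y hy h1
      have e1 := htl x y γ hx hy h3
      rw [e] at e1
      rw [← e1]
      exact ht _ (hval x hx)
    · intro x γ hx h1 h3
      have e := hmin x hx h1
      have e1 := htl x x γ hx hx h3
      rw [e] at e1
      rw [← e1]
      exact hc

end Pool.Agent.Helper29.TD
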