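import Pool.Agent.Helper29.TD.StdTree
import Pool.Agent.Helper29.TD.StdCells

/-!
# Encoding
-/

set_option autoImplicit false

namespace Pool.Agent.Helper29.TD

open Pool.Agent.Helper29.Prefix

variable {Γ : Type}

theorem encode (W : Wang Γ) {N d c0 m : ℕ} (h2 : 2 ≤ c0) (hN : c0 ≤ (Nat.clog 2)^[d] N)
    (hm : m < N) (ht : Tiles W N) : ∃ (V : Type) (_ : Finite V) (R : St Γ V),
      Cond d c0 W R ∧ Nat.card V = Fs d N + m := by
  obtain ⟨f, h1, h3, h4, h5, h6, h7, h8⟩ := ht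
  let s : ℕ → ℕ := fun j => (Nat.clog 2)^[j] N
  have hs : ∀ j, s (j + 1) = Nat.clog 2 (s j) := fun j => Function.iterate_succ_apply' _ _ _
  have h : StdHyp s d m c0 := ⟨hs, hN, h2, hm⟩
  refine ⟨{v : Ver // v.ok s d m}, Ver.finite s d m, std s d m f,
    ⟨std_tree h f, std_cells h W f h1 h3 h4 h5 h6 h7 h8⟩, ?_⟩
  rw [Ver.card hs d m]
  rfl

end Pool.Agent.Helper29.TD
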