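import Pool.Agent.Helper20.Spectra.RudTools

/-!
# Block TD-U16: reading off the runs

`red`: for `N ≥ 1`:  `G N ∧ T N` if and only if there is `m ≤ p.eval N` with `m ∈ S₂`, (`m = 0` or `m - 1 ∉ S₁`), `m + i ∈ S₁` for all
`i < N`, and `m + N ∉ S₁`.  Proof: `S₁` is the union of the intervals `[F N, F N + N)` with `G N`, and these are separated by gaps
(`F N + N < F (N + 1)`, so `F N + N < F N'` for `N < N'`).  If `G N`, `T N` take `m = F N`.  Conversely let `m = F N' + i` with `G N'`, `T N'`, `i < N'`.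
If `i > 0` then `m - 1 ∈ S₁`; so `i = 0`, `m = F N'`; the run of `S₁` starting at `F N'` has exactly the length `N'`, so `N = N'`.
The condition is rudimentary: `isRudimentary_of`, `RudX.ex`, `RudX.all`, `RudX.mem`, `RudX.and'`, `RudX.or`, `RudX.not'`, `RudX.le`, `IsPoly`
(`Spectra/RudTools.lean`; write `m = 0 ∨ ∃ m' ≤ m, m = m' + 1 ∧ m' ∉ S₁`, or shift `m`).
`rud_of_eventually`: `B = (A ∩ {n | N1 ≤ n}) ∪ (B ∩ {n | n < N1})`; a finite set is rudimentary (`RudX.ex_finset`, `RudX.eq`).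
-/

set_option autoImplicit false

namespace Pool.Agent.Helper29.TD

open Pool.Agent.Helper20.Spectra

theorem red {S₁ S₂ : Set ℕ} (h₁ : IsRudimentary S₁) (h₂ : IsRudimentary S₂) (F : ℕ → ℕ)
    (G T : ℕ → Prop) (p : Polynomial ℕ) (hgap : ∀ N, F N + N < F (N + 1))
    (hp : ∀ N, F N ≤ p.eval N)
    (e₁ : ∀ n, n ∈ S₁ ↔ ∃ N m, G N ∧ m < N ∧ n = F N + m)
    (e₂ : ∀ n, n ∈ S₂ ↔ ∃ N m, G N ∧ T N ∧ m < N ∧ n = F N + m) :
    IsRudimentary {N | 1 ≤ N ∧ G N ∧ T N} := by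
  -- gaps
  have hF1 : ∀ N, F N ≤ F (N + 1) := fun N => by
    have := hgap N
    omega
  have hmono : Monotone F := monotone_nat_of_le_succ hF1
  have hlt : ∀ N N', N < N' → F N + N < F N' := by
    intro N N' h
    exact lt_of_lt_of_le (hgap N) (hmono h)
  -- the end of a run is not in `S₁`
  have hend : ∀ N, F N + N ∉ S₁ := by
    intro N h
    obtain ⟨N', i, _, hi, he⟩ := (e₁ _).1 h
    rcases lt_trichotomy N' N with h1 | h1 | h1
    · have := hlt N' N h1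
      omega
    · subst h1
      omega
    · have := hlt N N' h1
      omega
  -- the point before a run is not in `S₁`
  have hbef : ∀ N m', m' + 1 = F N → m' ∉ S₁ := by
    intro N m' hm' h
    obtain ⟨N', i, _, hi, he⟩ := (e₁ _).1 h
    rcases lt_or_ge N' N with h1 | h1
    · have := hlt N' N h1
      omega
    · have := hmono h1
      omega
  have key : ∀ N, (1 ≤ N ∧ G N ∧ T N) ↔ (1 ≤ N ∧ ∃ m, m ≤ p.eval N ∧ (m ∈ S₂ ∧
      (∀ m', m' ≤ m → (m' + 1 = m → m' ∉ S₁)) ∧ (∀ i, i ≤ N → (i < N → m + i ∈ S₁)) ∧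
      m + N ∉ S₁)) := by
    intro N
    constructor
    · rintro ⟨hN, hG, hT⟩
      refine ⟨hN, F N, hp N, (e₂ _).2 ⟨N, 0, hG, hT, hN, rfl⟩, fun m' _ h => hbef N m' h,
        fun i _ hi => (e₁ _).2 ⟨N, i, hG, hi, rfl⟩, hend N⟩
    · rintro ⟨hN, m, _, hm, hm1, hm2, hm3⟩
      obtain ⟨N', i, hG, hT, hi, he⟩ := (e₂ _).1 hm
      have hi0 : i = 0 := by
        by_contra h0
        refine hm1 (m - 1) (by omega) (by omega) ((e₁ _).2 ⟨N', i - 1, hG, by omega, by omega⟩)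
      subst hi0
      rcases lt_trichotomy N' N with h1 | h1 | h1
      · exfalso
        have h2 := hm2 N' h1.le h1
        rw [he, add_zero] at h2
        exact hend N' h2
      · subst h1
        exact ⟨hN, hG, hT⟩
      · exfalso
        refine hm3 ((e₁ _).2 ⟨N', N, hG, h1, by omega⟩)
  apply isRudimentary_of
  refine RudX.congr (P := fun _ v => 1 ≤ v 0 ∧ ∃ m, m ≤ p.eval (v 0) ∧ (m ∈ S₂ ∧
      (∀ m', m' ≤ m → (m' + 1 = m → m' ∉ S₁)) ∧ (∀ i, i ≤ v 0 → (i < v 0 → m + i ∈ S₁)) ∧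
      m + v 0 ∉ S₁)) ?_ (fun X v => key (v 0))
  refine (RudX.le (Helper20.Spectra.IsPoly.const 1) (IsPoly.var 0)).and' ?_
  refine RudX.ex (IsPoly.polyEval p (IsPoly.var 0)) (P := fun _ v m => (m ∈ S₂ ∧
      (∀ m', m' ≤ m → (m' + 1 = m → m' ∉ S₁)) ∧ (∀ i, i ≤ v 0 → (i < v 0 → m + i ∈ S₁)) ∧
      m + v 0 ∉ S₁)) ?_
  refine (RudX.mem h₂ (IsPoly.var 0)).and' ?_
  refine RudX.and' ?_ (RudX.and' ?_ ?_)
  · refine RudX.all (IsPoly.var 0) (P := fun _ w m' => m' + 1 = w 0 → m' ∉ S₁) ?_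
    exact (RudX.eq ((IsPoly.var 0).add (Helper20.Spectra.IsPoly.const 1)) (IsPoly.var 0).tail).imp
      (RudX.mem h₁ (IsPoly.var 0)).not'
  · refine RudX.all (IsPoly.var 0).tail
      (P := fun _ w i => i < Fin.tail w 0 → w 0 + i ∈ S₁) ?_
    exact (RudX.lt (IsPoly.var 0) (IsPoly.var 0).tail.tail).imp
      (RudX.mem h₁ ((IsPoly.var 0).tail.add (IsPoly.var 0)))
  · exact (RudX.mem h₁ ((IsPoly.var 0).add (IsPoly.var 0).tail)).not'

theorem rud_of_eventually {A B : Set ℕ} (hA : IsRudimentary A) (N1 : ℕ)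
    (h : ∀ n, N1 ≤ n → (n ∈ A ↔ n ∈ B)) : IsRudimentary B := by
  classical
  apply isRudimentary_of
  refine RudX.congr (P := fun _ v => (N1 ≤ v 0 ∧ v 0 ∈ A) ∨
    ∃ c ∈ (Finset.range N1).filter (fun n => n ∈ B), v 0 = c) ?_ (fun X v => ?_)
  · exact ((RudX.le (Helper20.Spectra.IsPoly.const N1) (IsPoly.var 0)).and' (RudX.mem hA (IsPoly.var 0))).or
      (RudX.ex_finset _ (fun c _ => RudX.eq (IsPoly.var 0) (Helper20.Spectra.IsPoly.const c)))
  · constructor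
    · intro hB
      rcases Nat.lt_or_ge (v 0) N1 with h1 | h1
      · exact Or.inr ⟨v 0, Finset.mem_filter.2 ⟨Finset.mem_range.2 h1, hB⟩, rfl⟩
      · exact Or.inl ⟨h1, (h _ h1).2 hB⟩
    · rintro (⟨h1, h2⟩ | ⟨c, hc, h3⟩)
      · exact (h _ h1).1 h2
      · rw [h3]
        exact (Finset.mem_filter.1 hc).2

end Pool.Agent.Helper29.TD
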