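import Pool.Agent.Helper29.TD.Fs

/-!
# Block TD-U5: the threshold (elementary arithmetic)

`exp_exp`: `2 ^ 2 ^ (k - 1) ≥ (k + 1) * B` for `k ≥ c0`: e.g. `2 ^ x ≥ x ^ 2` for `x = 2 ^ (k - 1) ≥ 4`, `x ≥ k + 1` for `k ≥ 3`... and
`x ≥ B` for large `k`.
`thr`: let `n ≤ E d0 (w n)` for `n ≥ n1`, `c0 ≥ max 2 n1` and `c0` from `exp_exp` for `B = 2 * (d0 + 2 + 3) + 1`.  If `w n < (k + 1) * B` then
(`n ≥ k ≥ n1`) `n ≤ E d0 (w n) ≤ E d0 ((k + 1) * B) ≤ E d0 (E 2 (k - 1)) = E (d0 + 2) (k - 1) < N ≤ n` by `E_clog_lt`,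
`E_add`; a contradiction.
-/

set_option autoImplicit false

namespace Pool.Agent.Helper29.TD

open Filter

private lemma sq_le24 {x : ℕ} (h : 4 ≤ x) : x * x ≤ 2 ^ x := by
  induction x, h using Nat.le_induction with
  | base => norm_num
  | succ n hn ih =>
    have h1 : (n + 1) * (n + 1) ≤ 2 * (n * n) := by nlinarith
    calc (n + 1) * (n + 1) ≤ 2 * (n * n) := h1
      _ ≤ 2 * 2 ^ n := Nat.mul_le_mul_left 2 ih
      _ = 2 ^ (n + 1) := by rw [pow_succ]; ring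

private lemma add_two_le24 {m : ℕ} (h : 2 ≤ m) : m + 2 ≤ 2 ^ m := by
  induction m, h using Nat.le_induction with
  | base => norm_num
  | succ n hn ih =>
    rw [pow_succ]
    omega

lemma exp_exp (B : ℕ) : ∃ c0, ∀ k, c0 ≤ k → (k + 1) * B ≤ E 2 (k - 1) := by
  refine ⟨B + 3, fun k hk => ?_⟩
  obtain ⟨m, rfl⟩ : ∃ m, k = m + 1 := ⟨k - 1, by omega⟩
  have h1 : m + 2 ≤ 2 ^ m := add_two_le24 (by omega)
  have h2 : B ≤ 2 ^ m := (Nat.lt_two_pow_self (n := B)).le.trans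
    (Nat.pow_le_pow_right (by norm_num) (by omega))
  have h3 : 2 ^ m * 2 ^ m ≤ 2 ^ 2 ^ m := sq_le24 (by omega)
  have h4 : (m + 1 + 1) * B ≤ 2 ^ m * 2 ^ m := Nat.mul_le_mul h1 h2
  rw [Nat.add_sub_cancel]
  exact h4.trans h3

theorem thr (w : ℕ → ℕ) (d0 : ℕ) (h : ∀ᶠ n in atTop, n ≤ E d0 (w n)) : ∃ c0, 2 ≤ c0 ∧
    ∀ N n : ℕ, c0 ≤ (Nat.clog 2)^[d0 + 2] N → (Nat.clog 2)^[d0 + 2] N ≤ n → N ≤ n →
      ((Nat.clog 2)^[d0 + 2] N + 1) * (2 * (d0 + 2 + 3) + 1) ≤ w n := by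
  obtain ⟨n1, hn1⟩ := eventually_atTop.1 h
  obtain ⟨c1, hc1⟩ := exp_exp (2 * (d0 + 2 + 3) + 1)
  refine ⟨max 2 (max n1 c1), le_max_left _ _, fun N n hk hkn hNn => ?_⟩
  have h2 : 2 ≤ (Nat.clog 2)^[d0 + 2] N := (le_max_left _ _).trans hk
  have h3 : n1 ≤ (Nat.clog 2)^[d0 + 2] N :=
    ((le_max_left _ _).trans (le_max_right _ _)).trans hk
  have h4 : c1 ≤ (Nat.clog 2)^[d0 + 2] N :=
    ((le_max_right _ _).trans (le_max_right _ _)).trans hk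
  by_contra hcon
  rw [not_le] at hcon
  have h5 : n ≤ E d0 (w n) := hn1 n (h3.trans hkn)
  have h6 : E d0 (w n) ≤ E d0 (E 2 ((Nat.clog 2)^[d0 + 2] N - 1)) :=
    E_mono d0 (hcon.le.trans (hc1 _ h4))
  have h7 : E (d0 + 2) ((Nat.clog 2)^[d0 + 2] N - 1) < N := E_clog_lt (d0 + 2) N (by omega)
  rw [E_add] at h6
  omega

end Pool.Agent.Helper29.TD
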