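import Pool.Agent.Helper29.TD.St
import Pool.Agent.Helper20.OP.Sq

/-!
# Short codes of tilings: the conditions

A cell has two codes (its row and its column), trees of depth `d`.  A node of level `0` (a leaf) is attached to one of the
ordered apices; a node of level `i + 1` has exactly one child for each value of the nodes of level `i`; the value of a node of
level `i + 1` is the sum of `2 ^ (value of u)` over its children `u` with `bit u`.
-/

set_option autoImplicit false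

namespace Pool.Agent.Helper29.TD

open Pool.Agent.Helper29.Prefix

variable {Γ V : Type}

section levels

variable (R : St Γ V)

/-- `x` is a node of level `i` (`i` is the distance to the leaves) -/
def Lev : ℕ → V → Prop
  | 0, x => R.node x ∧ ∃ a, R.att x a
  | i + 1, x => R.node x ∧ ∃ u, Lev i u ∧ R.par u x

/-- equality of values, one level up -/
def stepE (E : V → V → Prop) (x y : V) : Prop :=
  (∀ u, R.par u x → R.bit u → ∃ w, R.par w y ∧ R.bit w ∧ E u w) ∧
    ∀ w, R.par w y → R.bit w → ∃ u, R.par u x ∧ R.bit u ∧ E w u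

/-- `x` and `y` have the same bits at the positions above `v` -/
def high (E L : V → V → Prop) (x y v : V) : Prop :=
  (∀ u, R.par u x → R.bit u → L v u → ∃ w, R.par w y ∧ R.bit w ∧ E u w) ∧
    ∀ w, R.par w y → R.bit w → L v w → ∃ u, R.par u x ∧ R.bit u ∧ E w u

/-- comparison of values, one level up -/
def stepL (E L : V → V → Prop) (x y : V) : Prop :=
  ∃ v, R.par v y ∧ R.bit v ∧ (∀ u, R.par u x → R.bit u → ¬ E u v) ∧ high R E L x y v

/-- the value of `y` is the value of `x` plus one, one level up -/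
def stepS (E L : V → V → Prop) (x y : V) : Prop :=
  ∃ v, R.par v y ∧ R.bit v ∧ (∀ u, R.par u x → R.bit u → ¬ E u v) ∧
    (∀ u, R.par u x → L u v → R.bit u) ∧ (∀ w, R.par w y → L w v → ¬ R.bit w) ∧ high R E L x y v

/-- the nodes `x`, `y` of level `i` have the same value -/
def eqv : ℕ → V → V → Prop
  | 0 => fun x y => ∃ a, R.att x a ∧ R.att y a
  | i + 1 => stepE R (eqv i)

/-- the value of the node `x` of level `i` is smaller than the value of `y` -/
def ltv : ℕ → V → V → Prop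
  | 0 => fun x y => ∃ a b, R.att x a ∧ R.att y b ∧ R.ord a b
  | i + 1 => stepL R (eqv R i) (ltv i)

/-- the value of the node `y` of level `i + 1` is the value of `x` plus one -/
def suc (i : ℕ) : V → V → Prop := stepS R (eqv R i) (ltv R i)

end levels

/-- there are at least `c` elements with the property `P` -/
def AtLeast {V : Type} (c : ℕ) (P : V → Prop) : Prop :=
  ∃ f : Fin c → V, Function.Injective f ∧ ∀ i, P (f i)

/-- the conditions on the trees -/
structure Tree (d c0 : ℕ) (R : St Γ V) : Prop where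
  kind : ∀ x, R.apex x ∨ R.cell x ∨ R.node x ∨ R.dum x
  dis : ∀ x, ¬ (R.apex x ∧ R.cell x) ∧ ¬ (R.apex x ∧ R.node x) ∧ ¬ (R.apex x ∧ R.dum x) ∧
    ¬ (R.cell x ∧ R.node x) ∧ ¬ (R.cell x ∧ R.dum x) ∧ ¬ (R.node x ∧ R.dum x)
  ord_apex : ∀ a b, R.ord a b → R.apex a ∧ R.apex b
  ord_irr : ∀ a, ¬ R.ord a a
  ord_trans : ∀ a b c, R.ord a b → R.ord b c → R.ord a c
  ord_lin : ∀ a b, R.apex a → R.apex b → R.ord a b ∨ a = b ∨ R.ord b a
  par_kind : ∀ u x, R.par u x → (Lev R d u ∧ R.cell x) ∨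
    (∃ i, i < d ∧ Lev R i u ∧ Lev R (i + 1) x) ∨ (R.dum u ∧ R.cell x)
  par_uniq : ∀ u x y, R.par u x → R.par u y → x = y
  par_ex : ∀ u, (R.node u ∨ R.dum u) → ∃ x, R.par u x
  node_lev : ∀ x, R.node x → ∃ i, i < d + 1 ∧ Lev R i x
  lev_uniq : ∀ i, i < d + 1 → ∀ j, j < d + 1 → i ≠ j → ∀ x, ¬ (Lev R i x ∧ Lev R j x)
  att_kind : ∀ x a, R.att x a → R.node x ∧ R.apex a
  att_uniq : ∀ x a b, R.att x a → R.att x b → a = b
  att_all : ∀ a, R.apex a → ∃ x, R.att x a
  ch_ex : ∀ i, i < d → ∀ x v, Lev R (i + 1) x → Lev R i v → ∃ u, R.par u x ∧ eqv R i u v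
  ch_uniq : ∀ i, i < d → ∀ x u v, Lev R (i + 1) x → R.par u x → R.par v x → eqv R i u v → u = v
  pred : ∀ i, i < d → ∀ x v, Lev R (i + 1) x → R.par v x → R.bit v →
    ∃ y, Lev R (i + 1) y ∧ suc R i y x
  top : ∀ i, i < d → ∃ x v, Lev R (i + 1) x ∧ R.par v x ∧ R.bit v ∧ ∀ w, Lev R i w → ¬ ltv R i v w
  big : AtLeast c0 R.apex

/-- `c` is a cell in the row of the value of `x` and in the column of the value of `y` -/
def CellOf (d : ℕ) (R : St Γ V) (c x y : V) : Prop :=
  R.cell c ∧ (∃ r, R.par r c ∧ R.node r ∧ R.row r ∧ eqv R d r x) ∧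
    ∃ s, R.par s c ∧ R.node s ∧ ¬ R.row s ∧ eqv R d s y

/-- representatives of the values: the row codes of the cells on the diagonal -/
def Rep (d : ℕ) (R : St Γ V) (x : V) : Prop :=
  R.node x ∧ R.row x ∧ ∃ c s, R.cell c ∧ R.par x c ∧ R.par s c ∧ R.node s ∧ ¬ R.row s ∧ eqv R d x s

/-- the cell of `(x, y)` has the tile `γ` -/
def tl (d : ℕ) (R : St Γ V) (x y : V) (γ : Γ) : Prop := ∃ c, CellOf d R c x y ∧ R.tile γ c

/-- correct tilings, see `SqCode` -/
structure Til (W : Wang Γ) (I : V → Prop) (lt : V → V → Prop) (t : V → V → Γ → Prop) : Prop where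
  tot : ∀ x y, I x → I y → ∃ γ, t x y γ
  hR : ∀ x x' y γ δ, I x → I x' → I y → lt x x' → (∀ z, I z → ¬ (lt x z ∧ lt z x')) →
    t x y γ → t x' y δ → W.R γ δ
  hU : ∀ x y y' γ δ, I x → I y → I y' → lt y y' → (∀ z, I z → ¬ (lt y z ∧ lt z y')) →
    t x y γ → t x y' δ → W.U γ δ
  hl : ∀ x y γ, I x → I y → (∀ z, I z → ¬ lt z x) → t x y γ → W.l γ
  hr : ∀ x y γ, I x → I y → (∀ z, I z → ¬ lt x z) → t x y γ → W.r γ
  hb : ∀ x y γ, I x → I y → (∀ z, I z → ¬ lt z y) → t x y γ → W.b γ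
  ht : ∀ x y γ, I x → I y → (∀ z, I z → ¬ lt y z) → t x y γ → W.t γ
  hc : ∀ x γ, I x → (∀ z, I z → ¬ lt z x) → t x x γ → W.c γ

/-- the conditions on the cells and the dummies -/
structure Cells (d : ℕ) (W : Wang Γ) (R : St Γ V) : Prop where
  rowc : ∀ c, R.cell c → ∃ r, R.par r c ∧ R.node r ∧ R.row r ∧
    ∀ r', R.par r' c → R.node r' → R.row r' → r' = r
  colc : ∀ c, R.cell c → ∃ s, R.par s c ∧ R.node s ∧ ¬ R.row s ∧
    ∀ s', R.par s' c → R.node s' → ¬ R.row s' → s' = s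
  pair : ∀ x y, Lev R d x → Lev R d y → ∃ c, CellOf d R c x y ∧ ∀ c', CellOf d R c' x y → c' = c
  dumc : ∀ z c, R.dum z → R.par z c →
    (∀ s, R.par s c → R.node s → ¬ R.row s → ∀ w, Lev R d w → ¬ ltv R d w s) ∧
    ∀ r, R.par r c → R.node r → R.row r → ∃ w, Lev R d w ∧ ltv R d r w
  dumu : ∀ z z' c, R.dum z → R.dum z' → R.par z c → R.par z' c → z = z'
  til : Til W (Rep d R) (ltv R d) (tl d R)

/-- codes of tilings -/
def Cond (d c0 : ℕ) (W : Wang Γ) (R : St Γ V) : Prop := Tree d c0 R ∧ Cells d W R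

end Pool.Agent.Helper29.TD
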