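import Pool.Agent.Helper29.TD.Paths
import Pool.Agent.Helper29.TD.Cond

/-!
# Block TD-U10: the paths in a short code are short

`adj_iff`: the symbols of arity one give no edges; `ord`, `par`, `att`: cases on the symbol and on the positions `i`, `j : Fin 2`.
`Tree.pathLe`.  Height: `h x = i + 1` for a node `x` of level `i ≤ d` (`node_lev`, `lev_uniq`; choose), `h x = 0` for dummies (and
apices), `h x = d + 2` for cells; so `par u x → h u < h x` (`par_kind`, `dis`) and `h ≤ d + 2`.  An edge between two elements which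
are not apices is `par` in one of the two directions: `ord` and `att` involve apices (`ord_apex`, `att_kind`).  So a run of consecutive
vertices of a path outside the set of the apices has at most `2 (d + 2) + 1` vertices (`forest_path`), and `windows` with
`B = {a | R.apex a}`, `m = 2 (d + 3)` gives the bound (`Nat.card {a // R.apex a} = B.ncard`).
-/

set_option autoImplicit false

namespace Pool.Agent.Helper29.TD

variable {Γ V : Type}

theorem adj_iff (R : St Γ V) (x y : V) : Adj R.toI x y ↔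
    x ≠ y ∧ (R.ord x y ∨ R.ord y x ∨ R.par x y ∨ R.par y x ∨ R.att x y ∨ R.att y x) := by
  constructor
  · rintro ⟨hne, s, v, hv, ⟨i, hi⟩, ⟨j, hj⟩⟩
    refine ⟨hne, ?_⟩
    have key : ∀ (w : Fin 2 → V) (P : V → V → Prop), P (w 0) (w 1) → (∃ i, w i = x) → (∃ j, w j = y) →
        P x y ∨ P y x := by
      rintro w P hw ⟨i, hi⟩ ⟨j, hj⟩
      fin_cases i <;> fin_cases j
      · exact absurd (hi.symm.trans hj) hne
      · left
        rw [← hi, ← hj]
        exact hw
      · right
        rw [← hi, ← hj]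
        exact hw
      · exact absurd (hi.symm.trans hj) hne
    have key1 : ∀ (w : Fin 1 → V), (∃ i, w i = x) → (∃ j, w j = y) → False := by
      rintro w ⟨i, hi⟩ ⟨j, hj⟩
      rw [Subsingleton.elim i j] at hi
      exact hne (hi.symm.trans hj)
    cases s with
    | ord =>
      rcases key v R.ord hv ⟨i, hi⟩ ⟨j, hj⟩ with h | h
      · exact Or.inl h
      · exact Or.inr (Or.inl h)
    | par =>
      rcases key v R.par hv ⟨i, hi⟩ ⟨j, hj⟩ with h | h
      · exact Or.inr (Or.inr (Or.inl h))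
      · exact Or.inr (Or.inr (Or.inr (Or.inl h)))
    | att =>
      rcases key v R.att hv ⟨i, hi⟩ ⟨j, hj⟩ with h | h
      · exact Or.inr (Or.inr (Or.inr (Or.inr (Or.inl h))))
      · exact Or.inr (Or.inr (Or.inr (Or.inr (Or.inr h))))
    | apex => exact (key1 v ⟨i, hi⟩ ⟨j, hj⟩).elim
    | cell => exact (key1 v ⟨i, hi⟩ ⟨j, hj⟩).elim
    | node => exact (key1 v ⟨i, hi⟩ ⟨j, hj⟩).elim
    | dum => exact (key1 v ⟨i, hi⟩ ⟨j, hj⟩).elim
    | bit => exact (key1 v ⟨i, hi⟩ ⟨j, hj⟩).elim
    | row => exact (key1 v ⟨i, hi⟩ ⟨j, hj⟩).elim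
    | tile γ => exact (key1 v ⟨i, hi⟩ ⟨j, hj⟩).elim
  · rintro ⟨hne, h⟩
    refine ⟨hne, ?_⟩
    rcases h with h | h | h | h | h | h
    · exact ⟨.ord, (![x, y] : Fin 2 → V), h, ⟨(0 : Fin 2), rfl⟩, ⟨(1 : Fin 2), rfl⟩⟩
    · exact ⟨.ord, (![y, x] : Fin 2 → V), h, ⟨(1 : Fin 2), rfl⟩, ⟨(0 : Fin 2), rfl⟩⟩
    · exact ⟨.par, (![x, y] : Fin 2 → V), h, ⟨(0 : Fin 2), rfl⟩, ⟨(1 : Fin 2), rfl⟩⟩
    · exact ⟨.par, (![y, x] : Fin 2 → V), h, ⟨(1 : Fin 2), rfl⟩, ⟨(0 : Fin 2), rfl⟩⟩
    · exact ⟨.att, (![x, y] : Fin 2 → V), h, ⟨(0 : Fin 2), rfl⟩, ⟨(1 : Fin 2), rfl⟩⟩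
    · exact ⟨.att, (![y, x] : Fin 2 → V), h, ⟨(1 : Fin 2), rfl⟩, ⟨(0 : Fin 2), rfl⟩⟩

private lemma h80_lev_node {R : St Γ V} {i : ℕ} {x : V} (h : Lev R i x) : R.node x := by
  cases i with
  | zero => exact h.1
  | succ i => exact h.1

theorem Tree.pathLe [Finite V] {d c0 : ℕ} {R : St Γ V} (h : Tree d c0 R) :
    PathLe R.toI ((Nat.card {a // R.apex a} + 1) * (2 * (d + 3) + 1)) := by
  classical
  let hf : V → ℕ := fun x => if R.cell x then d + 2 else
    if hx : R.node x then (h.node_lev x hx).choose + 1 else 0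
  have hlev : ∀ i x, i < d + 1 → Lev R i x → hf x = i + 1 := by
    intro i x hi hx
    have hn := h80_lev_node hx
    have hc : ¬ R.cell x := fun hc => (h.dis x).2.2.2.1 ⟨hc, hn⟩
    have h1 := (h.node_lev x hn).choose_spec
    have h2 : (h.node_lev x hn).choose = i := by
      by_contra hne
      exact h.lev_uniq _ h1.1 i hi hne x ⟨h1.2, hx⟩
    simp only [hf, if_neg hc, dif_pos hn, h2]
  have hcell : ∀ x, R.cell x → hf x = d + 2 := fun x hx => by
    simp only [hf, if_pos hx]
  have hdum : ∀ x, R.dum x → hf x = 0 := by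
    intro x hx
    have hc : ¬ R.cell x := fun hc => (h.dis x).2.2.2.2.1 ⟨hc, hx⟩
    have hn : ¬ R.node x := fun hn => (h.dis x).2.2.2.2.2 ⟨hn, hx⟩
    simp only [hf, if_neg hc, dif_neg hn]
  have hH : ∀ x, hf x ≤ d + 2 := by
    intro x
    by_cases hc : R.cell x
    · rw [hcell x hc]
    · by_cases hn : R.node x
      · obtain ⟨i, hi, hx⟩ := h.node_lev x hn
        rw [hlev i x hi hx]
        omega
      · simp only [hf, if_neg hc, dif_neg hn]
        omega
  have hh : ∀ u x, R.par u x → hf u < hf x := by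
    intro u x hux
    rcases h.par_kind u x hux with ⟨h1, h2⟩ | ⟨i, hi, h1, h2⟩ | ⟨h1, h2⟩
    · rw [hlev d u (by omega) h1, hcell x h2]
      omega
    · rw [hlev i u (by omega) h1, hlev (i + 1) x (by omega) h2]
      omega
    · rw [hdum u h1, hcell x h2]
      omega
  intro l p hp
  have hB : Set.ncard {a | R.apex a} = Nat.card {a // R.apex a} := rfl
  have hw := windows {a | R.apex a} (Set.toFinite _) (m := 2 * (d + 3)) p hp.1 (by
    intro a L haL hrun
    have hf1 := forest_path R.par h.par_uniq hf (d + 2) hh hH (L := L)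
      (fun i => p ⟨a + i.1, by have := i.2; omega⟩)
      (by
        intro i j hij
        have h1 := hp.1 hij
        have h2 := congrArg Fin.val h1
        simp only at h2
        exact Fin.ext (by omega))
      (by
        intro i j hij
        have hi := i.2
        have hj := j.2
        have hadj := hp.2 ⟨a + i.1, by omega⟩ ⟨a + j.1, by omega⟩ (by simp only; omega)
        have hi' := hrun ⟨a + i.1, by omega⟩ (by simp only; omega) (by simp only; omega)
        have hj' := hrun ⟨a + j.1, by omega⟩ (by simp only; omega) (by simp only; omega)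
        rw [adj_iff] at hadj
        rcases hadj.2 with h1 | h1 | h1 | h1 | h1 | h1
        · exact absurd (h.ord_apex _ _ h1).1 hi'
        · exact absurd (h.ord_apex _ _ h1).1 hj'
        · exact Or.inl h1
        · exact Or.inr h1
        · exact absurd (h.att_kind _ _ h1).2 hj'
        · exact absurd (h.att_kind _ _ h1).2 hi')
    omega)
  rw [hB] at hw
  exact hw

end Pool.Agent.Helper29.TD
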