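import Pool.Agent.Helper29.TD.Tame
import Pool.Agent.Helper29.TD.Decode
import Pool.Agent.Helper29.TD.Enc
import Pool.Agent.Helper29.TD.TreePath
import Pool.Agent.Helper29.TD.Thr
import Pool.Agent.Helper29.TD.DefC
import Pool.Agent.Helper29.TD.Red
import Pool.Agent.Helper20.OP.WildOf

/-!
# The threshold for the path length
-/

set_option autoImplicit false

namespace Pool.Agent.Helper29.TD

open FirstOrder FirstOrder.Language Pool.Agent.Helper20.Spectra Pool.Agent.Helper29.Prefix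
  Pool.Agent.Helper20.OP Filter

lemma PathLe.mono {S : Type} {ar : S → ℕ} {M : Type} {I : Interp S ar M} {w w' : ℕ} (h : w ≤ w')
    (hI : PathLe I w) : PathLe I w' := fun l p hp => (hI l p hp).trans h

/-- a short spectrum is a spectrum -/
lemma ShortSpectrum.isSpectrum {w : ℕ → ℕ} {A : Set ℕ} (h : ShortSpectrum w A) : IsSpectrum A := by
  obtain ⟨S, hS, ar, φ, -, h2⟩ := h
  refine ⟨RelLang S ar, inferInstance, inferInstance, φ, ?_⟩
  ext n
  rw [h2 n]
  constructor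
  · rintro ⟨hn, I, hI⟩
    exact ⟨hn, Fin n, mkS I, inferInstance, by simp, hI⟩
  · rintro ⟨hn, M, T, _, hc, hr⟩
    let e : M ≃ Fin n := (Fintype.equivFin M).trans (finCongr hc)
    let I : Interp S ar M := fun s v => T.RelMap (⟨s, rfl⟩ : (RelLang S ar).Relations (ar s)) v
    have h1 : Sat I φ := by
      have hT : T = mkS I := structure_eq T
      unfold Sat
      rw [← hT]
      exact hr
    exact ⟨hn, _, (Sat.iso I e φ).1 h1⟩

/-- the sizes of the codes -/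
def Sizes {Γ : Type} (d c0 : ℕ) (W : Wang Γ) : Set ℕ :=
  {n | ∃ N m, c0 ≤ (Nat.clog 2)^[d] N ∧ Tiles W N ∧ m < N ∧ n = Fs d N + m}

lemma le_Fs (d N : ℕ) : N ≤ Fs d N := by
  unfold Fs
  have h1 : N ≤ N ^ 2 := Nat.le_self_pow (by norm_num) N
  have h2 : N ^ 2 ≤ (1 + 2 * csz d N) * N ^ 2 := Nat.le_mul_of_pos_left _ (by omega)
  omega

theorem short_sizes {w : ℕ → ℕ} {d0 c0 : ℕ} (h2 : 2 ≤ c0)
    (hthr : ∀ N n : ℕ, c0 ≤ (Nat.clog 2)^[d0 + 2] N → (Nat.clog 2)^[d0 + 2] N ≤ n → N ≤ n →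
      ((Nat.clog 2)^[d0 + 2] N + 1) * (2 * (d0 + 2 + 3) + 1) ≤ w n) {Γ : Type} [Finite Γ]
    (W : Wang Γ) : ShortSpectrum w (Sizes (d0 + 2) c0 W) := by
  obtain ⟨φ, hφ⟩ := (def_cond (d0 + 2) c0 W).exists_sentence
  refine ⟨Sy Γ, inferInstance, Sy.ar, φ, ?_, ?_⟩
  · intro n I hn hI
    have hI' : Sat (St.ofI I).toI φ := by rw [St.toI_ofI]; exact hI
    have hC := (hφ _ _).1 hI'
    obtain ⟨N, m, h3, h4, h5, h6, -⟩ := hC.decode h2
    have h7 := hC.1.pathLe
    rw [St.toI_ofI, ← h4] at h7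
    rw [Nat.card_fin] at h6
    have h8 := le_Fs (d0 + 2) N
    refine h7.mono (hthr N n h3 ?_ (by omega))
    rw [h4]
    have := Finite.card_subtype_le (fun a => (St.ofI I).apex a)
    rwa [Nat.card_fin] at this
  · intro n
    constructor
    · rintro ⟨N, m, h3, h4, h5, rfl⟩
      obtain ⟨V, hV, R, hR, hc⟩ := encode W h2 h3 h5 h4
      have h8 := le_Fs (d0 + 2) N
      refine ⟨by omega, ?_⟩
      let e : V ≃ Fin (Fs (d0 + 2) N + m) := (Finite.equivFin V).trans (finCongr hc)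
      exact ⟨_, (Sat.iso R.toI e φ).1 ((hφ _ _).2 hR)⟩
    · rintro ⟨hn, I, hI⟩
      have hI' : Sat (St.ofI I).toI φ := by rw [St.toI_ofI]; exact hI
      have hC := (hφ _ _).1 hI'
      obtain ⟨N, m, h3, h4, h5, h6, h7⟩ := hC.decode h2
      rw [Nat.card_fin] at h6
      exact ⟨N, m, h3, h7, h5, h6⟩

/-- the trivial tiling system -/
def triv : Wang Unit := ⟨fun _ _ => True, fun _ _ => True, fun _ => True, fun _ => True,
  fun _ => True, fun _ => True, fun _ => True⟩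

lemma tiles_triv (N : ℕ) : Tiles triv N :=
  ⟨fun _ _ => (), fun _ _ _ _ => trivial, fun _ _ _ _ => trivial, fun _ _ => trivial,
    fun _ _ => trivial, fun _ _ => trivial, fun _ _ => trivial, trivial⟩

theorem wild (w : ℕ → ℕ) (hw : ∃ d, ∀ᶠ n in atTop, n ≤ E d (w n)) :
    (∀ A : Set ℕ, ShortSpectrum w A → IsRudimentary A) ↔
      ∀ A : Set ℕ, IsSpectrum A ↔ (IsRudimentary A ∧ 0 ∉ A) := by
  obtain ⟨d0, hd0⟩ := hw
  obtain ⟨c0, h2, hthr⟩ := thr w d0 hd0
  constructor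
  · intro hr A
    refine ⟨fun hA => ⟨?_, hA.zero_notMem⟩, fun hA => hA.1.isSpectrum hA.2⟩
    obtain ⟨Θ₀, hΘ₀⟩ := exists_universal_two
    obtain ⟨g, hg2, hg⟩ := hΘ₀ A hA
    have hS₁ := hr _ (short_sizes h2 hthr triv)
    have hS₂ := hr _ (short_sizes h2 hthr (blockWang Θ₀))
    have hred := red hS₁ hS₂ (Fs (d0 + 2)) (fun N => c0 ≤ (Nat.clog 2)^[d0 + 2] N)
      (fun N => Tiles (blockWang Θ₀) N)
      (Polynomial.X + (1 + 2 * (Polynomial.X + 1) ^ (d0 + 2)) * Polynomial.X ^ 2)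
      (Fs_gap (d0 + 2)) (fun N => by
        have := Fs_le (d0 + 2) N
        simpa using this)
      (fun n => by
        constructor
        · rintro ⟨N, m, h3, -, h5, h6⟩
          exact ⟨N, m, h3, h5, h6⟩
        · rintro ⟨N, m, h3, h5, h6⟩
          exact ⟨N, m, h3, tiles_triv N, h5, h6⟩)
      (fun n => Iff.rfl)
    obtain ⟨N1, hN1⟩ := le_clog_iter (d0 + 2) c0
    have hsq : IsRudimentary (squareSizes Θ₀) := by
      refine rud_of_eventually hred (N1 + 1) (fun n hn => ?_)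
      rw [mem_squareSizes_iff Θ₀ (by omega)]
      constructor
      · rintro ⟨-, -, h⟩
        exact h
      · intro h
        exact ⟨by omega, hN1 n (by omega), h⟩
    rw [hg]
    exact hsq.preimage g
  · intro hq A hA
    exact ((hq A).1 hA.isSpectrum).1

/-- the threshold for the path length -/
theorem threshold (w : ℕ → ℕ) :
    ((∃ d, ∀ᶠ n in atTop, n ≤ E d (w n)) →
      ((∀ A : Set ℕ, ShortSpectrum w A → IsRudimentary A) ↔
        ∀ A : Set ℕ, IsSpectrum A ↔ (IsRudimentary A ∧ 0 ∉ A))) ∧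
    ((∀ d, ∀ᶠ n in atTop, E d (w n) ≤ n) →
      ∀ A : Set ℕ, ShortSpectrum w A → UltPeriodic A ∧ ∃ L, ShortSpectrum (fun _ => L) A) :=
  ⟨wild w, tame w⟩

end Pool.Agent.Helper29.TD
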