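import Pool.Agent.Helper29.TD.BFUnion

/-!
# Block TD-A9: the pieces (components of the complement of a set of constants)

`comp I C v`: the vertices reachable from `v` by paths of the Gaifman graph avoiding `C` (`v ∉ C`).
`Adj.symm` is clear.  `comp_self`: `refl`.  `comp_not`: the last step ends outside `C`.  `comp_closed`: `tail`.  `comp_eq`: a path from
`v` to `y` avoiding `C` (also `v ∉ C`) can be reversed; transitivity.  `comp_sep`: if the two pieces meet in `z`, both are equal
to `comp I C z`.  If a tuple of a relation contains `x ∈ comp u` and `y ∈ comp v`, then `x = y` or `Adj I x y`, so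
`y ∈ comp u` (`y ∉ C`), and the two are equal.
`comp_sep_of_closed`: the piece `comp I C u` and a set `R` disjoint from it and from `C`.
`comp_insert`: `⊇`: `insert v C ⊇ C`, so steps avoiding `insert v C` avoid `C`, and `v → u` is a step.  `⊆`: induction on the
path from `v` to `y`: `y = v` is clear; for a step from `y` to `z`, `z ∉ C`: if `z = v`, clear; otherwise if `y = v` then `z` is one of the
neighbours and `z ∈ comp (insert v C) z`; otherwise `y ∈ comp (insert v C) u` and so is `z`.
-/

set_option autoImplicit false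

namespace Pool.Agent.Helper29.TD

open Pool.Agent.Helper20.Spectra

variable {S : Type} {ar : S → ℕ} {M : Type} {I : Interp S ar M}

/-- the vertices reachable from `v` outside `C` -/
def comp (I : Interp S ar M) (C : Set M) (v : M) : Set M :=
  {y | Relation.ReflTransGen (fun a b => Adj I a b ∧ b ∉ C) v y}

lemma Adj.symm {x y : M} (h : Adj I x y) : Adj I y x := by
  obtain ⟨h1, s, v, h2, h3, h4⟩ := h
  exact ⟨fun e => h1 e.symm, s, v, h2, h4, h3⟩

variable {C : Set M} {u v y z : M}

lemma comp_self : v ∈ comp I C v := Relation.ReflTransGen.refl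

lemma comp_not (hv : v ∉ C) (hy : y ∈ comp I C v) : y ∉ C := by
  unfold comp at hy
  rw [Set.mem_ofPred_eq] at hy
  cases hy with
  | refl => exact hv
  | tail _ h => exact h.2

lemma comp_closed (hy : y ∈ comp I C v) (h : Adj I y z) (hz : z ∉ C) : z ∈ comp I C v :=
  Relation.ReflTransGen.tail hy ⟨h, hz⟩

private lemma comp_rev31 (hv : v ∉ C) (hy : y ∈ comp I C v) : v ∈ comp I C y := by
  unfold comp at hy
  rw [Set.mem_ofPred_eq] at hy
  induction hy with
  | refl => exact comp_self
  | @tail b c hb hbc ih =>
    have hbC : b ∉ C := comp_not hv hb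
    exact Relation.ReflTransGen.head ⟨hbc.1.symm, hbC⟩ ih

lemma comp_eq (hv : v ∉ C) (hy : y ∈ comp I C v) : comp I C y = comp I C v := by
  ext x
  constructor
  · intro hx
    exact Relation.ReflTransGen.trans hy hx
  · intro hx
    exact Relation.ReflTransGen.trans (comp_rev31 hv hy) hx

lemma comp_sep_of_closed (hu : u ∉ C) {R : Set M} (hR : ∀ x ∈ R, x ∉ C ∧ x ∉ comp I C u) :
    Sep I (comp I C u) R := by
  refine ⟨fun x hx hxR => (hR x hxR).2 hx, ?_⟩
  rintro s w hw ⟨i, hi⟩ ⟨j, hj⟩
  by_cases h : w i = w j
  · rw [h] at hi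
    exact (hR _ hj).2 hi
  · exact (hR _ hj).2 (comp_closed hi ⟨h, s, w, hw, ⟨i, rfl⟩, ⟨j, rfl⟩⟩ (hR _ hj).1)

lemma comp_sep (hu : u ∉ C) (hv : v ∉ C) (h : comp I C u ≠ comp I C v) :
    Sep I (comp I C u) (comp I C v) := by
  refine comp_sep_of_closed hu fun x hx => ⟨comp_not hv hx, fun hx' => h ?_⟩
  rw [← comp_eq hu hx', comp_eq hv hx]

lemma comp_insert (hv : v ∉ C) :
    comp I C v = insert v (⋃ u ∈ {u | Adj I v u ∧ u ∉ C}, comp I (insert v C) u) := by
  ext y
  constructor
  · intro hy
    unfold comp at hy
    rw [Set.mem_ofPred_eq] at hy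
    induction hy with
    | refl => exact Set.mem_insert _ _
    | @tail b c hb hbc ih =>
      by_cases hcv : c = v
      · rw [hcv]; exact Set.mem_insert _ _
      · refine Set.mem_insert_of_mem _ ?_
        rcases ih with rfl | ih
        · exact Set.mem_biUnion (show c ∈ {u | Adj I b u ∧ u ∉ C} from hbc) comp_self
        · simp only [Set.mem_iUnion] at ih ⊢
          obtain ⟨u, hu, hbu⟩ := ih
          refine ⟨u, hu, comp_closed hbu hbc.1 ?_⟩
          rintro (h | h)
          · exact hcv h
          · exact hbc.2 h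
  · rintro (rfl | hy)
    · exact comp_self
    · simp only [Set.mem_iUnion] at hy
      obtain ⟨u, hu, hyu⟩ := hy
      refine Relation.ReflTransGen.head ⟨hu.1, hu.2⟩ ?_
      have hyu2 : Relation.ReflTransGen (fun a b => Adj I a b ∧ b ∉ insert v C) u y := hyu
      clear hyu
      induction hyu2 with
      | refl => exact Relation.ReflTransGen.refl
      | tail _ hbc ih =>
        exact Relation.ReflTransGen.tail ih ⟨hbc.1, fun hb => hbc.2 (Set.mem_insert_of_mem _ hb)⟩

end Pool.Agent.Helper29.TD
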