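import Pool.Agent.Helper29.TD.BFBasic

/-!
# Block TD-A5: the game and first-order sentences

`BF.realize`: induction on the formula.  `falsum`: `q = 0`.  `equal`: the vocabulary has no function symbols and there
are no free variables of type `Empty`, so the terms are variables; use the first clause of `PIso` for the pairs
`(a i, c i)`, `(a j, c j)`.  `rel`: a relation symbol of arity `l` is `⟨s, h⟩` with `h : ar s = l`, `subst h`, the terms are
variables, second clause of `PIso`.  `imp`: the maximum, `BF.mono`.  `all`: `q + 1`; for `x : X` choose `y ∈ Y`; the set of the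
pairs of `Fin.snoc a x`, `Fin.snoc c y` is `insert (x, y) (prs a c)`.
(Compare `Pool/Agent/Helper20/OP/EF.lean`, `EFq.realize`, which is proved and similar, for binary relations.)
`BF.sat`: the case of sentences, `prs` of empty tuples is `∅`.
`Sat.iso`: by induction on formulas or with Mathlib's `FirstOrder.Language.Equiv` (compare `Def0.iso` in
`Pool/Agent/Helper20/OP/Interp.lean` and `FD.transport` in `Pool/Agent/Helper20/Spectra/FD.lean`).
`Sat.univ`: from `Sat.iso` and `Equiv.Set.univ`.
-/

set_option autoImplicit false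

namespace Pool.Agent.Helper29.TD

open FirstOrder FirstOrder.Language Pool.Agent.Helper20.Spectra

variable {S : Type} {ar : S → ℕ}

private lemma term_var40 {m : ℕ} (t : (RelLang S ar).Term (Empty ⊕ Fin m)) :
    ∃ i : Fin m, t = Term.var (Sum.inr i) := by
  cases t with
  | var v =>
    rcases v with v | v
    · exact v.elim
    · exact ⟨v, rfl⟩
  | func f _ => exact f.elim

private lemma prs_snoc40 {M N : Type} {m : ℕ} (a : Fin m → M) (c : Fin m → N) (x : M) (y : N) :
    prs (Fin.snoc a x : Fin (m + 1) → M) (Fin.snoc c y : Fin (m + 1) → N) =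
      insert (x, y) (prs a c) := by
  ext p
  constructor
  · rintro ⟨i, rfl⟩
    induction i using Fin.lastCases with
    | last =>
      left
      rw [Fin.snoc_last, Fin.snoc_last]
    | cast i =>
      right
      exact ⟨i, by rw [Fin.snoc_castSucc, Fin.snoc_castSucc]⟩
  · rintro (rfl | ⟨i, rfl⟩)
    · exact ⟨Fin.last m, by rw [Fin.snoc_last, Fin.snoc_last]⟩
    · exact ⟨i.castSucc, by rw [Fin.snoc_castSucc, Fin.snoc_castSucc]⟩

private lemma val_snoc40 {M : Type} {X : Set M} {m : ℕ} (a : Fin m → X) (x : X) :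
    (fun i => ((Fin.snoc a x : Fin (m + 1) → X) i : M)) =
      (Fin.snoc (fun i => (a i : M)) (x : M) : Fin (m + 1) → M) := by
  funext i
  induction i using Fin.lastCases with
  | last => rw [Fin.snoc_last, Fin.snoc_last]
  | cast i => rw [Fin.snoc_castSucc, Fin.snoc_castSucc]

theorem BF.realize {m : ℕ} (φ : (RelLang S ar).BoundedFormula Empty m) :
    ∃ q : ℕ, ∀ (M N : Type) (I : Interp S ar M) (J : Interp S ar N) (X : Set M) (Y : Set N)
      (a : Fin m → X) (c : Fin m → Y),
      BF I J X Y q (prs (fun i => (a i : M)) (fun i => (c i : N))) →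
      (@BoundedFormula.Realize _ X (mkS (restr I X)) _ _ φ default a ↔
        @BoundedFormula.Realize _ Y (mkS (restr J Y)) _ _ φ default c) := by
  induction φ with
  | falsum => exact ⟨0, fun M N I J X Y a c _ => Iff.rfl⟩
  | equal t₁ t₂ =>
    obtain ⟨i, rfl⟩ := term_var40 t₁
    obtain ⟨j, rfl⟩ := term_var40 t₂
    refine ⟨0, fun M N I J X Y a c h => ?_⟩
    have h1 := h.1 (a i, c i) ⟨i, rfl⟩ (a j, c j) ⟨j, rfl⟩
    change a i = a j ↔ c i = c j
    rw [Subtype.ext_iff, Subtype.ext_iff]
    exact h1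
  | @rel m l ρ ts =>
    obtain ⟨s, hs⟩ := ρ
    subst hs
    have hts : ∀ k, ∃ i : Fin m, ts k = Term.var (Sum.inr i) := fun k => term_var40 (ts k)
    choose f hf using hts
    refine ⟨0, fun M N I J X Y a c h => ?_⟩
    have h2 := h.2 s (fun k => ((a (f k) : M), (c (f k) : N))) (fun k => ⟨f k, rfl⟩)
    have e1 : ∀ k, @Term.realize _ X (mkS (restr I X)) _ (Sum.elim default a) (ts k) = a (f k) := by
      intro k
      rw [hf k]
      rfl
    have e2 : ∀ k, @Term.realize _ Y (mkS (restr J Y)) _ (Sum.elim default c) (ts k) = c (f k) := by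
      intro k
      rw [hf k]
      rfl
    change I s (fun k => ((@Term.realize _ X (mkS (restr I X)) _ (Sum.elim default a) (ts k) : X)
        : M)) ↔
      J s (fun k => ((@Term.realize _ Y (mkS (restr J Y)) _ (Sum.elim default c) (ts k) : Y) : N))
    simp only [e1, e2]
    exact h2
  | imp φ ψ ih₁ ih₂ =>
    obtain ⟨q₁, h₁⟩ := ih₁
    obtain ⟨q₂, h₂⟩ := ih₂
    refine ⟨max q₁ q₂, fun M N I J X Y a c h => ?_⟩
    have h3 := h₁ M N I J X Y a c (BF.mono (le_max_left _ _) h)
    have h4 := h₂ M N I J X Y a c (BF.mono (le_max_right _ _) h)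
    exact imp_congr h3 h4
  | all φ ih =>
    obtain ⟨q, hq⟩ := ih
    refine ⟨q + 1, fun M N I J X Y a c h => ⟨fun h1 y => ?_, fun h1 x => ?_⟩⟩
    · obtain ⟨x, hx, hxy⟩ := h.2.2 y y.2
      refine (hq M N I J X Y (Fin.snoc a ⟨x, hx⟩) (Fin.snoc c y) ?_).1 (h1 ⟨x, hx⟩)
      rw [val_snoc40, val_snoc40, prs_snoc40]
      exact hxy
    · obtain ⟨y, hy, hxy⟩ := h.2.1 x x.2
      refine (hq M N I J X Y (Fin.snoc a x) (Fin.snoc c ⟨y, hy⟩) ?_).2 (h1 ⟨y, hy⟩)
      rw [val_snoc40, val_snoc40, prs_snoc40]
      exact hxy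

theorem BF.sat (φ : (RelLang S ar).Sentence) :
    ∃ q : ℕ, ∀ (M N : Type) (I : Interp S ar M) (J : Interp S ar N) (X : Set M) (Y : Set N),
      BF I J X Y q ∅ → (Sat (restr I X) φ ↔ Sat (restr J Y) φ) := by
  obtain ⟨q, hq⟩ := BF.realize φ
  refine ⟨q, fun M N I J X Y h => ?_⟩
  refine hq M N I J X Y default default ?_
  have h1 : prs (fun i : Fin 0 => ((default : Fin 0 → X) i : M))
      (fun i : Fin 0 => ((default : Fin 0 → Y) i : N)) = ∅ := by
    rw [Set.eq_empty_iff_forall_notMem]
    rintro p ⟨i, -⟩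
    exact i.elim0
  rw [h1]
  exact h

theorem Sat.iso {M N : Type} (I : Interp S ar M) (e : M ≃ N) (φ : (RelLang S ar).Sentence) :
    Sat I φ ↔ Sat (fun s v => I s (fun i => e.symm (v i)) : Interp S ar N) φ := by
  let _ := mkS I
  let _ := mkS (fun s (w : Fin (ar s) → N) => I s (fun i => e.symm (w i)))
  let E : M ≃[RelLang S ar] N :=
    { e with
      map_fun' := fun f => Empty.elim f
      map_rel' := by
        intro n r x
        obtain ⟨s, hs⟩ := r
        subst hs
        change I s (fun i => e.symm (e (x i))) ↔ I s (fun i => x i)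
        simp only [e.symm_apply_apply] }
  exact (StrongHomClass.realize_sentence E φ)

theorem Sat.univ {M : Type} (I : Interp S ar M) (φ : (RelLang S ar).Sentence) :
    Sat (restr I Set.univ) φ ↔ Sat I φ := by
  rw [Sat.iso (restr I Set.univ) (Equiv.Set.univ M) φ]
  exact Iff.rfl

end Pool.Agent.Helper29.TD
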