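import Pool.Agent.Helper29.TD.Defs

/-!
# Back-and-forth equivalence relative to subsets and sets of pairs: definitions

`BF I J X Y q P`: the duplicator wins the `q` round game on `(M, I)` and `(N, J)` in which all moves are in
`X ⊆ M` and `Y ⊆ N`, and the pairs `P` (a set of pairs) have been chosen before.
-/

set_option autoImplicit false

namespace Pool.Agent.Helper29.TD

open Pool.Agent.Helper20.Spectra

variable {S : Type} {ar : S → ℕ} {M N : Type}

/-- the set of pairs `P` is a partial isomorphism -/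
def PIso (I : Interp S ar M) (J : Interp S ar N) (P : Set (M × N)) : Prop :=
  (∀ p ∈ P, ∀ p' ∈ P, p.1 = p'.1 ↔ p.2 = p'.2) ∧
  ∀ (s : S) (v : Fin (ar s) → M × N), (∀ i, v i ∈ P) →
    (I s (fun i => (v i).1) ↔ J s (fun i => (v i).2))

/-- the `q` round game -/
def BF (I : Interp S ar M) (J : Interp S ar N) (X : Set M) (Y : Set N) :
    ℕ → Set (M × N) → Prop
  | 0, P => PIso I J P
  | q + 1, P => PIso I J P ∧ (∀ x ∈ X, ∃ y ∈ Y, BF I J X Y q (insert (x, y) P)) ∧
      ∀ y ∈ Y, ∃ x ∈ X, BF I J X Y q (insert (x, y) P)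

/-- `A` and `B` are disjoint and no tuple of a relation meets both of them -/
def Sep (I : Interp S ar M) (A B : Set M) : Prop :=
  (∀ x ∈ A, x ∉ B) ∧ ∀ (s : S) (v : Fin (ar s) → M), I s v → (∃ i, v i ∈ A) → (∃ j, v j ∈ B) → False

/-- the pairs `(c i, e i)` -/
def prs {k : ℕ} (c : Fin k → M) (e : Fin k → N) : Set (M × N) := {p | ∃ i, p = (c i, e i)}

/-- the substructure on `X` -/
def restr (I : Interp S ar M) (X : Set M) : Interp S ar X := fun s v => I s (fun i => (v i : M))

/-- the types of rank `q` of `k` elements -/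
def Ty (S : Type) (ar : S → ℕ) : ℕ → ℕ → Type
  | 0, k => (Fin k → Fin k → Prop) × ∀ s : S, (Fin (ar s) → Fin k) → Prop
  | q + 1, k => ((Fin k → Fin k → Prop) × ∀ s : S, (Fin (ar s) → Fin k) → Prop) × Set (Ty S ar q (k + 1))

/-- the type of rank `q` of the tuple `c`, with moves in `X` -/
def tp (I : Interp S ar M) (X : Set M) : ∀ (q : ℕ) {k : ℕ}, (Fin k → M) → Ty S ar q k
  | 0, _, c => (fun i j => c i = c j, fun s f => I s (fun i => c (f i)))
  | q + 1, _, c => ((fun i j => c i = c j, fun s f => I s (fun i => c (f i))),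
      {t | ∃ x ∈ X, tp I X q (Fin.snoc c x) = t})

end Pool.Agent.Helper29.TD
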