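import Pool.Agent.Helper29.TD.BFBasic

/-!
# Block TD-A2: composition over constants

`P0` are the constants; `P₁ ⊆ P0 ∪ A₁ × B₁`, `P₂ ⊆ P0 ∪ A₂ × B₂`.  `BF.union`: induction on `q` for all `P₁`, `P₂`.
`PIso` of `P₁ ∪ P₂`.  Equality, `p ∈ P₁`, `p' ∈ P₂`: if one of them is in `P0` both are in one of the two sets; otherwise
`p ∈ A₁ × B₁`, `p' ∈ A₂ × B₂`, and both sides are false by `Sep`.  Relations: if all entries of `v` are in `P₁` or all
are in `P₂`, clear.  Otherwise some `v i` is in `P₂` and not in `P₁`, so (as `P0 ⊆ P₁`) it is in `A₂ × B₂`, and some `v j` is in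
`A₁ × B₁`; then both sides are false by `Sep`.
Step: a move `x ∈ A₁` is answered in `B₁` by the strategy for `(A₁, B₁)`: `insert (x, y) (P₁ ∪ P₂) = (insert (x, y) P₁) ∪ P₂`, and
the second game is used with `BF.mono`.  The other three cases are symmetric.
-/

set_option autoImplicit false

namespace Pool.Agent.Helper29.TD

open Pool.Agent.Helper20.Spectra

variable {S : Type} {ar : S → ℕ} {M N : Type} {I : Interp S ar M} {J : Interp S ar N}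

lemma Sep.symm {A B : Set M} (h : Sep I A B) : Sep I B A := by
  exact ⟨fun x hx ha => h.1 x ha hx, fun s v hI hB hA => h.2 s v hI hA hB⟩

lemma Sep.biUnion {ι : Type} {A : Set M} {B : ι → Set M} {s : Finset ι} (h : ∀ i ∈ s, Sep I A (B i)) :
    Sep I A (⋃ i ∈ s, B i) := by
  refine ⟨fun x hx hB => ?_, fun s v hI hA hB => ?_⟩
  · rw [Set.mem_iUnion₂] at hB
    obtain ⟨i, hi, hxi⟩ := hB
    exact (h i hi).1 x hx hxi
  · obtain ⟨j, hj⟩ := hB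
    rw [Set.mem_iUnion₂] at hj
    obtain ⟨i, hi, hji⟩ := hj
    exact (h i hi).2 s v hI hA ⟨j, hji⟩

theorem BF.union {P0 : Set (M × N)} {A₁ A₂ : Set M} {B₁ B₂ : Set N} (hA : Sep I A₁ A₂)
    (hB : Sep J B₁ B₂) (h0 : ∀ p ∈ P0, p.1 ∉ A₁ ∧ p.1 ∉ A₂ ∧ p.2 ∉ B₁ ∧ p.2 ∉ B₂) (q : ℕ) :
    ∀ {P₁ P₂ : Set (M × N)}, P0 ⊆ P₁ → P0 ⊆ P₂ → P₁ ⊆ P0 ∪ A₁ ×ˢ B₁ → P₂ ⊆ P0 ∪ A₂ ×ˢ B₂ →
      BF I J A₁ B₁ q P₁ → BF I J A₂ B₂ q P₂ → BF I J (A₁ ∪ A₂) (B₁ ∪ B₂) q (P₁ ∪ P₂) := by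
  have hiso : ∀ {P₁ P₂ : Set (M × N)}, P0 ⊆ P₁ → P0 ⊆ P₂ → P₁ ⊆ P0 ∪ A₁ ×ˢ B₁ →
      P₂ ⊆ P0 ∪ A₂ ×ˢ B₂ → PIso I J P₁ → PIso I J P₂ → PIso I J (P₁ ∪ P₂) := by
    intro P₁ P₂ h01 h02 h1 h2 i1 i2
    have hcross : ∀ p ∈ P₁, ∀ p' ∈ P₂, (p.1 = p'.1 ↔ p.2 = p'.2) := by
      intro p hp p' hp'
      rcases h1 hp with h3 | h3
      · exact i2.1 p (h02 h3) p' hp'
      · rcases h2 hp' with h4 | h4
        · exact i1.1 p hp p' (h01 h4)
        · refine iff_of_false (fun e => ?_) (fun e => ?_)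
          · exact hA.1 p.1 h3.1 (by rw [e]; exact h4.1)
          · exact hB.1 p.2 h3.2 (by rw [e]; exact h4.2)
    refine ⟨?_, ?_⟩
    · rintro p (hp | hp) p' (hp' | hp')
      · exact i1.1 p hp p' hp'
      · exact hcross p hp p' hp'
      · have := hcross p' hp' p hp
        exact ⟨fun e => (this.1 e.symm).symm, fun e => (this.2 e.symm).symm⟩
      · exact i2.1 p hp p' hp'
    · intro s v hv
      by_cases c1 : ∀ i, v i ∈ P₁
      · exact i1.2 s v c1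
      by_cases c2 : ∀ i, v i ∈ P₂
      · exact i2.2 s v c2
      push Not at c1 c2
      obtain ⟨i, hi⟩ := c1
      obtain ⟨j, hj⟩ := c2
      have hi' : v i ∈ A₂ ×ˢ B₂ :=
        (h2 ((hv i).resolve_left hi)).resolve_left (fun h => hi (h01 h))
      have hj' : v j ∈ A₁ ×ˢ B₁ :=
        (h1 ((hv j).resolve_right hj)).resolve_left (fun h => hj (h02 h))
      exact iff_of_false (fun hI => hA.2 s _ hI ⟨j, hj'.1⟩ ⟨i, hi'.1⟩)
        (fun hJ => hB.2 s _ hJ ⟨j, hj'.2⟩ ⟨i, hi'.2⟩)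
  induction q with
  | zero =>
    intro P₁ P₂ h01 h02 h1 h2 b1 b2
    exact hiso h01 h02 h1 h2 b1 b2
  | succ q ih =>
    intro P₁ P₂ h01 h02 h1 h2 b1 b2
    refine ⟨hiso h01 h02 h1 h2 b1.piso b2.piso, ?_, ?_⟩
    · rintro x (hx | hx)
      · obtain ⟨y, hy, hb⟩ := b1.2.1 x hx
        refine ⟨y, Or.inl hy, ?_⟩
        have h3 := ih (P₁ := insert (x, y) P₁) (P₂ := P₂) (h01.trans (Set.subset_insert _ _)) h02
          (Set.insert_subset (Or.inr ⟨hx, hy⟩) h1) h2 hb (b2.mono (Nat.le_succ q))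
        rwa [Set.insert_union] at h3
      · obtain ⟨y, hy, hb⟩ := b2.2.1 x hx
        refine ⟨y, Or.inr hy, ?_⟩
        have h3 := ih (P₁ := P₁) (P₂ := insert (x, y) P₂) h01 (h02.trans (Set.subset_insert _ _))
          h1 (Set.insert_subset (Or.inr ⟨hx, hy⟩) h2) (b1.mono (Nat.le_succ q)) hb
        rwa [Set.union_insert] at h3
    · rintro y (hy | hy)
      · obtain ⟨x, hx, hb⟩ := b1.2.2 y hy
        refine ⟨x, Or.inl hx, ?_⟩
        have h3 := ih (P₁ := insert (x, y) P₁) (P₂ := P₂) (h01.trans (Set.subset_insert _ _)) h02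
          (Set.insert_subset (Or.inr ⟨hx, hy⟩) h1) h2 hb (b2.mono (Nat.le_succ q))
        rwa [Set.insert_union] at h3
      · obtain ⟨x, hx, hb⟩ := b2.2.2 y hy
        refine ⟨x, Or.inr hx, ?_⟩
        have h3 := ih (P₁ := P₁) (P₂ := insert (x, y) P₂) h01 (h02.trans (Set.subset_insert _ _))
          h1 (Set.insert_subset (Or.inr ⟨hx, hy⟩) h2) (b1.mono (Nat.le_succ q)) hb
        rwa [Set.union_insert] at h3

end Pool.Agent.Helper29.TD
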