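import Pool.Agent.Helper29.TD.BFUnion

/-!
# Block TD-A3: families of pieces

`BF.same`: induction on the finset `s` (`Finset.induction_on`): for the empty set `BF I J ∅ ∅ q P0` follows from `hP`
(no moves); step: `BF.union` with `A₁ = A i`, `A₂ = ⋃ j ∈ s, A j`, `P₁ = P₂ = P0`, `Sep.biUnion`.
`BF.copies`: induction on `q`, for all `s`, `t`.  `q = 0`: `hP`.  Step `q + 1`: a move `x ∈ A i`, `i ∈ s`; choose any `j ∈ t` (`t` is
not empty) and let `y ∈ B j` be the answer to `x` of the game `BF (q + 1) (A i) (B j) P0`, so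
`BF q (A i) (B j) (insert (x, y) P0)`.  By the induction hypothesis for `s.erase i`, `t.erase j` (cardinalities `≥ q`; the
hypotheses with `BF.mono`) `BF q (⋃ s.erase i) (⋃ t.erase j) P0`; apply `BF.union` with `P₁ = insert (x, y) P0`, `P₂ = P0`;
`⋃ i' ∈ s, A i' = A i ∪ ⋃ i' ∈ s.erase i, A i'`.  Moves in `B` are symmetric.
-/

set_option autoImplicit false

namespace Pool.Agent.Helper29.TD

open Pool.Agent.Helper20.Spectra

variable {S : Type} {ar : S → ℕ} {M N : Type} {I : Interp S ar M} {J : Interp S ar N}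

private theorem h42_empty {P0 : Set (M × N)} (hP : PIso I J P0) :
    ∀ q : ℕ, BF I J (∅ : Set M) (∅ : Set N) q P0
  | 0 => hP
  | _ + 1 => ⟨hP, fun x hx => absurd hx (Set.notMem_empty x), fun y hy => absurd hy (Set.notMem_empty y)⟩

theorem BF.same {ι : Type} (A : ι → Set M) (B : ι → Set N) (s : Finset ι) {P0 : Set (M × N)}
    (hA : ∀ i ∈ s, ∀ j ∈ s, i ≠ j → Sep I (A i) (A j))
    (hB : ∀ i ∈ s, ∀ j ∈ s, i ≠ j → Sep J (B i) (B j))
    (h0 : ∀ p ∈ P0, ∀ i ∈ s, p.1 ∉ A i ∧ p.2 ∉ B i) (hP : PIso I J P0) (q : ℕ)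
    (h : ∀ i ∈ s, BF I J (A i) (B i) q P0) :
    BF I J (⋃ i ∈ s, A i) (⋃ i ∈ s, B i) q P0 := by
  classical
  induction s using Finset.induction_on with
  | empty =>
    simp only [Finset.notMem_empty, Set.iUnion_of_empty, Set.iUnion_empty]
    exact h42_empty hP q
  | insert a s ha ih =>
    have ih' := ih (fun i hi j hj => hA i (Finset.mem_insert_of_mem hi) j (Finset.mem_insert_of_mem hj))
      (fun i hi j hj => hB i (Finset.mem_insert_of_mem hi) j (Finset.mem_insert_of_mem hj))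
      (fun p hp i hi => h0 p hp i (Finset.mem_insert_of_mem hi))
      (fun i hi => h i (Finset.mem_insert_of_mem hi))
    have ha' : a ∈ insert a s := Finset.mem_insert_self a s
    have hsA : Sep I (A a) (⋃ i ∈ s, A i) := Sep.biUnion fun i hi =>
      hA a ha' i (Finset.mem_insert_of_mem hi) (fun h' => ha (h' ▸ hi))
    have hsB : Sep J (B a) (⋃ i ∈ s, B i) := Sep.biUnion fun i hi =>
      hB a ha' i (Finset.mem_insert_of_mem hi) (fun h' => ha (h' ▸ hi))
    have h0' : ∀ p ∈ P0, p.1 ∉ A a ∧ p.1 ∉ (⋃ i ∈ s, A i) ∧ p.2 ∉ B a ∧ p.2 ∉ (⋃ i ∈ s, B i) := by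
      intro p hp
      refine ⟨(h0 p hp a ha').1, ?_, (h0 p hp a ha').2, ?_⟩
      · simp only [Set.mem_iUnion, not_exists]
        exact fun i hi => (h0 p hp i (Finset.mem_insert_of_mem hi)).1
      · simp only [Set.mem_iUnion, not_exists]
        exact fun i hi => (h0 p hp i (Finset.mem_insert_of_mem hi)).2
    have hu := BF.union hsA hsB h0' q (P₁ := P0) (P₂ := P0) le_rfl le_rfl
      Set.subset_union_left Set.subset_union_left (h a ha') ih'
    rw [Set.union_self] at hu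
    rw [Finset.set_biUnion_insert, Finset.set_biUnion_insert]
    exact hu

private theorem h42_step {ι κ : Type} [DecidableEq ι] [DecidableEq κ] (A : ι → Set M)
    (B : κ → Set N) {P0 : Set (M × N)} {q : ℕ} {s : Finset ι} {t : Finset κ}
    (hA : ∀ i ∈ s, ∀ j ∈ s, i ≠ j → Sep I (A i) (A j))
    (hB : ∀ i ∈ t, ∀ j ∈ t, i ≠ j → Sep J (B i) (B j))
    (h0 : ∀ p ∈ P0, (∀ i ∈ s, p.1 ∉ A i) ∧ ∀ j ∈ t, p.2 ∉ B j) {i : ι} {j : κ} (hi : i ∈ s)
    (hj : j ∈ t) {x : M} {y : N} (hx : x ∈ A i) (hy : y ∈ B j)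
    (h1 : BF I J (A i) (B j) q (insert (x, y) P0))
    (h2 : BF I J (⋃ i' ∈ s.erase i, A i') (⋃ j' ∈ t.erase j, B j') q P0) :
    BF I J (⋃ i ∈ s, A i) (⋃ j ∈ t, B j) q (insert (x, y) P0) := by
  have hsA : Sep I (A i) (⋃ i' ∈ s.erase i, A i') := Sep.biUnion fun i' hi' =>
    hA i hi i' (Finset.mem_of_mem_erase hi') (Finset.ne_of_mem_erase hi').symm
  have hsB : Sep J (B j) (⋃ j' ∈ t.erase j, B j') := Sep.biUnion fun j' hj' =>
    hB j hj j' (Finset.mem_of_mem_erase hj') (Finset.ne_of_mem_erase hj').symm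
  have h0' : ∀ p ∈ P0, p.1 ∉ A i ∧ p.1 ∉ (⋃ i' ∈ s.erase i, A i') ∧ p.2 ∉ B j ∧
      p.2 ∉ (⋃ j' ∈ t.erase j, B j') := by
    intro p hp
    refine ⟨(h0 p hp).1 i hi, ?_, (h0 p hp).2 j hj, ?_⟩
    · simp only [Set.mem_iUnion, not_exists]
      exact fun i' hi' => (h0 p hp).1 i' (Finset.mem_of_mem_erase hi')
    · simp only [Set.mem_iUnion, not_exists]
      exact fun j' hj' => (h0 p hp).2 j' (Finset.mem_of_mem_erase hj')
  have hu := BF.union hsA hsB h0' q (P₁ := insert (x, y) P0) (P₂ := P0) (Set.subset_insert _ _)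
    le_rfl (by
      rintro p (rfl | hp)
      · exact Or.inr ⟨hx, hy⟩
      · exact Or.inl hp) Set.subset_union_left h1 h2
  have h3 : insert (x, y) P0 ∪ P0 = insert (x, y) P0 :=
    Set.union_eq_self_of_subset_right (Set.subset_insert _ _)
  rw [h3] at hu
  have h4 : (⋃ i' ∈ s, A i') = A i ∪ ⋃ i' ∈ s.erase i, A i' := by
    rw [← Finset.set_biUnion_insert, Finset.insert_erase hi]
  have h5 : (⋃ j' ∈ t, B j') = B j ∪ ⋃ j' ∈ t.erase j, B j' := by
    rw [← Finset.set_biUnion_insert, Finset.insert_erase hj]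
  rw [h4, h5]
  exact hu

theorem BF.copies {ι κ : Type} (A : ι → Set M) (B : κ → Set N) {P0 : Set (M × N)}
    (hP : PIso I J P0) : ∀ (q : ℕ) (s : Finset ι) (t : Finset κ),
    (∀ i ∈ s, ∀ j ∈ s, i ≠ j → Sep I (A i) (A j)) →
    (∀ i ∈ t, ∀ j ∈ t, i ≠ j → Sep J (B i) (B j)) →
    (∀ p ∈ P0, (∀ i ∈ s, p.1 ∉ A i) ∧ ∀ j ∈ t, p.2 ∉ B j) →
    (∀ i ∈ s, ∀ j ∈ t, BF I J (A i) (B j) q P0) → q ≤ s.card → q ≤ t.card →
    BF I J (⋃ i ∈ s, A i) (⋃ j ∈ t, B j) q P0 := by
  classical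
  intro q
  induction q with
  | zero =>
    intro s t _ _ _ _ _ _
    exact hP
  | succ q ih =>
    intro s t hA hB h0 h hs ht
    have hrest : ∀ i ∈ s, ∀ j ∈ t,
        BF I J (⋃ i' ∈ s.erase i, A i') (⋃ j' ∈ t.erase j, B j') q P0 := by
      intro i hi j hj
      refine ih (s.erase i) (t.erase j)
        (fun a ha b hb => hA a (Finset.mem_of_mem_erase ha) b (Finset.mem_of_mem_erase hb))
        (fun a ha b hb => hB a (Finset.mem_of_mem_erase ha) b (Finset.mem_of_mem_erase hb))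
        (fun p hp => ⟨fun a ha => (h0 p hp).1 a (Finset.mem_of_mem_erase ha),
          fun a ha => (h0 p hp).2 a (Finset.mem_of_mem_erase ha)⟩)
        (fun a ha b hb => (h a (Finset.mem_of_mem_erase ha) b (Finset.mem_of_mem_erase hb)).mono
          (Nat.le_succ q)) ?_ ?_
      · rw [Finset.card_erase_of_mem hi]
        omega
      · rw [Finset.card_erase_of_mem hj]
        omega
    refine ⟨hP, ?_, ?_⟩
    · intro x hx
      simp only [Set.mem_iUnion] at hx
      obtain ⟨i, hi, hx⟩ := hx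
      obtain ⟨j, hj⟩ : t.Nonempty := Finset.card_pos.1 (by omega)
      obtain ⟨y, hy, h1⟩ := (h i hi j hj).2.1 x hx
      refine ⟨y, Set.mem_biUnion hj hy, ?_⟩
      exact h42_step A B hA hB h0 hi hj hx hy h1 (hrest i hi j hj)
    · intro y hy
      simp only [Set.mem_iUnion] at hy
      obtain ⟨j, hj, hy⟩ := hy
      obtain ⟨i, hi⟩ : s.Nonempty := Finset.card_pos.1 (by omega)
      obtain ⟨x, hx, h1⟩ := (h i hi j hj).2.2 y hy
      refine ⟨x, Set.mem_biUnion hi hx, ?_⟩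
      exact h42_step A B hA hB h0 hi hj hx hy h1 (hrest i hi j hj)

end Pool.Agent.Helper29.TD
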