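import Pool.Agent.Helper29.TD.BFCopies

/-!
# Block TD-A4: families of pieces with types

The pieces `A i` (`i ∈ s`) and `B j` (`j ∈ t`) have types `τ i`, `σ j`; pieces of the same type are equivalent; each type
occurs equally often in both families or at least `q` times in both.  Then the unions are equivalent.
Proof.  By induction on a finset `Θ` of types (`Finset.induction_on`) prove the claim for the subfamilies
`s.filter (τ i ∈ Θ)`, `t.filter (σ j ∈ Θ)`; the empty case is clear from `hP`.  Step `insert θ Θ`: the union is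
`(⋃ of the pieces of type θ) ∪ (⋃ of the pieces with type in Θ)`, `BF.union` with `P₁ = P₂ = P0` and `Sep.biUnion` (twice,
with `Sep.symm`).  For the pieces of type `θ`: if both numbers are `≥ q` use `BF.copies`; if they are equal
choose a bijection (`Finset.equivOfCardEq`) and use `BF.same` with index type the subtype of the pieces of type `θ`
(and `Finset.univ`, or `Finset.attach`).  At the end `Θ = s.image τ ∪ t.image σ`.
-/

set_option autoImplicit false

namespace Pool.Agent.Helper29.TD

open Pool.Agent.Helper20.Spectra Classical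

variable {S : Type} {ar : S → ℕ} {M N : Type} {I : Interp S ar M} {J : Interp S ar N}

private lemma bf_empty77 {P0 : Set (M × N)} (hP : PIso I J P0) :
    ∀ q : ℕ, BF I J ∅ ∅ q P0
  | 0 => hP
  | _ + 1 => ⟨hP, fun x hx => (Set.notMem_empty x hx).elim, fun x hx => (Set.notMem_empty x hx).elim⟩

theorem BF.family {ι κ T : Type} (A : ι → Set M) (B : κ → Set N) (s : Finset ι) (t : Finset κ)
    (τ : ι → T) (σ : κ → T) {P0 : Set (M × N)}
    (hA : ∀ i ∈ s, ∀ j ∈ s, i ≠ j → Sep I (A i) (A j))
    (hB : ∀ i ∈ t, ∀ j ∈ t, i ≠ j → Sep J (B i) (B j))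
    (h0 : ∀ p ∈ P0, (∀ i ∈ s, p.1 ∉ A i) ∧ ∀ j ∈ t, p.2 ∉ B j) (hP : PIso I J P0) (q : ℕ)
    (hE : ∀ i ∈ s, ∀ j ∈ t, τ i = σ j → BF I J (A i) (B j) q P0)
    (hc : ∀ θ : T, (s.filter (fun i => τ i = θ)).card = (t.filter (fun j => σ j = θ)).card ∨
      (q ≤ (s.filter (fun i => τ i = θ)).card ∧ q ≤ (t.filter (fun j => σ j = θ)).card)) :
    BF I J (⋃ i ∈ s, A i) (⋃ j ∈ t, B j) q P0 := by
  have key : ∀ Θ : Finset T, BF I J (⋃ i ∈ s.filter (fun i => τ i ∈ Θ), A i)
      (⋃ j ∈ t.filter (fun j => σ j ∈ Θ), B j) q P0 := by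
    intro Θ
    induction Θ using Finset.induction_on with
    | empty =>
      have e1 : (⋃ i ∈ s.filter (fun i => τ i ∈ (∅ : Finset T)), A i) = ∅ := by simp
      have e2 : (⋃ j ∈ t.filter (fun j => σ j ∈ (∅ : Finset T)), B j) = ∅ := by simp
      rw [e1, e2]
      exact bf_empty77 hP q
    | insert θ Θ hθ ih =>
      have e1 : (⋃ i ∈ s.filter (fun i => τ i ∈ insert θ Θ), A i) =
          (⋃ i ∈ s.filter (fun i => τ i = θ), A i) ∪ ⋃ i ∈ s.filter (fun i => τ i ∈ Θ), A i := by
        ext x
        simp only [Set.mem_iUnion, Set.mem_union, Finset.mem_filter, Finset.mem_insert,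
          exists_prop]
        constructor
        · rintro ⟨i, ⟨hi, h | h⟩, hx⟩
          · exact Or.inl ⟨i, ⟨hi, h⟩, hx⟩
          · exact Or.inr ⟨i, ⟨hi, h⟩, hx⟩
        · rintro (⟨i, ⟨hi, h⟩, hx⟩ | ⟨i, ⟨hi, h⟩, hx⟩)
          · exact ⟨i, ⟨hi, Or.inl h⟩, hx⟩
          · exact ⟨i, ⟨hi, Or.inr h⟩, hx⟩
      have e2 : (⋃ j ∈ t.filter (fun j => σ j ∈ insert θ Θ), B j) =
          (⋃ j ∈ t.filter (fun j => σ j = θ), B j) ∪ ⋃ j ∈ t.filter (fun j => σ j ∈ Θ), B j := by
        ext x
        simp only [Set.mem_iUnion, Set.mem_union, Finset.mem_filter, Finset.mem_insert,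
          exists_prop]
        constructor
        · rintro ⟨i, ⟨hi, h | h⟩, hx⟩
          · exact Or.inl ⟨i, ⟨hi, h⟩, hx⟩
          · exact Or.inr ⟨i, ⟨hi, h⟩, hx⟩
        · rintro (⟨i, ⟨hi, h⟩, hx⟩ | ⟨i, ⟨hi, h⟩, hx⟩)
          · exact ⟨i, ⟨hi, Or.inl h⟩, hx⟩
          · exact ⟨i, ⟨hi, Or.inr h⟩, hx⟩
      have hsA : Sep I (⋃ i ∈ s.filter (fun i => τ i = θ), A i)
          (⋃ i ∈ s.filter (fun i => τ i ∈ Θ), A i) := by
        refine Sep.biUnion fun j hj => Sep.symm (Sep.biUnion fun i hi => ?_)
        rw [Finset.mem_filter] at hi hj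
        refine hA j hj.1 i hi.1 fun hji => hθ ?_
        rw [← hi.2, ← hji]
        exact hj.2
      have hsB : Sep J (⋃ j ∈ t.filter (fun j => σ j = θ), B j)
          (⋃ j ∈ t.filter (fun j => σ j ∈ Θ), B j) := by
        refine Sep.biUnion fun j hj => Sep.symm (Sep.biUnion fun i hi => ?_)
        rw [Finset.mem_filter] at hi hj
        refine hB j hj.1 i hi.1 fun hji => hθ ?_
        rw [← hi.2, ← hji]
        exact hj.2
      have hθp : BF I J (⋃ i ∈ s.filter (fun i => τ i = θ), A i)
          (⋃ j ∈ t.filter (fun j => σ j = θ), B j) q P0 := by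
        rcases hc θ with heq | ⟨hq1, hq2⟩
        · let e := Finset.equivOfCardEq heq
          have e3 : (⋃ i ∈ s.filter (fun i => τ i = θ), A i) =
              ⋃ i ∈ (Finset.univ : Finset {i // i ∈ s.filter (fun i => τ i = θ)}), A i.1 := by
            ext x
            simp only [Set.mem_iUnion, exists_prop]
            constructor
            · rintro ⟨i, hi, hx⟩
              exact ⟨⟨i, hi⟩, Finset.mem_univ _, hx⟩
            · rintro ⟨i, _, hx⟩
              exact ⟨i.1, i.2, hx⟩
          have e4 : (⋃ j ∈ t.filter (fun j => σ j = θ), B j) =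
              ⋃ i ∈ (Finset.univ : Finset {i // i ∈ s.filter (fun i => τ i = θ)}),
                B (e i).1 := by
            ext x
            simp only [Set.mem_iUnion, exists_prop]
            constructor
            · rintro ⟨j, hj, hx⟩
              refine ⟨e.symm ⟨j, hj⟩, Finset.mem_univ _, ?_⟩
              rw [Equiv.apply_symm_apply]
              exact hx
            · rintro ⟨i, _, hx⟩
              exact ⟨(e i).1, (e i).2, hx⟩
          rw [e3, e4]
          refine BF.same (fun i : {i // i ∈ s.filter (fun i => τ i = θ)} => A i.1)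
            (fun i => B (e i).1) Finset.univ ?_ ?_ ?_ hP q ?_
          · intro i _ j _ hij
            exact hA _ (Finset.mem_filter.1 i.2).1 _ (Finset.mem_filter.1 j.2).1
              fun h => hij (Subtype.ext h)
          · intro i _ j _ hij
            exact hB _ (Finset.mem_filter.1 (e i).2).1 _ (Finset.mem_filter.1 (e j).2).1
              fun h => hij (e.injective (Subtype.ext h))
          · intro p hp i _
            exact ⟨(h0 p hp).1 _ (Finset.mem_filter.1 i.2).1,
              (h0 p hp).2 _ (Finset.mem_filter.1 (e i).2).1⟩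
          · intro i _
            exact hE _ (Finset.mem_filter.1 i.2).1 _ (Finset.mem_filter.1 (e i).2).1
              ((Finset.mem_filter.1 i.2).2.trans (Finset.mem_filter.1 (e i).2).2.symm)
        · refine BF.copies A B hP q _ _ ?_ ?_ ?_ ?_ hq1 hq2
          · intro i hi j hj hij
            exact hA i (Finset.mem_filter.1 hi).1 j (Finset.mem_filter.1 hj).1 hij
          · intro i hi j hj hij
            exact hB i (Finset.mem_filter.1 hi).1 j (Finset.mem_filter.1 hj).1 hij
          · intro p hp
            exact ⟨fun i hi => (h0 p hp).1 i (Finset.mem_filter.1 hi).1,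
              fun j hj => (h0 p hp).2 j (Finset.mem_filter.1 hj).1⟩
          · intro i hi j hj
            exact hE i (Finset.mem_filter.1 hi).1 j (Finset.mem_filter.1 hj).1
              ((Finset.mem_filter.1 hi).2.trans (Finset.mem_filter.1 hj).2.symm)
      rw [e1, e2]
      have h := BF.union hsA hsB (P0 := P0) ?_ q (P₁ := P0) (P₂ := P0) subset_rfl subset_rfl
        Set.subset_union_left Set.subset_union_left hθp ih
      · rwa [Set.union_self] at h
      · intro p hp
        simp only [Set.mem_iUnion, Finset.mem_filter, exists_prop, not_exists, not_and]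
        exact ⟨fun i hi => (h0 p hp).1 i hi.1, fun i hi => (h0 p hp).1 i hi.1,
          fun j hj => (h0 p hp).2 j hj.1, fun j hj => (h0 p hp).2 j hj.1⟩
  have h := key (s.image τ ∪ t.image σ)
  have e1 : s.filter (fun i => τ i ∈ s.image τ ∪ t.image σ) = s :=
    Finset.filter_true_of_mem fun i hi =>
      Finset.mem_union_left _ (Finset.mem_image_of_mem τ hi)
  have e2 : t.filter (fun j => σ j ∈ s.image τ ∪ t.image σ) = t :=
    Finset.filter_true_of_mem fun j hj =>
      Finset.mem_union_right _ (Finset.mem_image_of_mem σ hj)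
  rwa [e1, e2] at h

end Pool.Agent.Helper29.TD
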