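import Mathlib

/-!
# Block TD-U1: binary numbers

`bin A` is the number with the set of one bits `A`.

`bin_inj`: Mathlib `Finset.geomSum_injective`.  `bin_lt`: Mathlib `Finset.geomSum_lt_geomSum_iff_toColex_lt_toColex` and
`Finset.Colex` lemmas, or directly: if the right hand side holds with `b`, split both sums into the parts `< b`, `= b`, `> b`:
the parts above `b` are equal, the part of `A` below `b` is `< 2 ^ b`; conversely if `A ≠ B` let `b` be the largest element of the
symmetric difference; `b ∈ A` would give `bin B < bin A` by the first part.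
`bin_succ`: let `b` be the least number which is not in `A`, and `B' = {b} ∪ {a ∈ A | b < a}`; then `bin B' = bin A + 1`
(`∑ a < b, 2 ^ a = 2 ^ b - 1`), so `bin B = bin A + 1` if and only if `B = B'` by `bin_inj`; the conditions on the right determine
`b` (the least number not in `A`) and say `B = B'`.
`bin_lt_two_pow`: `A ⊆ range n` and `∑ a ∈ range n, 2 ^ a = 2 ^ n - 1` (`Nat.geomSum_eq`, or induction).
`bin_testBit`: compare the bits, or induction on `n` (`Nat.testBit`, `Nat.div_add_mod`).
-/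

set_option autoImplicit false

namespace Pool.Agent.Helper29.TD

/-- the number with the set of one bits `A` -/
def bin (A : Finset ℕ) : ℕ := ∑ a ∈ A, 2 ^ a

lemma bin_inj (A B : Finset ℕ) : bin A = bin B ↔ A = B :=
  (Finset.geomSum_injective (le_refl 2)).eq_iff

lemma bin_lt_two_pow {A : Finset ℕ} {n : ℕ} (h : ∀ a ∈ A, a < n) : bin A < 2 ^ n :=
  Nat.geomSum_lt (le_refl 2) h

lemma two_pow_le_bin {A : Finset ℕ} {a : ℕ} (h : a ∈ A) : 2 ^ a ≤ bin A :=
  Finset.single_le_sum (f := fun a => 2 ^ a) (fun _ _ => Nat.zero_le _) h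

lemma bin_lt (A B : Finset ℕ) : bin A < bin B ↔
    ∃ b ∈ B, b ∉ A ∧ (∀ a ∈ A, b < a → a ∈ B) ∧ ∀ a ∈ B, b < a → a ∈ A := by
  unfold bin
  rw [Finset.geomSum_lt_geomSum_iff_toColex_lt_toColex (le_refl 2),
    Finset.Colex.lt_iff_exists_filter_lt]
  constructor
  · rintro ⟨b, hb, h⟩
    rw [Finset.mem_sdiff] at hb
    rw [Finset.ext_iff] at h
    simp only [Finset.mem_filter] at h
    exact ⟨b, hb.1, hb.2, fun a ha hab => ((h a).1 ⟨ha, hab⟩).1,
      fun a ha hab => ((h a).2 ⟨ha, hab⟩).1⟩
  · rintro ⟨b, hb, hb', h1, h2⟩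
    refine ⟨b, Finset.mem_sdiff.2 ⟨hb, hb'⟩, ?_⟩
    ext a
    simp only [Finset.mem_filter]
    exact ⟨fun h => ⟨h1 a h.1 h.2, h.2⟩, fun h => ⟨h2 a h.1 h.2, h.2⟩⟩

private lemma bin_split56 (A : Finset ℕ) (b : ℕ) :
    bin A = bin (A.filter (fun a => a < b)) + bin (A.filter (fun a => ¬ a < b)) :=
  (Finset.sum_filter_add_sum_filter_not A (fun a => a < b) (fun a => 2 ^ a)).symm

private lemma bin_range56 (b : ℕ) : bin (Finset.range b) + 1 = 2 ^ b := by
  unfold bin
  induction b with
  | zero => simp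
  | succ n ih =>
    rw [Finset.sum_range_succ, pow_succ]
    omega

private lemma bin_above56 {A B : Finset ℕ} {b : ℕ} (hb : b ∈ B) (hb' : b ∉ A)
    (h1 : ∀ a ∈ A, b < a → a ∈ B) (h2 : ∀ a ∈ B, b < a → a ∈ A) :
    bin (B.filter (fun a => ¬ a < b)) = 2 ^ b + bin (A.filter (fun a => ¬ a < b)) := by
  have h : B.filter (fun a => ¬ a < b) = insert b (A.filter (fun a => ¬ a < b)) := by
    ext a
    simp only [Finset.mem_filter, Finset.mem_insert, not_lt]
    constructor
    · rintro ⟨ha, hab⟩
      rcases eq_or_lt_of_le hab with h | h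
      · exact Or.inl h.symm
      · exact Or.inr ⟨h2 a ha h, hab⟩
    · rintro (rfl | ⟨ha, hab⟩)
      · exact ⟨hb, le_refl _⟩
      · rcases eq_or_lt_of_le hab with h | h
        · exact absurd (h ▸ ha) hb'
        · exact ⟨h1 a ha h, hab⟩
  rw [h]
  unfold bin
  rw [Finset.sum_insert]
  simp [hb']

lemma bin_succ (A B : Finset ℕ) : bin B = bin A + 1 ↔
    ∃ b ∈ B, b ∉ A ∧ (∀ a, a < b → a ∈ A) ∧ (∀ a, a < b → a ∉ B) ∧ (∀ a ∈ A, b < a → a ∈ B) ∧
      ∀ a ∈ B, b < a → a ∈ A := by
  constructor
  · intro h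
    obtain ⟨b, hb, hb', h1, h2⟩ := (bin_lt A B).1 (by omega)
    have e1 := bin_split56 A b
    have e2 := bin_split56 B b
    have e3 := bin_above56 hb hb' h1 h2
    have e4 : bin (A.filter (fun a => a < b)) < 2 ^ b :=
      bin_lt_two_pow fun a ha => (Finset.mem_filter.1 ha).2
    have e5 := bin_range56 b
    have e6 : bin (A.filter (fun a => a < b)) = bin (Finset.range b) := by omega
    have e7 : bin (B.filter (fun a => a < b)) = bin ∅ := by
      have e8 : bin ∅ = 0 := rfl
      omega
    rw [bin_inj] at e6 e7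
    refine ⟨b, hb, hb', fun a ha => ?_, fun a ha haB => ?_, h1, h2⟩
    · have h3 : a ∈ A.filter (fun a => a < b) := by
        rw [e6]
        exact Finset.mem_range.2 ha
      exact (Finset.mem_filter.1 h3).1
    · have h3 : a ∈ B.filter (fun a => a < b) := Finset.mem_filter.2 ⟨haB, ha⟩
      rw [e7] at h3
      exact absurd h3 (Finset.notMem_empty a)
  · rintro ⟨b, hb, hb', h3, h4, h1, h2⟩
    have e1 := bin_split56 A b
    have e2 := bin_split56 B b
    have e3 := bin_above56 hb hb' h1 h2
    have e5 := bin_range56 b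
    have e6 : A.filter (fun a => a < b) = Finset.range b := by
      ext a
      rw [Finset.mem_filter, Finset.mem_range]
      exact ⟨fun h => h.2, fun h => ⟨h3 a h, h⟩⟩
    have e7 : B.filter (fun a => a < b) = ∅ := by
      rw [Finset.filter_eq_empty_iff]
      exact fun a ha hab => h4 a hab ha
    have e8 : bin ∅ = 0 := rfl
    rw [e6] at e1
    rw [e7] at e2
    omega

lemma bin_testBit {n p : ℕ} (h : p < 2 ^ n) :
    bin ((Finset.range n).filter (fun m => p.testBit m = true)) = p := by
  have h1 : (Finset.range n).filter (fun m => p.testBit m = true) = p.bitIndices.toFinset := by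
    ext a
    rw [Finset.mem_filter, Finset.mem_range, List.mem_toFinset, Nat.mem_bitIndices]
    refine ⟨fun h => h.2, fun ha => ⟨?_, ha⟩⟩
    have h2 : 2 ^ a ≤ p := Nat.ge_two_pow_of_testBit ha
    exact (Nat.pow_lt_pow_iff_right (by norm_num)).1 (lt_of_le_of_lt h2 h)
  rw [h1]
  exact Finset.sum_toFinset_bitIndices_two_pow p

end Pool.Agent.Helper29.TD
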