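import Pool.Agent.Helper29.TD.Reps
import Pool.Agent.Helper20.OP.SqDec

/-!
# Block TD-U8: a short code is a square code

`own d R c`: the cell `c` and the nodes of its two codes.
`own_card`: the row code `r` and the column code `s` of `c` (`rowc`, `colc`; the nodes with parent `c` are `r` and `s`) are of level `d`,
`r ≠ s`, so `own d R c` is the disjoint union of `{c}`, `desc R d r`, `desc R d s` (`desc_uniq`; their elements are nodes by `desc_lev`, `c` is
not): `desc_card`.
`own_uniq`: `v ∈ own c`, `v ∈ own c'`: if `v` is a cell then `v = c = c'`; otherwise `v` is a node, `v ∈ desc R d z`, `v ∈ desc R d z'`, so `z = z'`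
and `c = c'` by `par_uniq`.
`own_ex`: a cell, or a node (`desc_cover`, `code_par`).
`Cond.sqCode`, field by field.  `irr`, `trans`, `lin`: `rep_lev`, `Vals.lt`, `rep_uniq`.  `big`: `K_two`, `rep_ex` for the values `0`, `1`.
`tot`, `hR`, ..., `hc`: the fields of `Til`.  `own`: apex or dummy: `Ex`; otherwise `own_ex` gives `c` with `v ∈ own c`; let `r`, `s` be the codes
of `c`, and `x`, `y` the representatives with the values of `r`, `s` (`rep_ex`): `CellOf d R c x y`.  `own₁`, `cnt₁`: the relation is empty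
(`Exactly 0`).  `own₂`: `v` is a cell or a node, so not in `Ex` (`dis`); if also `O₂ v x' y'` with the cell `c'`, then `c = c'` by
`own_uniq`, the row codes agree (`rowc`), so `x`, `x'` have the same value: `rep_uniq`; similarly `y = y'`.
`cnt₂`: for `x`, `y` representatives there is exactly one cell `c` with `CellOf c x y` (`pair`), so the set is `own c`: `own_card`,
`exactly_iff`.  `ext`: `exactly_iff`.
-/

set_option autoImplicit false

namespace Pool.Agent.Helper29.TD

open Pool.Agent.Helper29.Prefix Pool.Agent.Helper20.OP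

variable {Γ V : Type} {d c0 : ℕ} {W : Wang Γ} {R : St Γ V} {f : ℕ → V → ℕ} {K : ℕ → ℕ}

/-- the cell `c` and the nodes of its two codes -/
def own (d : ℕ) (R : St Γ V) (c : V) : Set V :=
  insert c {v | ∃ z, R.par z c ∧ R.node z ∧ v ∈ desc R d z}

/-- `v` belongs to the cell of `(x, y)` -/
def Ow (d : ℕ) (R : St Γ V) (v x y : V) : Prop :=
  Rep d R x ∧ Rep d R y ∧ ∃ c, CellOf d R c x y ∧ v ∈ own d R c

private lemma lev_node_h12 {i : ℕ} {x : V} (h : Lev R i x) : R.node x := by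
  cases i with
  | zero => exact h.1
  | succ i => exact h.1

private lemma not_cell_h12 (h : Tree d c0 R) {i : ℕ} (hi : i ≤ d) {x v : V} (hx : Lev R i x)
    (hv : v ∈ desc R i x) : R.node v := by
  obtain ⟨j, _, hj⟩ := desc_lev h i hi x hx v hv
  exact lev_node_h12 hj

lemma own_card [Finite V] (h : Cond d c0 W R) (hV : Vals d R f K) {c : V} (hc : R.cell c) :
    (own d R c).ncard = 1 + 2 * csz d (K d) := by
  obtain ⟨r, hrp, hrn, hrr, hru⟩ := h.2.rowc c hc
  obtain ⟨s, hsp, hsn, hsr, hsu⟩ := h.2.colc c hc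
  have lr := code_lev h.1 hrn hc hrp
  have ls := code_lev h.1 hsn hc hsp
  have e1 : own d R c = insert c (desc R d r ∪ desc R d s) := by
    ext v
    unfold own
    rw [Set.mem_insert_iff, Set.mem_insert_iff]
    apply or_congr Iff.rfl
    rw [Set.mem_setOf_eq, Set.mem_union]
    constructor
    · rintro ⟨z, hz1, hz2, hz3⟩
      by_cases hz : R.row z
      · left
        rw [← hru z hz1 hz2 hz]
        exact hz3
      · right
        rw [← hsu z hz1 hz2 hz]
        exact hz3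
    · rintro (hv | hv)
      · exact ⟨r, hrp, hrn, hv⟩
      · exact ⟨s, hsp, hsn, hv⟩
  have e2 : c ∉ desc R d r ∪ desc R d s := by
    rintro (hv | hv)
    · exact (h.1.dis c).2.2.2.1 ⟨hc, not_cell_h12 h.1 le_rfl lr hv⟩
    · exact (h.1.dis c).2.2.2.1 ⟨hc, not_cell_h12 h.1 le_rfl ls hv⟩
  have e3 : Disjoint (desc R d r) (desc R d s) := by
    rw [Set.disjoint_left]
    intro v hv hv'
    have e4 := desc_uniq h.1 d le_rfl r s v lr ls hv hv'
    rw [e4] at hrr
    exact hsr hrr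
  rw [e1, Set.ncard_insert_of_notMem e2, Set.ncard_union_eq e3,
    desc_card h.1 hV d le_rfl r lr, desc_card h.1 hV d le_rfl s ls]
  ring

lemma own_uniq (h : Cond d c0 W R) {c c' v : V} (hc : R.cell c) (hc' : R.cell c')
    (hv : v ∈ own d R c) (hv' : v ∈ own d R c') : c = c' := by
  have key : ∀ b b' : V, R.cell b → R.cell b' → b ∈ own d R b' → b = b' := by
    rintro b b' hb hb' (h1 | ⟨z, hz1, hz2, hz3⟩)
    · exact h1
    · exact absurd ⟨hb, not_cell_h12 h.1 le_rfl (code_lev h.1 hz2 hb' hz1) hz3⟩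
        (h.1.dis b).2.2.2.1
  rcases hv with h1 | ⟨z, hz1, hz2, hz3⟩
  · subst h1
    exact key v c' hc hc' hv'
  · rcases hv' with h1 | ⟨z', hz1', hz2', hz3'⟩
    · subst h1
      exact (key v c hc' hc (Or.inr ⟨z, hz1, hz2, hz3⟩)).symm
    · have e := desc_uniq h.1 d le_rfl z z' v (code_lev h.1 hz2 hc hz1)
        (code_lev h.1 hz2' hc' hz1') hz3 hz3'
      rw [← e] at hz1'
      exact h.1.par_uniq z c c' hz1 hz1'

lemma own_ex (h : Cond d c0 W R) {v : V} (hv : R.cell v ∨ R.node v) :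
    ∃ c, R.cell c ∧ v ∈ own d R c := by
  rcases hv with hv | hv
  · exact ⟨v, hv, Set.mem_insert v _⟩
  · obtain ⟨x, hx, hvx⟩ := desc_cover h.1 v hv
    obtain ⟨c, hc, hp⟩ := code_par h.1 hx
    exact ⟨c, hc, Or.inr ⟨x, hp, lev_node_h12 hx, hvx⟩⟩

theorem Cond.sqCode [Finite V] (h : Cond d c0 W R) (hc : 2 ≤ c0) (hV : Vals d R f K) :
    SqCode W 0 (1 + 2 * csz d (K d)) (Nat.card {x // R.apex x ∨ R.dum x}) (Rep d R) (ltv R d)
      (tl d R) (fun _ _ => False) (Ow d R) (fun x => R.apex x ∨ R.dum x) where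
  irr := by
    intro x hx h1
    rw [hV.lt d le_rfl x x (rep_lev h.1 hx) (rep_lev h.1 hx)] at h1
    exact lt_irrefl _ h1
  trans := by
    intro x y z hx hy hz h1 h2
    rw [hV.lt d le_rfl _ _ (rep_lev h.1 hx) (rep_lev h.1 hy)] at h1
    rw [hV.lt d le_rfl _ _ (rep_lev h.1 hy) (rep_lev h.1 hz)] at h2
    rw [hV.lt d le_rfl _ _ (rep_lev h.1 hx) (rep_lev h.1 hz)]
    exact h1.trans h2
  lin := by
    intro x y hx hy
    rw [hV.lt d le_rfl _ _ (rep_lev h.1 hx) (rep_lev h.1 hy),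
      hV.lt d le_rfl _ _ (rep_lev h.1 hy) (rep_lev h.1 hx)]
    rcases lt_trichotomy (f d x) (f d y) with h1 | h1 | h1
    · exact Or.inl h1
    · exact Or.inr (Or.inl (rep_uniq h hV hx hy h1))
    · exact Or.inr (Or.inr h1)
  big := by
    have h1 := K_two h.1 hc hV (le_refl d)
    obtain ⟨x, hx, hx0⟩ := rep_ex h hV (m := 0) (by omega)
    obtain ⟨y, hy, hy1⟩ := rep_ex h hV (m := 1) (by omega)
    refine ⟨x, y, hx, hy, ?_⟩
    intro e
    rw [e] at hx0
    omega
  tot := h.2.til.tot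
  hR := h.2.til.hR
  hU := h.2.til.hU
  hl := h.2.til.hl
  hr := h.2.til.hr
  hb := h.2.til.hb
  ht := h.2.til.ht
  hc := h.2.til.hc
  own := by
    intro v
    have key : R.cell v ∨ R.node v → ∃ x y, Ow d R v x y := by
      intro hv
      obtain ⟨c, hcc, hvc⟩ := own_ex h hv
      obtain ⟨r, hrp, hrn, hrr, _⟩ := h.2.rowc c hcc
      obtain ⟨s, hsp, hsn, hsr, _⟩ := h.2.colc c hcc
      have lr := code_lev h.1 hrn hcc hrp
      have ls := code_lev h.1 hsn hcc hsp
      obtain ⟨x, hx, hxr⟩ := rep_ex h hV ((hV.rng d le_rfl _).mp ⟨r, lr, rfl⟩)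
      obtain ⟨y, hy, hys⟩ := rep_ex h hV ((hV.rng d le_rfl _).mp ⟨s, ls, rfl⟩)
      refine ⟨x, y, hx, hy, c, ⟨hcc, ⟨r, hrp, hrn, hrr, ?_⟩, ⟨s, hsp, hsn, hsr, ?_⟩⟩, hvc⟩
      · rw [hV.eq d le_rfl _ _ lr (rep_lev h.1 hx)]
        exact hxr.symm
      · rw [hV.eq d le_rfl _ _ ls (rep_lev h.1 hy)]
        exact hys.symm
    rcases h.1.kind v with h1 | h1 | h1 | h1
    · exact Or.inl (Or.inl h1)
    · exact Or.inr (Or.inr (key (Or.inl h1)))
    · exact Or.inr (Or.inr (key (Or.inr h1)))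
    · exact Or.inl (Or.inr h1)
  own₁ := fun _ _ h1 => h1.elim
  own₂ := by
    rintro v x y ⟨hx, hy, c, hcell, hvc⟩
    have hd := h.1.dis v
    have hkind : R.cell v ∨ R.node v := by
      rcases hvc with h1 | ⟨z, hz1, hz2, hz3⟩
      · left
        rw [h1]
        exact hcell.1
      · right
        exact not_cell_h12 h.1 le_rfl (code_lev h.1 hz2 hcell.1 hz1) hz3
    refine ⟨hx, hy, ?_, ?_⟩
    · rintro (h1 | h1)
      · rcases hkind with h2 | h2
        · exact hd.1 ⟨h1, h2⟩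
        · exact hd.2.1 ⟨h1, h2⟩
      · rcases hkind with h2 | h2
        · exact hd.2.2.2.2.1 ⟨h2, h1⟩
        · exact hd.2.2.2.2.2 ⟨h2, h1⟩
    · rintro x' y' ⟨hx', hy', c', hcell', hvc'⟩
      have e := own_uniq h hcell.1 hcell'.1 hvc hvc'
      subst e
      obtain ⟨hcc, ⟨r, hrp, hrn, hrr, hre⟩, ⟨s, hsp, hsn, hsr, hse⟩⟩ := hcell
      obtain ⟨_, ⟨r', hrp', hrn', hrr', hre'⟩, ⟨s', hsp', hsn', hsr', hse'⟩⟩ := hcell'
      obtain ⟨r0, _, _, _, hru⟩ := h.2.rowc c hcc
      obtain ⟨s0, _, _, _, hsu⟩ := h.2.colc c hcc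
      have er : r' = r := (hru r' hrp' hrn' hrr').trans (hru r hrp hrn hrr).symm
      have es : s' = s := (hsu s' hsp' hsn' hsr').trans (hsu s hsp hsn hsr).symm
      subst er
      subst es
      have lr := code_lev h.1 hrn hcc hrp
      have ls := code_lev h.1 hsn hcc hsp
      rw [hV.eq d le_rfl _ _ lr (rep_lev h.1 hx)] at hre
      rw [hV.eq d le_rfl _ _ lr (rep_lev h.1 hx')] at hre'
      rw [hV.eq d le_rfl _ _ ls (rep_lev h.1 hy)] at hse
      rw [hV.eq d le_rfl _ _ ls (rep_lev h.1 hy')] at hse'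
      exact ⟨rep_uniq h hV hx' hx (hre'.symm.trans hre), rep_uniq h hV hy' hy (hse'.symm.trans hse)⟩
  cnt₁ := by
    intro x _
    rw [exactly_iff]
    simp
  cnt₂ := by
    intro x y hx hy
    rw [exactly_iff]
    obtain ⟨c, hcell, hcu⟩ := h.2.pair x y (rep_lev h.1 hx) (rep_lev h.1 hy)
    have e1 : {v | Ow d R v x y} = own d R c := by
      ext v
      constructor
      · rintro ⟨_, _, c', hcell', hvc'⟩
        rw [← hcu c' hcell']
        exact hvc'
      · intro hv
        exact ⟨hx, hy, c, hcell, hv⟩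
    have e2 : Nat.card {v // Ow d R v x y} = ({v | Ow d R v x y} : Set V).ncard :=
      Nat.card_coe_set_eq _
    rw [e2, e1]
    exact own_card h hV hcell.1
  ext := (exactly_iff _ _).mpr rfl

end Pool.Agent.Helper29.TD
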