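import Pool.Agent.Helper29.TD.Fat

/-!
# Block TD-A16: copies of a piece

`cpI I C Y r`: the structure with `r` additional copies of the piece `Y` (a subset closed up to the constants `C`).

`cp_sep_copies`, `cp_sep_old`, `cp_sep_rest`: a tuple of `cpI` has all entries of the form `inl`, or all entries in the copy `j`
or in `inl '' C`.
`cp_bf`.  `C = Set.range c`, `Z = ⋃ Y ∈ s, Y`, `R = {x | x ∉ C ∧ x ∉ Z}`, `P0 = prs c (fun i => inl (c i))`.
(a) `BF I J R (inl '' R) q P0`: `BF.emb` with `f = inl`, `Z = univ` (`J s (inl ∘ v) ↔ I s v`).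
(b) the pieces `Y ∈ s` on the left, on the right the family indexed by `Set M ⊕ Fin r`: `inl Y ↦ inl '' Y` (`Y ∈ s`) and
`inr j ↦ the copy j`, i.e. `{w | ∃ y, w = inr (j, y)}`; index finset `s.disjSum univ`.  Any `Y ∈ s` and any member of the right
family are equivalent: `tp I Y q c = tp I Y₁ q c` (`Y₁ ∈ s`), `BF I J Y₁ (inl '' Y₁) q P0` by `BF.emb`, and
`BF I J Y₀ (copy j) q P0` by `BF.emb` for the map `x ↦ inr (j, x)` for `x ∈ Y₀`, `x ↦ inl x` otherwise, on the set `Y₀ ∪ C`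
(no element of `Y₀` is in `C`); in terms of types (`tp_eq_iff`) all are equal.  Both families have at least `q` members:
`BF.copies`.
(c) `BF.union` of (a) and (b) (`Sep.biUnion`; on the left `comp_sep`, `comp_sep_of_closed`), then `BF.consts` with
`P0` itself, then `BF.anti` to `∅`; the sets are `univ` on both sides.
-/

set_option autoImplicit false

namespace Pool.Agent.Helper29.TD

open Pool.Agent.Helper20.Spectra

variable {S : Type} {ar : S → ℕ} {M : Type}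

/-- the projection to the original structure -/
def prj {Y : Set M} {r : ℕ} : M ⊕ (Fin r × Y) → M := Sum.elim id (fun p => (p.2 : M))

/-- the structure with `r` additional copies of `Y` -/
def cpI (I : Interp S ar M) (C Y : Set M) (r : ℕ) : Interp S ar (M ⊕ (Fin r × Y)) := fun s v =>
  I s (fun i => prj (v i)) ∧ ((∀ i, ∃ x, v i = Sum.inl x) ∨
    ∃ j : Fin r, ∀ i, (∃ y, v i = Sum.inr (j, y)) ∨ ∃ x ∈ C, v i = Sum.inl x)

section aux6

variable {I : Interp S ar M} {C Y : Set M} {r : ℕ}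

private lemma cp_sep_old6 {A B : Set M} (h : Sep I A B) :
    Sep (cpI I C Y r) (Sum.inl '' A) (Sum.inl '' B) := by
  refine ⟨?_, ?_⟩
  · rintro _ ⟨x, hx, rfl⟩ ⟨y, hy, hxy⟩
    have := Sum.inl_injective hxy
    subst this
    exact h.1 _ hx hy
  · rintro s v ⟨hv, -⟩ ⟨i, x, hx, hi⟩ ⟨j, y, hy, hj⟩
    refine h.2 s _ hv ⟨i, ?_⟩ ⟨j, ?_⟩
    · rw [← hi]; exact hx
    · rw [← hj]; exact hy

private lemma cp_sep_rest6 {A : Set M} (hA : ∀ x ∈ A, x ∉ C) (j : Fin r) :
    Sep (cpI I C Y r) (Sum.inl '' A) {w | ∃ y : Y, w = Sum.inr (j, y)} := by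
  refine ⟨?_, ?_⟩
  · rintro _ ⟨x, hx, rfl⟩ ⟨y, hy⟩
    exact absurd hy (by simp)
  · rintro s v ⟨-, hv⟩ ⟨i, x, hx, hi⟩ ⟨i', y, hi'⟩
    rcases hv with hv | ⟨j', hv⟩
    · obtain ⟨z, hz⟩ := hv i'
      rw [hi'] at hz
      exact absurd hz (by simp)
    · rcases hv i with ⟨y', hy'⟩ | ⟨z, hz, hz'⟩
      · rw [← hi] at hy'
        exact absurd hy' (by simp)
      · rw [← hi] at hz'
        have := Sum.inl_injective hz'
        subst this
        exact hA _ hx hz

private lemma cp_sep_copies6 {j j' : Fin r} (hj : j ≠ j') :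
    Sep (cpI I C Y r) {w | ∃ y : Y, w = Sum.inr (j, y)} {w | ∃ y : Y, w = Sum.inr (j', y)} := by
  refine ⟨?_, ?_⟩
  · rintro _ ⟨x, rfl⟩ ⟨y, hy⟩
    have := Sum.inr_injective hy
    exact hj (congrArg Prod.fst this)
  · rintro s v ⟨-, hv⟩ ⟨i, x, hi⟩ ⟨i', y, hi'⟩
    rcases hv with hv | ⟨l, hv⟩
    · obtain ⟨z, hz⟩ := hv i'
      rw [hi'] at hz
      exact absurd hz (by simp)
    · have h1 : l = j := by
        rcases hv i with ⟨y', hy'⟩ | ⟨z, hz, hz'⟩
        · rw [hi] at hy'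
          exact (congrArg Prod.fst (Sum.inr_injective hy')).symm
        · rw [hi] at hz'
          exact absurd hz' (by simp)
      have h2 : l = j' := by
        rcases hv i' with ⟨y', hy'⟩ | ⟨z, hz, hz'⟩
        · rw [hi'] at hy'
          exact (congrArg Prod.fst (Sum.inr_injective hy')).symm
        · rw [hi'] at hz'
          exact absurd hz' (by simp)
      exact hj (h1.symm.trans h2)

private lemma emb_inl6 (X : Set M) (q : ℕ) {k : ℕ} (c : Fin k → M) :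
    BF I (cpI I C Y r) X (Sum.inl '' X) q (prs c (fun i => Sum.inl (c i))) := by
  refine BF.emb Sum.inl Set.univ (Sum.inl_injective.injOn) ?_ (Set.subset_univ _) q ?_
  · intro s v _
    exact ⟨fun h => ⟨h, Or.inl fun i => ⟨v i, rfl⟩⟩, fun h => h.1⟩
  · rintro p ⟨i, rfl⟩
    exact ⟨Set.mem_univ _, rfl⟩

open Classical in
private lemma emb_copy6 (j : Fin r) (q : ℕ) {k : ℕ} (c : Fin k → M)
    (hY : ∀ x ∈ Y, x ∉ Set.range c) :
    BF I (cpI I (Set.range c) Y r) Y {w | ∃ y : Y, w = Sum.inr (j, y)} q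
      (prs c (fun i => Sum.inl (c i))) := by
  let f : M → M ⊕ (Fin r × Y) := fun x => if h : x ∈ Y then Sum.inr (j, ⟨x, h⟩) else Sum.inl x
  have hf1 : ∀ (x : M) (h : x ∈ Y), f x = Sum.inr (j, ⟨x, h⟩) := fun x h => dif_pos h
  have hf2 : ∀ (x : M), x ∉ Y → f x = Sum.inl x := fun x h => dif_neg h
  have hprj : ∀ x, prj (f x) = x := by
    intro x
    by_cases h : x ∈ Y
    · rw [hf1 x h]; rfl
    · rw [hf2 x h]; rfl
  have himg : f '' Y = {w | ∃ y : Y, w = Sum.inr (j, y)} := by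
    ext w
    constructor
    · rintro ⟨x, hx, rfl⟩
      exact ⟨⟨x, hx⟩, hf1 x hx⟩
    · rintro ⟨⟨x, hx⟩, rfl⟩
      exact ⟨x, hx, hf1 x hx⟩
  rw [← himg]
  refine BF.emb f (Y ∪ Set.range c) ?_ ?_ Set.subset_union_left q ?_
  · intro x _ y _ hxy
    rw [← hprj x, ← hprj y, hxy]
  · intro s v hv
    have h1 : (fun i => prj (f (v i))) = v := funext fun i => hprj (v i)
    constructor
    · intro h
      refine ⟨?_, Or.inr ⟨j, fun i => ?_⟩⟩
      · rw [h1]
        exact h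
      · rcases hv i with h2 | h2
        · exact Or.inl ⟨⟨v i, h2⟩, hf1 _ h2⟩
        · exact Or.inr ⟨v i, h2, hf2 _ fun h3 => hY _ h3 h2⟩
    · intro h
      have h2 := h.1
      rw [h1] at h2
      exact h2
  · rintro p ⟨i, rfl⟩
    exact ⟨Or.inr ⟨i, rfl⟩, (hf2 _ fun h3 => hY _ h3 ⟨i, rfl⟩).symm⟩

end aux6

theorem cp_bf [Finite M] (I : Interp S ar M) (q : ℕ) {k : ℕ} (c : Fin k → M)
    (s : Finset (Set M)) (hs : q ≤ s.card)
    (hY : ∀ Y ∈ s, ∃ u, u ∉ Set.range c ∧ Y = comp I (Set.range c) u)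
    (htp : ∀ Y ∈ s, ∀ Y' ∈ s, tp I Y q c = tp I Y' q c) (Y₀ : Set M) (hY₀ : Y₀ ∈ s) (r : ℕ) :
    BF I (cpI I (Set.range c) Y₀ r) Set.univ Set.univ q ∅ := by
  classical
  -- the pieces avoid the constants
  have hYC : ∀ Y ∈ s, ∀ x ∈ Y, x ∉ Set.range c := by
    intro Y hYs x hx
    obtain ⟨u, hu, rfl⟩ := hY Y hYs
    exact comp_not hu hx
  obtain ⟨P0, hP0⟩ : ∃ P0 : Set (M × (M ⊕ (Fin r × Y₀))), P0 = prs c (fun i => Sum.inl (c i)) :=
    ⟨_, rfl⟩
  obtain ⟨R, hR⟩ : ∃ R : Set M, R = {x | x ∉ Set.range c ∧ x ∉ ⋃ Y ∈ s, Y} := ⟨_, rfl⟩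
  let B : Set M ⊕ Fin r → Set (M ⊕ (Fin r × Y₀)) :=
    Sum.elim (fun Y => Sum.inl '' Y) (fun j => {w | ∃ y : Y₀, w = Sum.inr (j, y)})
  have hA : ∀ i ∈ s, ∀ j ∈ s, i ≠ j → Sep I (id i) (id j) := by
    intro i hi j hj hij
    obtain ⟨u, hu, rfl⟩ := hY i hi
    obtain ⟨v, hv, rfl⟩ := hY j hj
    exact comp_sep hu hv hij
  have hB : ∀ i ∈ s.disjSum (Finset.univ : Finset (Fin r)), ∀ j ∈ s.disjSum Finset.univ, i ≠ j →
      Sep (cpI I (Set.range c) Y₀ r) (B i) (B j) := by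
    intro i hi j hj hij
    rcases i with i | i <;> rcases j with j | j
    · have hi' : i ∈ s := Finset.inl_mem_disjSum.mp hi
      have hj' : j ∈ s := Finset.inl_mem_disjSum.mp hj
      exact cp_sep_old6 (hA i hi' j hj' fun h => hij (congrArg _ h))
    · have hi' : i ∈ s := Finset.inl_mem_disjSum.mp hi
      exact cp_sep_rest6 (hYC i hi') j
    · have hj' : j ∈ s := Finset.inl_mem_disjSum.mp hj
      exact (cp_sep_rest6 (hYC j hj') i).symm
    · exact cp_sep_copies6 fun h => hij (congrArg _ h)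
  have h0 : ∀ p ∈ P0, (∀ i ∈ s, p.1 ∉ id i) ∧
      ∀ j ∈ s.disjSum (Finset.univ : Finset (Fin r)), p.2 ∉ B j := by
    intro p hp
    rw [hP0] at hp
    obtain ⟨i, rfl⟩ := hp
    refine ⟨fun Y hYs hx => hYC Y hYs _ hx ⟨i, rfl⟩, ?_⟩
    rintro (j | j) hj
    · rintro ⟨x, hx, hxi⟩
      have := Sum.inl_injective hxi
      subst this
      exact hYC j (Finset.inl_mem_disjSum.mp hj) _ hx ⟨i, rfl⟩
    · rintro ⟨y, hy⟩
      exact absurd hy (by simp)
  have hE : ∀ i ∈ s, ∀ j ∈ s.disjSum (Finset.univ : Finset (Fin r)),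
      BF I (cpI I (Set.range c) Y₀ r) (id i) (B j) q P0 := by
    intro i hi j hj
    rw [hP0]
    rcases j with j | j
    · have hj' : j ∈ s := Finset.inl_mem_disjSum.mp hj
      have h1 : tp I j q c = tp (cpI I (Set.range c) Y₀ r) (Sum.inl '' j) q
          (fun i => Sum.inl (c i)) := (tp_eq_iff q _ _).mpr (emb_inl6 j q c)
      exact (tp_eq_iff q _ _).mp ((htp i hi j hj').trans h1)
    · have h1 : tp I Y₀ q c = tp (cpI I (Set.range c) Y₀ r) {w | ∃ y : Y₀, w = Sum.inr (j, y)} q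
          (fun i => Sum.inl (c i)) := (tp_eq_iff q _ _).mpr (emb_copy6 j q c (hYC Y₀ hY₀))
      exact (tp_eq_iff q _ _).mp ((htp i hi Y₀ hY₀).trans h1)
  have hcopies : BF I (cpI I (Set.range c) Y₀ r) (⋃ i ∈ s, id i)
      (⋃ j ∈ s.disjSum (Finset.univ : Finset (Fin r)), B j) q P0 := by
    refine BF.copies id B ?_ q s _ hA hB h0 hE hs ?_
    · rw [hP0]
      exact (emb_inl6 (I := I) (C := Set.range c) (Y := Y₀) (r := r) Set.univ q c).piso
    · rw [Finset.card_disjSum]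
      omega
  have hrest : BF I (cpI I (Set.range c) Y₀ r) R (Sum.inl '' R) q P0 := by
    rw [hP0]
    exact emb_inl6 R q c
  have hRA : ∀ i ∈ s, Sep I R (id i) := by
    intro i hi
    obtain ⟨u, hu, rfl⟩ := hY i hi
    refine (comp_sep_of_closed hu ?_).symm
    intro x hx
    rw [hR] at hx
    refine ⟨hx.1, fun h => hx.2 ?_⟩
    exact Set.mem_biUnion hi h
  have hRC : ∀ x ∈ R, x ∉ Set.range c := by
    intro x hx
    rw [hR] at hx
    exact hx.1
  have hRB : ∀ j ∈ s.disjSum (Finset.univ : Finset (Fin r)),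
      Sep (cpI I (Set.range c) Y₀ r) (Sum.inl '' R) (B j) := by
    rintro (j | j) hj
    · exact cp_sep_old6 (hRA j (Finset.inl_mem_disjSum.mp hj))
    · exact cp_sep_rest6 hRC j
  have hun := BF.union (P0 := P0) (Sep.biUnion hRA) (Sep.biUnion hRB) (by
    intro p hp
    have h1 := h0 p hp
    refine ⟨?_, ?_, ?_, ?_⟩
    · intro h2
      rw [hP0] at hp
      obtain ⟨i, rfl⟩ := hp
      exact hRC _ h2 ⟨i, rfl⟩
    · intro h2
      rw [Set.mem_iUnion₂] at h2
      obtain ⟨i, hi, h2⟩ := h2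
      exact h1.1 i hi h2
    · rintro ⟨x, hx, h2⟩
      rw [hP0] at hp
      obtain ⟨i, rfl⟩ := hp
      have := Sum.inl_injective h2
      subst this
      exact hRC _ hx ⟨i, rfl⟩
    · intro h2
      rw [Set.mem_iUnion₂] at h2
      obtain ⟨i, hi, h2⟩ := h2
      exact h1.2 i hi h2) q (le_refl P0) (le_refl P0) Set.subset_union_left Set.subset_union_left
      hrest hcopies
  rw [Set.union_self] at hun
  have hfin := (hun.consts (le_refl P0)).anti (Set.empty_subset P0)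
  have e1 : (R ∪ ⋃ i ∈ s, id i) ∪ Prod.fst '' P0 = Set.univ := by
    rw [Set.eq_univ_iff_forall]
    intro x
    by_cases hx : x ∈ Set.range c
    · obtain ⟨i, rfl⟩ := hx
      refine Or.inr ⟨(c i, Sum.inl (c i)), ?_, rfl⟩
      rw [hP0]
      exact ⟨i, rfl⟩
    · by_cases hx' : x ∈ ⋃ Y ∈ s, Y
      · exact Or.inl (Or.inr hx')
      · refine Or.inl (Or.inl ?_)
        rw [hR]
        exact ⟨hx, hx'⟩
  have e2 : (Sum.inl '' R ∪ ⋃ j ∈ s.disjSum (Finset.univ : Finset (Fin r)), B j) ∪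
      Prod.snd '' P0 = Set.univ := by
    rw [Set.eq_univ_iff_forall]
    rintro (x | ⟨j, y⟩)
    · by_cases hx : x ∈ Set.range c
      · obtain ⟨i, rfl⟩ := hx
        refine Or.inr ⟨(c i, Sum.inl (c i)), ?_, rfl⟩
        rw [hP0]
        exact ⟨i, rfl⟩
      · by_cases hx' : x ∈ ⋃ Y ∈ s, Y
        · rw [Set.mem_iUnion₂] at hx'
          obtain ⟨Y, hYs, hx'⟩ := hx'
          refine Or.inl (Or.inr ?_)
          rw [Set.mem_iUnion₂]
          exact ⟨Sum.inl Y, Finset.inl_mem_disjSum.mpr hYs, ⟨x, hx', rfl⟩⟩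
        · refine Or.inl (Or.inl ⟨x, ?_, rfl⟩)
          rw [hR]
          exact ⟨hx, hx'⟩
    · refine Or.inl (Or.inr ?_)
      rw [Set.mem_iUnion₂]
      exact ⟨Sum.inr j, Finset.inr_mem_disjSum.mpr (Finset.mem_univ j), ⟨y, rfl⟩⟩
  rw [e1, e2] at hfin
  exact hfin

end Pool.Agent.Helper29.TD
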