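import Pool.Agent.Helper29.TD.Tow

/-!
# Block TD-U4: the sizes (elementary arithmetic)

`csz i k` is the number of nodes of a code of depth `i` with `k` values, `Fs d N` the number of elements of a code of an
`N × N` tiling (without the dummies).

`clog_of_bounds`: Mathlib `Nat.clog` lemmas (`Nat.clog_le_of_le_pow`, `Nat.lt_clog_of_pow_lt` or similar; `k ≥ 1`).
`csz_mono`, `csz_le`: induction on `i`, `Nat.clog_mono_right`, `Nat.clog 2 k ≤ k`.
`clog_iter_mono`: the iterates are monotone.  `Fs_gap`: `(1 + 2 c) (N + 1) ^ 2 ≥ (1 + 2 c) N ^ 2 + 2 N + 1`.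
`Fs_le`: from `csz_le` and `(Nat.clog 2)^[d] N ≤ N`.
`E_clog_lt`: induction on `d`: `(Nat.clog 2)^[d + 1] N = (Nat.clog 2)^[d] (Nat.clog 2 N)`; with `M = Nat.clog 2 N` the induction hypothesis
gives `E d (_ - 1) ≤ M - 1`, so `M ≥ 1`, `N ≥ 2` and `2 ^ (M - 1) < N` (`Nat.pow_pred_clog_lt_self`).
`le_clog_iter`: `E d c ≤ N` implies `c ≤ (Nat.clog 2)^[d] N` (induction on `d`, `Nat.clog_pow`), so `N1 = E d c`.
-/

set_option autoImplicit false

namespace Pool.Agent.Helper29.TD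

/-- the number of nodes of a code -/
def csz : ℕ → ℕ → ℕ
  | 0, _ => 1
  | i + 1, k => 1 + Nat.clog 2 k * csz i (Nat.clog 2 k)

/-- the number of elements of a code of an `N × N` tiling -/
def Fs (d N : ℕ) : ℕ := (Nat.clog 2)^[d] N + (1 + 2 * csz d N) * N ^ 2

lemma clog_of_bounds {k n : ℕ} (hk : 1 ≤ k) (h1 : 2 ^ (k - 1) < n) (h2 : n ≤ 2 ^ k) :
    Nat.clog 2 n = k := by
  apply le_antisymm (Nat.clog_le_of_le_pow h2)
  have h3 : k - 1 < Nat.clog 2 n := (Nat.lt_clog_iff_pow_lt (by norm_num)).2 h1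
  omega

lemma csz_mono (i : ℕ) {k k' : ℕ} (h : k ≤ k') : csz i k ≤ csz i k' := by
  induction i generalizing k k' with
  | zero => exact le_refl _
  | succ i ih =>
    unfold csz
    have h1 := Nat.clog_mono_right 2 h
    exact Nat.add_le_add_left (Nat.mul_le_mul h1 (ih h1)) 1

private lemma clog_le_self61 (k : ℕ) : Nat.clog 2 k ≤ k :=
  Nat.clog_le_of_le_pow Nat.lt_two_pow_self.le

lemma csz_le (i k : ℕ) : csz i k ≤ (k + 1) ^ i := by
  induction i generalizing k with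
  | zero => exact le_refl _
  | succ i ih =>
    unfold csz
    have h1 := clog_le_self61 k
    have h2 : csz i (Nat.clog 2 k) ≤ (k + 1) ^ i :=
      (ih _).trans (Nat.pow_le_pow_left (Nat.add_le_add_right h1 1) i)
    have h3 : 1 ≤ (k + 1) ^ i := Nat.one_le_pow _ _ (Nat.succ_pos k)
    calc 1 + Nat.clog 2 k * csz i (Nat.clog 2 k) ≤ (k + 1) ^ i + k * (k + 1) ^ i :=
          Nat.add_le_add h3 (Nat.mul_le_mul h1 h2)
      _ = (k + 1) ^ (i + 1) := by ring

lemma clog_iter_mono (d : ℕ) {N N' : ℕ} (h : N ≤ N') :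
    (Nat.clog 2)^[d] N ≤ (Nat.clog 2)^[d] N' :=
  (Nat.clog_monotone 2).iterate d h

lemma clog_iter_le (d N : ℕ) : (Nat.clog 2)^[d] N ≤ N := by
  induction d with
  | zero => exact le_refl _
  | succ d ih =>
    rw [Function.iterate_succ_apply']
    exact (clog_le_self61 _).trans ih

theorem Fs_gap (d N : ℕ) : Fs d N + N < Fs d (N + 1) := by
  unfold Fs
  have h1 := clog_iter_mono d (Nat.le_succ N)
  have h2 : csz d N ≤ csz d (N + 1) := csz_mono d (Nat.le_succ N)
  have h3 : (1 + 2 * csz d N) * (N + 1) ^ 2 ≤ (1 + 2 * csz d (N + 1)) * (N + 1) ^ 2 :=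
    Nat.mul_le_mul_right _ (by omega)
  have h4 : (1 + 2 * csz d N) * (N + 1) ^ 2 =
      (1 + 2 * csz d N) * N ^ 2 + (1 + 2 * csz d N) * (2 * N + 1) := by ring
  have h5 : 2 * N + 1 ≤ (1 + 2 * csz d N) * (2 * N + 1) := Nat.le_mul_of_pos_left _ (by omega)
  have h1' : (Nat.clog 2)^[d] N ≤ (Nat.clog 2)^[d] (N + 1) := h1
  omega

theorem Fs_le (d N : ℕ) : Fs d N ≤ N + (1 + 2 * (N + 1) ^ d) * N ^ 2 := by
  unfold Fs
  have h1 := clog_iter_le d N
  have h2 := csz_le d N
  exact Nat.add_le_add h1 (Nat.mul_le_mul_right _ (by omega))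

theorem E_clog_lt (d N : ℕ) (h : 1 ≤ (Nat.clog 2)^[d] N) : E d ((Nat.clog 2)^[d] N - 1) < N := by
  induction d generalizing N with
  | zero =>
    simp only [Function.iterate_zero, id_eq] at h ⊢
    unfold E
    omega
  | succ d ih =>
    rw [Function.iterate_succ_apply] at h ⊢
    have h1 := ih (Nat.clog 2 N) h
    have h2 : 1 < N := by
      by_contra h3
      rw [Nat.clog_of_right_le_one (not_lt.1 h3)] at h1
      exact Nat.not_lt_zero _ h1
    have h3 := Nat.pow_pred_clog_lt_self (b := 2) (by norm_num) h2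
    have h4 : 2 ^ E d ((Nat.clog 2)^[d] (Nat.clog 2 N) - 1) ≤ 2 ^ (Nat.clog 2 N).pred :=
      Nat.pow_le_pow_right (by norm_num) (Nat.le_pred_of_lt h1)
    exact lt_of_le_of_lt h4 h3

theorem le_clog_iter (d c : ℕ) : ∃ N1, ∀ N, N1 ≤ N → c ≤ (Nat.clog 2)^[d] N := by
  refine ⟨E d c, ?_⟩
  induction d with
  | zero => exact fun N h => h
  | succ d ih =>
    intro N h
    rw [Function.iterate_succ_apply]
    apply ih
    have h1 := Nat.clog_mono_right 2 h
    unfold E at h1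
    rwa [Nat.clog_pow _ _ (by norm_num)] at h1

end Pool.Agent.Helper29.TD
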