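import Pool.Agent.Helper29.TD.Vals
import Pool.Agent.Helper29.TD.Fs

/-!
# Block TD-U6: the nodes of a code

`desc R i x`: the node `x` of level `i` and all nodes below it.

`desc_lev`: induction on `i`, `Tree.child`.  `desc_uniq`: induction on `i`; step: if `v = x` is in `desc i u`, `u` a child of `y`, then `v`
has a level `≤ i` by `desc_lev`, but `x` has the level `i + 1 ≤ d` (`lev_uniq`); if `v` is in `desc i u` and in `desc i w` for children `u`
of `x`, `w` of `y`, then `u = w` and `x = y` by `par_uniq`.
`desc_cover`: `v` has a level `i ≤ d` (`node_lev`), `v ∈ desc i v`; if `w` is of level `j < d` and `v ∈ desc j w` then the parent `y` of `w`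
(`par_ex`, `par_kind`, `lev_uniq`, `dis`) is of level `j + 1` and `v ∈ desc (j + 1) y`; induction on `d - j`.
`desc_card`: induction on `i`.  `desc (i + 1) x` is the disjoint union of `{x}` and of the `desc i u` for the children `u` of `x`
(`desc_uniq`, `desc_lev`); the children are in bijection with the numbers below `K i` (`Vals.chx`, `Vals.chu`, `Vals.rng`);
`Nat.clog 2 (K (i + 1)) = K i` by `clog_of_bounds` (`Vals.low`, `Vals.upp`; `K i ≥ 1` because level `i + 1` is not empty: `K (i+1) ≥ 1`,
so `Lev R i` has an element, by definition of `Lev`).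
-/

set_option autoImplicit false

namespace Pool.Agent.Helper29.TD

variable {Γ V : Type}

/-- the node `x` of level `i` and the nodes below it -/
def desc (R : St Γ V) : ℕ → V → Set V
  | 0, x => {x}
  | i + 1, x => insert x {v | ∃ u, R.par u x ∧ v ∈ desc R i u}

variable {d c0 : ℕ} {R : St Γ V}

lemma desc_lev (h : Tree d c0 R) : ∀ i, i ≤ d → ∀ x, Lev R i x → ∀ v ∈ desc R i x,
    ∃ j, j ≤ i ∧ Lev R j v := by
  intro i
  induction i with
  | zero =>
    intro _ x hx v hv
    have hvx : v = x := hv
    rw [hvx]
    exact ⟨0, le_rfl, hx⟩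
  | succ i ih =>
    intro hi x hx v hv
    rcases hv with rfl | ⟨u, hu, hv⟩
    · exact ⟨i + 1, le_rfl, hx⟩
    · obtain ⟨j, hj, hl⟩ := ih (by omega) u (h.child (by omega) hx hu) v hv
      exact ⟨j, by omega, hl⟩

lemma desc_uniq (h : Tree d c0 R) : ∀ i, i ≤ d → ∀ x y v, Lev R i x → Lev R i y →
    v ∈ desc R i x → v ∈ desc R i y → x = y := by
  intro i
  induction i with
  | zero =>
    intro _ x y v _ _ hv hv'
    have h1 : v = x := hv
    have h2 : v = y := hv'
    rw [← h1, ← h2]
  | succ i ih =>
    intro hi x y v hx hy hv hv'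
    rcases hv with rfl | ⟨u, hu, hv⟩
    · rcases hv' with rfl | ⟨w, hw, hv'⟩
      · rfl
      · obtain ⟨j, hj, hl⟩ := desc_lev h i (by omega) w (h.child (by omega) hy hw) v hv'
        exact absurd ⟨hl, hx⟩ (h.lev_uniq j (by omega) (i + 1) (by omega) (by omega) v)
    · rcases hv' with rfl | ⟨w, hw, hv'⟩
      · obtain ⟨j, hj, hl⟩ := desc_lev h i (by omega) u (h.child (by omega) hx hu) v hv
        exact absurd ⟨hl, hy⟩ (h.lev_uniq j (by omega) (i + 1) (by omega) (by omega) v)
      · have h1 := ih (by omega) u w v (h.child (by omega) hx hu) (h.child (by omega) hy hw) hv hv'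
        subst h1
        exact h.par_uniq u x y hu hw

private lemma h42_node {i : ℕ} {x : V} (hx : Lev R i x) : R.node x := by
  cases i with
  | zero => exact hx.1
  | succ i => exact hx.1

private lemma h42_self : ∀ (i : ℕ) (x : V), x ∈ desc R i x
  | 0, _ => rfl
  | _ + 1, _ => Or.inl rfl

lemma desc_cover (h : Tree d c0 R) (v : V) (hv : R.node v) : ∃ x, Lev R d x ∧ v ∈ desc R d x := by
  obtain ⟨i, hi, hl⟩ := h.node_lev v hv
  have key : ∀ k j, j + k = d → ∀ w, Lev R j w → v ∈ desc R j w →
      ∃ x, Lev R d x ∧ v ∈ desc R d x := by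
    intro k
    induction k with
    | zero =>
      intro j hj w hw hvw
      have h1 : j = d := by omega
      subst h1
      exact ⟨w, hw, hvw⟩
    | succ k ih =>
      intro j hj w hw hvw
      obtain ⟨y, hy⟩ := h.par_ex w (Or.inl (h42_node hw))
      rcases h.par_kind w y hy with h1 | ⟨l, hl, hlw, hly⟩ | h1
      · exact absurd ⟨hw, h1.1⟩ (h.lev_uniq j (by omega) d (by omega) (by omega) w)
      · have h2 : l = j := by
          by_contra hne
          exact h.lev_uniq l (by omega) j (by omega) hne w ⟨hlw, hw⟩
        subst h2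
        exact ih (l + 1) (by omega) y hly (Or.inr ⟨w, hy, hvw⟩)
      · exact absurd ⟨h42_node hw, h1.1⟩ (h.dis w).2.2.2.2.2
  exact key (d - i) i (by omega) v hl (h42_self i v)

theorem desc_card [Finite V] (h : Tree d c0 R) {f : ℕ → V → ℕ} {K : ℕ → ℕ} (hV : Vals d R f K) :
    ∀ i, i ≤ d → ∀ x, Lev R i x → (desc R i x).ncard = csz i (K i) := by
  classical
  intro i
  induction i with
  | zero =>
    intro _ x _
    change ({x} : Set V).ncard = 1
    exact Set.ncard_singleton x
  | succ i ih =>
    intro hi x hx
    have hi' : i < d := by omega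
    have hK1 : 1 ≤ K i := by
      obtain ⟨_, u, hu, _⟩ := hx
      have := (hV.rng i hi'.le (f i u)).1 ⟨u, hu, rfl⟩
      omega
    have hclog : Nat.clog 2 (K (i + 1)) = K i :=
      clog_of_bounds hK1 (hV.low i hi') (hV.upp i hi')
    have hne : Nonempty V := ⟨x⟩
    have hch := hV.chx i hi' x hx
    choose! c hc using hch
    have hfin : Fintype V := Fintype.ofFinite V
    set A : Set V := {v | ∃ u, R.par u x ∧ v ∈ desc R i u} with hA
    have hxA : x ∉ A := by
      rintro ⟨u, hu, hv⟩
      obtain ⟨j, hj, hl⟩ := desc_lev h i hi'.le u (h.child hi' hx hu) x hv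
      exact h.lev_uniq j (by omega) (i + 1) (by omega) (by omega) x ⟨hl, hx⟩
    have hAcard : A.ncard = K i * csz i (K i) := by
      have h1 : A.toFinset = (Finset.range (K i)).biUnion (fun m => (desc R i (c m)).toFinset) := by
        ext v
        simp only [Set.mem_toFinset, Finset.mem_biUnion, Finset.mem_range]
        constructor
        · rintro ⟨u, hu, hv⟩
          have hul := h.child hi' hx hu
          have hm := (hV.rng i hi'.le (f i u)).1 ⟨u, hul, rfl⟩
          refine ⟨f i u, hm, ?_⟩
          have h2 := hV.chu i hi' x (c (f i u)) u hx (hc _ hm).1 hu (hc _ hm).2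
          rw [h2]
          exact hv
        · rintro ⟨m, hm, hv⟩
          exact ⟨c m, (hc m hm).1, hv⟩
      rw [Set.ncard_eq_toFinset_card', h1, Finset.card_biUnion]
      · have h2 : ∀ m ∈ Finset.range (K i), (desc R i (c m)).toFinset.card = csz i (K i) := by
          intro m hm
          rw [← Set.ncard_eq_toFinset_card']
          exact ih hi'.le (c m) (h.child hi' hx (hc m (Finset.mem_range.1 hm)).1)
        rw [Finset.sum_congr rfl h2, Finset.sum_const, Finset.card_range, smul_eq_mul]
      · intro m hm m' hm' hmm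
        have hm1 := Finset.mem_range.1 hm
        have hm2 := Finset.mem_range.1 hm'
        rw [Function.onFun, Set.disjoint_toFinset, Set.disjoint_left]
        intro v hv hv'
        have h3 := desc_uniq h i hi'.le (c m) (c m') v (h.child hi' hx (hc m hm1).1)
          (h.child hi' hx (hc m' hm2).1) hv hv'
        apply hmm
        rw [← (hc m hm1).2, ← (hc m' hm2).2, h3]
    change (insert x A).ncard = 1 + Nat.clog 2 (K (i + 1)) * csz i (Nat.clog 2 (K (i + 1)))
    rw [Set.ncard_insert_of_notMem hxA (Set.toFinite _), hAcard, hclog, add_comm]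

end Pool.Agent.Helper29.TD
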