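import Pool.Agent.Helper29.TD.Prune

/-!
# Block TD-A15: many equivalent pieces

`fat_family`: let `s₀` be the finset of the sets `comp I (range c) u`, `u ∈ U`.  The union has at most `card s₀ * b`
elements, so `q * T < card s₀`; apply `exists_many` to `τ Y = tp I Y q c` (`finite_Ty`).
`fat_piece`: induction on `j`, as `prune_piece`.  `j = 0`: `Fin.snoc c v` is a path with `L + 1` vertices.  Step: `c' = Fin.snoc c v`,
`U = {u | Adj I v u ∧ u ∉ Set.range c}`, the piece is `insert v (⋃ u ∈ U, comp I (Set.range c') u)`.  If some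
`comp I (Set.range c') u` has more than `(q * T + 1) ^ j` elements use the induction hypothesis.  Otherwise, as
`(q * T + 1) ^ (j + 1) ≥ 1 + q * T * (q * T + 1) ^ j`, `fat_family` applies with `b = (q * T + 1) ^ j`.
`fat`: the same with `k = 0`, `c = Fin.elim0`, `U = Set.univ` (all pieces together are everything).
-/

set_option autoImplicit false

namespace Pool.Agent.Helper29.TD

open Pool.Agent.Helper20.Spectra

variable {S : Type} {ar : S → ℕ} {M : Type}

/-- more than `q` pieces of the same type with at most `b` elements -/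
def HasFat (I : Interp S ar M) (q b : ℕ) : Prop :=
  ∃ (k : ℕ) (c : Fin k → M) (s : Finset (Set M)), q < s.card ∧
    (∀ Y ∈ s, ∃ u, u ∉ Set.range c ∧ Y = comp I (Set.range c) u) ∧ (∀ Y ∈ s, Y.ncard ≤ b) ∧
    ∀ Y ∈ s, ∀ Y' ∈ s, tp I Y q c = tp I Y' q c

private lemma ncard_biUnion_le53 [Finite M] (s : Finset (Set M)) (b : ℕ)
    (h : ∀ Y ∈ s, Y.ncard ≤ b) : (⋃ Y ∈ s, Y).ncard ≤ s.card * b := by
  classical
  induction s using Finset.induction_on with
  | empty => simp
  | insert a s ha ih =>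
    rw [Finset.card_insert_of_notMem ha, Finset.set_biUnion_insert]
    have h1 := ih fun Y hY => h Y (Finset.mem_insert_of_mem hY)
    have h2 := h a (Finset.mem_insert_self _ _)
    calc (a ∪ ⋃ Y ∈ s, Y).ncard ≤ a.ncard + (⋃ Y ∈ s, Y).ncard := Set.ncard_union_le _ _
      _ ≤ b + s.card * b := by omega
      _ = (s.card + 1) * b := by ring

private lemma HasFat.mono53 {I : Interp S ar M} {q b b' : ℕ} (h : HasFat I q b) (hb : b ≤ b') :
    HasFat I q b' := by
  obtain ⟨k, c, s, h1, h2, h3, h4⟩ := h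
  exact ⟨k, c, s, h1, h2, fun Y hY => (h3 Y hY).trans hb, h4⟩

private lemma range_snoc53 {k : ℕ} (c : Fin k → M) (v : M) :
    Set.range (Fin.snoc c v : Fin (k + 1) → M) = insert v (Set.range c) := by
  ext x
  constructor
  · rintro ⟨i, rfl⟩
    refine Fin.lastCases ?_ (fun i => ?_) i
    · rw [Fin.snoc_last]
      exact Set.mem_insert _ _
    · rw [Fin.snoc_castSucc]
      exact Set.mem_insert_of_mem _ ⟨i, rfl⟩
  · rintro (rfl | ⟨i, rfl⟩)
    · exact ⟨Fin.last k, Fin.snoc_last _ _⟩
    · exact ⟨i.castSucc, Fin.snoc_castSucc _ _ _⟩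

theorem fat_family [Finite M] [Finite S] (I : Interp S ar M) (q T b : ℕ) {k : ℕ}
    (c : Fin k → M) (hT : Nat.card (Ty S ar q k) ≤ T) (U : Set M)
    (hU : ∀ u ∈ U, u ∉ Set.range c) (hb : ∀ u ∈ U, (comp I (Set.range c) u).ncard ≤ b)
    (h : q * T * b < (⋃ u ∈ U, comp I (Set.range c) u).ncard) : HasFat I q b := by
  classical
  have := finite_Ty (S := S) (ar := ar) q k
  set P : Set (Set M) := (fun u => comp I (Set.range c) u) '' U with hP
  set s₀ : Finset (Set M) := P.toFinite.toFinset with hs₀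
  have hmem : ∀ Y, Y ∈ s₀ ↔ ∃ u ∈ U, comp I (Set.range c) u = Y := by
    intro Y
    rw [hs₀, Set.Finite.mem_toFinset, hP, Set.mem_image]
  have hb' : ∀ Y ∈ s₀, Y.ncard ≤ b := by
    intro Y hY
    obtain ⟨u, hu, rfl⟩ := (hmem Y).1 hY
    exact hb u hu
  have hun : (⋃ u ∈ U, comp I (Set.range c) u) = ⋃ Y ∈ s₀, Y := by
    ext x
    simp only [Set.mem_iUnion, exists_prop]
    constructor
    · rintro ⟨u, hu, hx⟩
      exact ⟨_, (hmem _).2 ⟨u, hu, rfl⟩, hx⟩
    · rintro ⟨Y, hY, hx⟩
      obtain ⟨u, hu, rfl⟩ := (hmem Y).1 hY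
      exact ⟨u, hu, hx⟩
  have hcard : q * T < s₀.card := by
    by_contra hlt
    have h1 := ncard_biUnion_le53 s₀ b hb'
    rw [hun] at h
    have h2 : s₀.card * b ≤ q * T * b := Nat.mul_le_mul_right b (not_lt.1 hlt)
    omega
  obtain ⟨t, ht, hq, htp⟩ := exists_many s₀ (fun Y => tp I Y q c) q
    ((Nat.mul_le_mul_left q hT).trans_lt hcard)
  refine ⟨k, c, t, hq, fun Y hY => ?_, fun Y hY => hb' Y (ht hY), htp⟩
  obtain ⟨u, hu, rfl⟩ := (hmem Y).1 (ht hY)
  exact ⟨u, hU u hu, rfl⟩

theorem fat_piece [Finite M] [Finite S] (I : Interp S ar M) (q L T : ℕ)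
    (hL : PathLe I L) (hT : ∀ k, k ≤ L → Nat.card (Ty S ar q k) ≤ T) :
    ∀ (j k : ℕ), k + j = L → ∀ (c : Fin k → M) (v : M), IsPath I c → v ∉ Set.range c →
      (∀ i : Fin k, i.1 + 1 = k → Adj I (c i) v) →
      (q * T + 1) ^ j < (comp I (Set.range c) v).ncard → HasFat I q ((q * T + 1) ^ L) := by
  intro j
  induction j with
  | zero =>
    intro k hk c v hc hv ha _
    have h1 := hL (k + 1) _ (IsPath.snoc hc hv ha)
    omega
  | succ j ih =>
    intro k hk c v hc hv ha hbig
    have hc' := IsPath.snoc hc hv ha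
    set c' : Fin (k + 1) → M := Fin.snoc c v with hc'def
    have hr : Set.range c' = insert v (Set.range c) := range_snoc53 c v
    set U : Set M := {u | Adj I v u ∧ u ∉ Set.range c} with hUdef
    have hU : ∀ u ∈ U, u ∉ Set.range c' := by
      intro u hu
      rw [hr]
      rintro (h1 | h1)
      · exact hu.1.1 h1.symm
      · exact hu.2 h1
    have hins : comp I (Set.range c) v = insert v (⋃ u ∈ U, comp I (Set.range c') u) := by
      rw [hr]
      exact comp_insert hv
    by_cases hex : ∃ u ∈ U, (q * T + 1) ^ j < (comp I (Set.range c') u).ncard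
    · obtain ⟨u, hu, hlt⟩ := hex
      refine ih (k + 1) (by omega) c' u hc' (hU u hu) ?_ hlt
      intro i hi
      have h1 : i = Fin.last k := by
        apply Fin.ext
        rw [Fin.val_last]
        omega
      rw [h1, hc'def, Fin.snoc_last]
      exact hu.1
    · have hb : ∀ u ∈ U, (comp I (Set.range c') u).ncard ≤ (q * T + 1) ^ j := by
        intro u hu
        by_contra h1
        exact hex ⟨u, hu, not_le.1 h1⟩
      refine HasFat.mono53 (fat_family I q T ((q * T + 1) ^ j) c' (hT (k + 1) (by omega)) U hU hb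
        ?_) (Nat.pow_le_pow_right (by omega) (by omega))
      have h1 : (comp I (Set.range c) v).ncard ≤
          (⋃ u ∈ U, comp I (Set.range c') u).ncard + 1 := by
        rw [hins]
        exact Set.ncard_insert_le _ _
      have h2 : (q * T + 1) ^ (j + 1) = q * T * (q * T + 1) ^ j + (q * T + 1) ^ j := by ring
      have h3 : 0 < (q * T + 1) ^ j := Nat.pow_pos (by omega)
      omega

theorem fat [Finite M] [Finite S] (I : Interp S ar M) (q L T : ℕ)
    (hL : PathLe I L) (hT : ∀ k, k ≤ L → Nat.card (Ty S ar q k) ≤ T)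
    (hM : (q * T + 1) ^ (L + 1) < Nat.card M) : HasFat I q ((q * T + 1) ^ L) := by
  by_cases hex : ∃ u, (q * T + 1) ^ L < (comp I (Set.range (Fin.elim0 : Fin 0 → M)) u).ncard
  · obtain ⟨u, hu⟩ := hex
    refine fat_piece I q L T hL hT L 0 (by omega) Fin.elim0 u ?_ ?_ ?_ hu
    · exact ⟨fun i => i.elim0, fun i => i.elim0⟩
    · rintro ⟨i, -⟩
      exact i.elim0
    · exact fun i => i.elim0
  · have hb : ∀ u ∈ (Set.univ : Set M),
        (comp I (Set.range (Fin.elim0 : Fin 0 → M)) u).ncard ≤ (q * T + 1) ^ L := by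
      intro u _
      by_contra h1
      exact hex ⟨u, not_le.1 h1⟩
    refine fat_family I q T ((q * T + 1) ^ L) Fin.elim0 (hT 0 (Nat.zero_le _)) Set.univ ?_ hb ?_
    · rintro u - ⟨i, -⟩
      exact i.elim0
    · have h1 : (⋃ u ∈ (Set.univ : Set M), comp I (Set.range (Fin.elim0 : Fin 0 → M)) u) =
          Set.univ := by
        apply Set.eq_univ_of_forall
        intro u
        simp only [Set.mem_iUnion]
        exact ⟨u, Set.mem_univ u, comp_self⟩
      rw [h1, Set.ncard_univ]
      have h2 : (q * T + 1) ^ (L + 1) = q * T * (q * T + 1) ^ L + (q * T + 1) ^ L := by ring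
      omega

end Pool.Agent.Helper29.TD
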