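import Pool.Agent.Helper29.TD.BF

/-!
# Block TD-A13: marking a path

`exists_marks`: `a = 1 + ∑ s, ar s` (`Fintype.ofFinite S`).  For consecutive vertices `p i`, `p (i + 1)` choose a relation and a
tuple which contains both; `K` consists of all `p i` and of all entries of the chosen tuples (at most `∑ s, ar s` for each `i`).
If `K ⊆ X'` then these tuples are tuples of `restr I X'`, so `i ↦ ⟨p i, _⟩` is a path.
`IsPath.iso`: transport along a bijection.
-/

set_option autoImplicit false

namespace Pool.Agent.Helper29.TD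

open Pool.Agent.Helper20.Spectra

variable {S : Type} {ar : S → ℕ}

theorem exists_marks [Finite S] (ar : S → ℕ) : ∃ a : ℕ, ∀ (M : Type) (_ : Finite M)
    (I : Interp S ar M) (W : ℕ) (p : Fin W → M), IsPath I p → ∃ K : Set M, K.ncard ≤ a * W ∧
      ∀ X' : Set M, K ⊆ X' → ∃ p' : Fin W → X', IsPath (restr I X') p' := by
  classical
  have : Fintype S := Fintype.ofFinite S
  refine ⟨1 + ∑ s, ar s, ?_⟩
  intro M _ I W p hp
  have hadj : ∀ (i : Fin W) (h : i.1 + 1 < W), ∃ (s : S) (v : Fin (ar s) → M), I s v ∧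
      (∃ m, v m = p i) ∧ ∃ m, v m = p ⟨i.1 + 1, h⟩ := fun i h => (hp.2 i ⟨i.1 + 1, h⟩ rfl).2
  choose s v hv hv1 hv2 using hadj
  let T : Fin W → Finset M := fun i => insert (p i)
    (if h : i.1 + 1 < W then Finset.univ.image (v i h) else ∅)
  have hT : ∀ i, (T i).card ≤ 1 + ∑ s, ar s := by
    intro i
    refine (Finset.card_insert_le _ _).trans ?_
    rw [add_comm]
    refine Nat.add_le_add_left ?_ 1
    by_cases h : i.1 + 1 < W
    · rw [dif_pos h]
      refine Finset.card_image_le.trans ?_
      rw [Finset.card_univ, Fintype.card_fin]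
      exact Finset.single_le_sum (f := fun s => ar s) (fun _ _ => Nat.zero_le _)
        (Finset.mem_univ (s i h))
    · rw [dif_neg h]
      simp
  refine ⟨((Finset.univ.biUnion T : Finset M) : Set M), ?_, ?_⟩
  · rw [Set.ncard_coe_finset]
    refine Finset.card_biUnion_le.trans ?_
    refine (Finset.sum_le_sum fun i _ => hT i).trans ?_
    rw [Finset.sum_const, Finset.card_univ, Fintype.card_fin, smul_eq_mul, mul_comm]
  · intro X' hX
    have h1 : ∀ i, p i ∈ X' := by
      intro i
      apply hX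
      rw [Finset.mem_coe, Finset.mem_biUnion]
      exact ⟨i, Finset.mem_univ i, Finset.mem_insert_self _ _⟩
    have h2 : ∀ (i : Fin W) (h : i.1 + 1 < W) (m : Fin (ar (s i h))), v i h m ∈ X' := by
      intro i h m
      apply hX
      rw [Finset.mem_coe, Finset.mem_biUnion]
      refine ⟨i, Finset.mem_univ i, Finset.mem_insert_of_mem ?_⟩
      rw [dif_pos h]
      exact Finset.mem_image_of_mem _ (Finset.mem_univ m)
    refine ⟨fun i => ⟨p i, h1 i⟩, fun i j h => hp.1 (congrArg Subtype.val h), ?_⟩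
    intro i j hij
    have hi : i.1 + 1 < W := by
      have := j.2
      omega
    have hj : j = ⟨i.1 + 1, hi⟩ := Fin.ext hij.symm
    refine ⟨fun h => (hp.2 i j hij).1 (congrArg Subtype.val h), s i hi,
      fun m => ⟨v i hi m, h2 i hi m⟩, hv i hi, ?_, ?_⟩
    · obtain ⟨m, hm⟩ := hv1 i hi
      exact ⟨m, Subtype.ext hm⟩
    · obtain ⟨m, hm⟩ := hv2 i hi
      refine ⟨m, Subtype.ext ?_⟩
      rw [hj]
      exact hm

theorem IsPath.iso {M N : Type} {I : Interp S ar M} (e : M ≃ N) {l : ℕ} {p : Fin l → M}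
    (h : IsPath I p) :
    IsPath (fun s v => I s (fun i => e.symm (v i)) : Interp S ar N) (fun i => e (p i)) := by
  refine ⟨fun i j hij => h.1 (e.injective hij), fun i j hij => ?_⟩
  obtain ⟨hne, s, v, hv, ⟨m, hm⟩, m', hm'⟩ := h.2 i j hij
  refine ⟨fun h1 => hne (e.injective h1), s, fun i => e (v i), ?_, ⟨m, ?_⟩, m', ?_⟩
  · change I s (fun i => e.symm (e (v i)))
    simpa using hv
  · exact congrArg e hm
  · exact congrArg e hm'

end Pool.Agent.Helper29.TD
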