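import Pool.Agent.Helper29.TD.Prune
import Pool.Agent.Helper29.TD.BFSat
import Pool.Agent.Helper29.TD.TyCard
import Pool.Agent.Helper29.TD.Marks

/-!
# Block TD-A14: equivalent substructures with the same longest path

Let `q` be from `BF.sat`, `T` from `card_Ty_mono S ar q`, `a` from `exists_marks`.  The function
`W ↦ (a * W + q * T W + 1) ^ (W + 1)` is `Tow`; `d` from `Tow.final`.  Given a model with a path `p` with `W` vertices and
`PathLe I W`: `K` from `exists_marks`, `X'` from `prune` (`q`, `W`, `T W`, `K`).  `Sat (restr I X') φ` by `BF.sat` (with `Y = Set.univ`) and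
`Sat.univ`.  Transport to `Fin n'`, `n' = X'.ncard`, along `X' ≃ Fin n'` (`Finite.equivFin`, `Nat.card_coe_set_eq`) with `Sat.iso`, `IsPath.iso`.
-/

set_option autoImplicit false

namespace Pool.Agent.Helper29.TD

open Pool.Agent.Helper20.Spectra

variable {S : Type} {ar : S → ℕ}

theorem gap [Finite S] (φ : (RelLang S ar).Sentence) : ∃ d : ℕ, ∀ (n : ℕ)
    (I : Interp S ar (Fin n)) (W : ℕ) (p : Fin W → Fin n), Sat I φ → PathLe I W → IsPath I p →
    2 ≤ W → ∃ (n' : ℕ) (I' : Interp S ar (Fin n')) (p' : Fin W → Fin n'), Sat I' φ ∧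
      IsPath I' p' ∧ n' ≤ E d W := by
  obtain ⟨q, hq⟩ := BF.sat φ
  obtain ⟨T, hT, hTb⟩ := card_Ty_mono S ar q
  obtain ⟨a, ha⟩ := exists_marks ar
  have htow : Tow (fun W => (a * W + q * T W + 1) ^ (W + 1)) :=
    Tow.pow (Tow.add (Tow.add (Tow.mul (Tow.const a) Tow.id) (Tow.mul (Tow.const q) hT))
      (Tow.const 1)) (Tow.add Tow.id (Tow.const 1))
  obtain ⟨d, hd⟩ := htow.final
  refine ⟨d, fun n I W p hs hW hp h2 => ?_⟩
  obtain ⟨K, hK, hKp⟩ := ha (Fin n) inferInstance I W p hp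
  obtain ⟨X', hKX, hX, hBF⟩ := prune I q W (T W) K hW (fun k hk => hTb W k hk)
  obtain ⟨p', hp'⟩ := hKp X' hKX
  have h3 : Sat (restr I X') φ :=
    (hq (Fin n) (Fin n) I I X' Set.univ hBF).mpr ((Sat.univ I φ).mpr hs)
  let e : X' ≃ Fin X'.ncard := Finite.equivFinOfCardEq (Nat.card_coe_set_eq X')
  refine ⟨X'.ncard, fun s v => restr I X' s (fun i => e.symm (v i)), fun i => e (p' i),
    (Sat.iso _ e φ).mp h3, hp'.iso e, ?_⟩
  calc X'.ncard ≤ (K.ncard + q * T W + 1) ^ (W + 1) := hX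
    _ ≤ (a * W + q * T W + 1) ^ (W + 1) := by gcongr
    _ ≤ E d W := hd W h2

end Pool.Agent.Helper29.TD
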