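import Mathlib

/-!
# Block TD-U9: paths in forests with few additional vertices

`forest_path`: call `i` (with `i + 1 < L`) a down step if `par (p (i+1)) (p i)`.  If `i` is a down step and `i + 2 < L` then `i + 1` is a down step:
otherwise `par (p (i+1)) (p (i+2))` and `par (p (i+1)) (p i)`, so `p i = p (i+2)`, against injectivity.  So there is `t < L` such that all
`i < t` are up steps (`par (p i) (p (i+1))`) and all `i ≥ t` are down steps (`Nat.find`, or strong induction).  Then `h (p i) ≥ i` for `i ≤ t`,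
so `t ≤ H`, and `h (p (t + j)) + j ≤ h (p t) ≤ H`, so `L - 1 - t ≤ H`.
`windows`: let `q = l / (m + 1)`.  For each `b < q` the positions `b (m+1), ..., b (m+1) + m` are not all outside `B` (a run of `m + 1` positions), so there
is one with `p _ ∈ B`; different `b` give different positions and (injectivity) different elements of `B`: `q ≤ B.ncard`,
`l < (q + 1) (m + 1)`.
-/

set_option autoImplicit false

namespace Pool.Agent.Helper29.TD

theorem forest_path {V : Type} (par : V → V → Prop) (hu : ∀ u x y, par u x → par u y → x = y)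
    (h : V → ℕ) (H : ℕ) (hh : ∀ u x, par u x → h u < h x) (hH : ∀ x, h x ≤ H) {L : ℕ}
    (p : Fin L → V) (hp : Function.Injective p)
    (ha : ∀ i j : Fin L, i.1 + 1 = j.1 → par (p i) (p j) ∨ par (p j) (p i)) :
    L ≤ 2 * H + 1 := by
  have key : ∀ i : ℕ, ∀ hi : i < L, ∃ t : ℕ, ∃ ht : t < L, t ≤ i ∧ t ≤ h (p ⟨t, ht⟩) ∧
      h (p ⟨i, hi⟩) + (i - t) ≤ h (p ⟨t, ht⟩) ∧
      (t < i → ∃ j : Fin L, j.1 + 1 = i ∧ par (p ⟨i, hi⟩) (p j)) := by
    intro i
    induction i with
    | zero =>
      intro hi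
      exact ⟨0, hi, le_rfl, Nat.zero_le _, by simp, fun h => absurd h (lt_irrefl 0)⟩
    | succ i ih =>
      intro hi
      obtain ⟨t, ht, hti, h1, h2, h3⟩ := ih (by omega)
      have hs := ha ⟨i, by omega⟩ ⟨i + 1, hi⟩ rfl
      rcases Nat.lt_or_ge t i with hlt | hge
      · obtain ⟨j, hj, hpj⟩ := h3 hlt
        rcases hs with hs | hs
        · exfalso
          have e := hp (hu _ _ _ hpj hs)
          have e1 : j.1 = i + 1 := congrArg Fin.val e
          omega
        · refine ⟨t, ht, by omega, h1, ?_, fun _ => ⟨⟨i, by omega⟩, rfl, hs⟩⟩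
          have := hh _ _ hs
          omega
      · have e : t = i := le_antisymm hti hge
        subst e
        rcases hs with hs | hs
        · refine ⟨t + 1, hi, le_rfl, ?_, by simp, fun h => absurd h (lt_irrefl _)⟩
          have := hh _ _ hs
          omega
        · refine ⟨t, ht, by omega, h1, ?_, fun _ => ⟨⟨t, ht⟩, rfl, hs⟩⟩
          have := hh _ _ hs
          omega
  rcases Nat.eq_zero_or_pos L with h0 | h0
  · omega
  · obtain ⟨t, ht, h1, h2, h3, -⟩ := key (L - 1) (by omega)
    have := hH (p ⟨t, ht⟩)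
    omega

theorem windows {V : Type} (B : Set V) (hB : B.Finite) {l m : ℕ} (p : Fin l → V)
    (hp : Function.Injective p)
    (hr : ∀ a L : ℕ, a + L ≤ l → (∀ i : Fin l, a ≤ i.1 → i.1 < a + L → p i ∉ B) → L ≤ m) :
    l ≤ (B.ncard + 1) * (m + 1) := by
  classical
  have hq : ∀ b : Fin (l / (m + 1)), ∃ i : Fin l, b.1 * (m + 1) ≤ i.1 ∧
      i.1 < b.1 * (m + 1) + (m + 1) ∧ p i ∈ B := by
    intro b
    by_contra hcon
    push Not at hcon
    have h1 : (b.1 + 1) * (m + 1) ≤ l / (m + 1) * (m + 1) := Nat.mul_le_mul_right _ b.2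
    have h2 : l / (m + 1) * (m + 1) ≤ l := Nat.div_mul_le_self _ _
    have h3 : (b.1 + 1) * (m + 1) = b.1 * (m + 1) + (m + 1) := by ring
    have h4 := hr (b.1 * (m + 1)) (m + 1) (by omega) (fun i hi hi' => hcon i hi hi')
    omega
  choose g hg1 hg2 hg3 using hq
  have hinj : Function.Injective (fun b => p (g b)) := by
    intro b b' hb
    have e := congrArg Fin.val (hp hb)
    apply Fin.ext
    have h1 := hg1 b
    have h2 := hg2 b
    have h3 := hg1 b'
    have h4 := hg2 b'
    rw [e] at h1 h2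
    have e1 : b.1 * (m + 1) + (m + 1) = (b.1 + 1) * (m + 1) := by ring
    have e2 : b'.1 * (m + 1) + (m + 1) = (b'.1 + 1) * (m + 1) := by ring
    rw [e1] at h2
    rw [e2] at h4
    have h5 := lt_of_le_of_lt h1 h4
    have h6 := lt_of_le_of_lt h3 h2
    have h7 := Nat.lt_of_mul_lt_mul_right h5
    have h8 := Nat.lt_of_mul_lt_mul_right h6
    omega
  have hle : l / (m + 1) ≤ B.ncard := by
    have h1 : (Set.range (fun b => p (g b))).ncard = l / (m + 1) := by
      rw [← Set.image_univ, Set.ncard_image_of_injective _ hinj, Set.ncard_univ, Nat.card_eq_fintype_card,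
        Fintype.card_fin]
    rw [← h1]
    apply Set.ncard_le_ncard _ hB
    rintro _ ⟨b, rfl⟩
    exact hg3 b
  have h1 : l < (m + 1) * (l / (m + 1) + 1) := Nat.lt_mul_div_succ l (Nat.succ_pos m)
  have h2 : (m + 1) * (l / (m + 1) + 1) ≤ (m + 1) * (B.ncard + 1) :=
    Nat.mul_le_mul_left _ (by omega)
  have h3 : (m + 1) * (B.ncard + 1) = (B.ncard + 1) * (m + 1) := by ring
  omega

end Pool.Agent.Helper29.TD
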