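import Pool.Agent.Helper29.TD.PruneFam

/-!
# Block TD-A12: pruning along the depth-first decomposition

`IsPath.snoc`: clear (`Fin.lastCases`).
`prune_piece`: induction on `j`, with `a = K.ncard + q * T + 1`.  `j = 0`: `Fin.snoc c v` is a path with `W + 1` vertices.
Step, `k + (j + 1) = W`: `c' = Fin.snoc c v`, `Set.range c' = insert v (Set.range c)`, `U = {u | Adj I v u ∧ u ∉ Set.range c}`; the
induction hypothesis for `c'` and `u ∈ U` (`u ∉ Set.range c'` as `u ≠ v`; the last element of `c'` is `v`) gives the hypothesis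
`h` of `prune_family` for `c'`, `b = a ^ j`.  Let `X''` be the result; `X' := X'' ∪ {v}`.  By `comp_insert` the piece is
`insert v (⋃ u ∈ U, comp I (Set.range c') u)`.  `BF.consts` with `P0 = {(v, v)} ⊆ prs c' c'` and `BF.anti` (`prs c c ⊆ prs c' c'`).
`X'.ncard ≤ 1 + (a - 1) * a ^ j ≤ a ^ (j + 1)`.
`prune`: `prune_family` with `k = 0`, `c = Fin.elim0`, `U = Set.univ`, `b = a ^ W` and `prune_piece` with `j = W`; the union of all
pieces is everything (`comp_self`), `prs` of the empty tuples is `∅`; `(a - 1) * a ^ W ≤ a ^ (W + 1)`.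
-/

set_option autoImplicit false

namespace Pool.Agent.Helper29.TD

open Pool.Agent.Helper20.Spectra

variable {S : Type} {ar : S → ℕ} {M : Type}

lemma IsPath.snoc {I : Interp S ar M} {k : ℕ} {c : Fin k → M} {v : M} (hc : IsPath I c)
    (hv : v ∉ Set.range c) (ha : ∀ i : Fin k, i.1 + 1 = k → Adj I (c i) v) :
    IsPath I (Fin.snoc c v : Fin (k + 1) → M) := by
  refine ⟨?_, ?_⟩
  · intro i j
    refine Fin.lastCases ?_ (fun i => ?_) i <;> refine Fin.lastCases ?_ (fun j => ?_) j
    · intro _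
      rfl
    · intro h
      rw [Fin.snoc_last, Fin.snoc_castSucc] at h
      exact absurd ⟨j, h.symm⟩ hv
    · intro h
      rw [Fin.snoc_last, Fin.snoc_castSucc] at h
      exact absurd ⟨i, h⟩ hv
    · intro h
      rw [Fin.snoc_castSucc, Fin.snoc_castSucc] at h
      rw [hc.1 h]
  · intro i j
    refine Fin.lastCases ?_ (fun i => ?_) i <;> refine Fin.lastCases ?_ (fun j => ?_) j
    · intro h
      simp at h
    · intro h
      have := j.2
      simp only [Fin.val_last, Fin.val_castSucc] at h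
      omega
    · intro h
      rw [Fin.snoc_last, Fin.snoc_castSucc]
      refine ha i ?_
      simpa using h
    · intro h
      rw [Fin.snoc_castSucc, Fin.snoc_castSucc]
      exact hc.2 i j (by simpa using h)

theorem prune_piece [Finite M] [Finite S] (I : Interp S ar M) (q W T : ℕ) (K : Set M)
    (hW : PathLe I W) (hT : ∀ k, k ≤ W → Nat.card (Ty S ar q k) ≤ T) :
    ∀ (j k : ℕ), k + j = W → ∀ (c : Fin k → M) (v : M), IsPath I c → v ∉ Set.range c →
      (∀ i : Fin k, i.1 + 1 = k → Adj I (c i) v) →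
      ∃ X' : Set M, X' ⊆ comp I (Set.range c) v ∧ K ∩ comp I (Set.range c) v ⊆ X' ∧
        X'.ncard ≤ (K.ncard + q * T + 1) ^ j ∧
        BF I I X' (comp I (Set.range c) v) q (prs c c) := by
  intro j
  induction j with
  | zero =>
    intro k hk c v hc hv ha
    have h := hW (k + 1) _ (hc.snoc hv ha)
    omega
  | succ j ih =>
    intro k hk c v hc hv ha
    have hc' : IsPath I (Fin.snoc c v : Fin (k + 1) → M) := hc.snoc hv ha
    have hr : Set.range (Fin.snoc c v : Fin (k + 1) → M) = insert v (Set.range c) := by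
      ext x
      constructor
      · rintro ⟨i, rfl⟩
        refine Fin.lastCases ?_ (fun i => ?_) i
        · rw [Fin.snoc_last]
          exact Or.inl rfl
        · rw [Fin.snoc_castSucc]
          exact Or.inr ⟨i, rfl⟩
      · rintro (rfl | ⟨i, rfl⟩)
        · exact ⟨Fin.last k, Fin.snoc_last _ _⟩
        · exact ⟨i.castSucc, Fin.snoc_castSucc (α := fun _ => M) _ _ _⟩
    have hU : ∀ u ∈ {u | Adj I v u ∧ u ∉ Set.range c},
        u ∉ Set.range (Fin.snoc c v : Fin (k + 1) → M) := by
      rintro u ⟨h1, h2⟩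
      rw [hr]
      rintro (h3 | h3)
      · exact h1.1 h3.symm
      · exact h2 h3
    obtain ⟨X, hX1, hX2, hX3, hX4⟩ := prune_family I q T ((K.ncard + q * T + 1) ^ j) K
      (Fin.snoc c v : Fin (k + 1) → M) (hT (k + 1) (by omega)) {u | Adj I v u ∧ u ∉ Set.range c} hU
      (fun u hu => ih (k + 1) (by omega) _ u hc' (hU u hu) (fun i hi => by
        have e : i = Fin.last k := by
          apply Fin.ext
          rw [Fin.val_last]
          omega
        rw [e, Fin.snoc_last]
        exact hu.1))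
    have hcomp := comp_insert (I := I) hv
    rw [← hr] at hcomp
    refine ⟨insert v X, ?_, ?_, ?_, ?_⟩
    · rw [hcomp]
      exact Set.insert_subset_insert hX1
    · rw [hcomp]
      rintro x ⟨hxK, hx | hx⟩
      · exact Or.inl hx
      · exact Or.inr (hX2 ⟨hxK, hx⟩)
    · have h1 : (insert v X).ncard ≤ X.ncard + 1 := Set.ncard_insert_le v X
      have h2 : 1 ≤ (K.ncard + q * T + 1) ^ j := Nat.one_le_pow _ _ (Nat.succ_pos _)
      calc (insert v X).ncard ≤ X.ncard + 1 := h1
        _ ≤ (K.ncard + q * T) * (K.ncard + q * T + 1) ^ j + (K.ncard + q * T + 1) ^ j :=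
          add_le_add hX3 h2
        _ = (K.ncard + q * T + 1) ^ (j + 1) := by ring
    · have hP0 : ({(v, v)} : Set (M × M)) ⊆ prs (Fin.snoc c v : Fin (k + 1) → M)
          (Fin.snoc c v : Fin (k + 1) → M) := by
        rintro p rfl
        exact ⟨Fin.last k, by rw [Fin.snoc_last]⟩
      have h1 := hX4.consts hP0
      rw [Set.image_singleton, Set.image_singleton, Set.union_singleton,
        Set.union_singleton] at h1
      rw [hcomp]
      refine h1.anti ?_
      rintro p ⟨i, rfl⟩
      exact ⟨i.castSucc, by rw [Fin.snoc_castSucc (α := fun _ => M)]⟩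

theorem prune [Finite M] [Finite S] (I : Interp S ar M) (q W T : ℕ) (K : Set M)
    (hW : PathLe I W) (hT : ∀ k, k ≤ W → Nat.card (Ty S ar q k) ≤ T) :
    ∃ X' : Set M, K ⊆ X' ∧ X'.ncard ≤ (K.ncard + q * T + 1) ^ (W + 1) ∧
      BF I I X' Set.univ q ∅ := by
  have hr : ∀ u : M, u ∉ Set.range (Fin.elim0 : Fin 0 → M) := by
    rintro u ⟨i, _⟩
    exact i.elim0
  have hc : IsPath I (Fin.elim0 : Fin 0 → M) := ⟨fun i => i.elim0, fun i => i.elim0⟩
  obtain ⟨X, hX1, hX2, hX3, hX4⟩ := prune_family I q T ((K.ncard + q * T + 1) ^ W) K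
    (Fin.elim0 : Fin 0 → M) (hT 0 (Nat.zero_le _)) Set.univ (fun u _ => hr u)
    (fun u _ => prune_piece I q W T K hW hT W 0 (by omega) _ u hc (hr u) (fun i => i.elim0))
  have hU : (⋃ u ∈ (Set.univ : Set M), comp I (Set.range (Fin.elim0 : Fin 0 → M)) u) =
      Set.univ := by
    rw [Set.eq_univ_iff_forall]
    intro x
    rw [Set.mem_iUnion₂]
    exact ⟨x, Set.mem_univ x, comp_self⟩
  rw [hU] at hX2 hX4
  refine ⟨X, fun x hx => hX2 ⟨hx, Set.mem_univ x⟩, ?_, ?_⟩
  · calc X.ncard ≤ (K.ncard + q * T) * (K.ncard + q * T + 1) ^ W := hX3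
      _ ≤ (K.ncard + q * T + 1) * (K.ncard + q * T + 1) ^ W :=
        Nat.mul_le_mul_right _ (Nat.le_succ _)
      _ = (K.ncard + q * T + 1) ^ (W + 1) := by ring
  · refine hX4.anti (Set.empty_subset _)

end Pool.Agent.Helper29.TD
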