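import Pool.Agent.Helper29.TD.BF

/-!
# Block TD-A10: selection of a subfamily

For each type `θ` choose a subset `t_θ` of the pieces of type `θ` with `min q (number of the pieces of type θ)` elements
(`Finset.exists_subset_card_eq`), and let `t` be the union of `m` and all `t_θ` (`Finset.univ.biUnion`): `card t ≤ card m + ∑ θ, q`.
The pieces of type `θ` in `t` contain `t_θ`: if there are at least `q` pieces of type `θ` then there are at least `q` in `t`;
otherwise `t_θ` is the set of all of them, so `t.filter = s.filter`.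
`exists_many`: pigeonhole (`Finset.exists_lt_card_fiber_of_mul_lt_card_of_maps_to`).
-/

set_option autoImplicit false

namespace Pool.Agent.Helper29.TD

open Classical

theorem select {ι T : Type} [Finite T] (s m : Finset ι) (hm : m ⊆ s) (τ : ι → T) (q : ℕ) :
    ∃ t : Finset ι, m ⊆ t ∧ t ⊆ s ∧ t.card ≤ m.card + q * Nat.card T ∧
      ∀ θ : T, (s.filter (fun i => τ i = θ)).card = (t.filter (fun i => τ i = θ)).card ∨
        (q ≤ (s.filter (fun i => τ i = θ)).card ∧ q ≤ (t.filter (fun i => τ i = θ)).card) := by
  have := Fintype.ofFinite T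
  have h1 : ∀ θ : T, ∃ u : Finset ι, u ⊆ s.filter (fun i => τ i = θ) ∧
      u.card = min q (s.filter (fun i => τ i = θ)).card := fun θ =>
    Finset.exists_subset_card_eq (min_le_right _ _)
  choose u hu1 hu2 using h1
  have hus : ∀ θ, u θ ⊆ s := fun θ => (hu1 θ).trans (Finset.filter_subset _ _)
  have hts : m ∪ Finset.univ.biUnion u ⊆ s := by
    apply Finset.union_subset hm
    intro i hi
    obtain ⟨θ, _, hi⟩ := Finset.mem_biUnion.1 hi
    exact hus θ hi
  have hut : ∀ θ, u θ ⊆ (m ∪ Finset.univ.biUnion u).filter (fun i => τ i = θ) := by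
    intro θ i hi
    rw [Finset.mem_filter]
    refine ⟨Finset.mem_union_right _ (Finset.mem_biUnion.2 ⟨θ, Finset.mem_univ _, hi⟩), ?_⟩
    exact (Finset.mem_filter.1 (hu1 θ hi)).2
  refine ⟨m ∪ Finset.univ.biUnion u, Finset.subset_union_left, hts, ?_, fun θ => ?_⟩
  · refine (Finset.card_union_le _ _).trans (Nat.add_le_add_left ?_ _)
    refine Finset.card_biUnion_le.trans ?_
    refine (Finset.sum_le_sum (g := fun _ => q) fun θ _ => ?_).trans ?_
    · rw [hu2]
      exact min_le_left _ _
    · rw [Finset.sum_const, Finset.card_univ, Nat.card_eq_fintype_card, smul_eq_mul, mul_comm]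
  · rcases le_or_gt q (s.filter (fun i => τ i = θ)).card with h | h
    · right
      refine ⟨h, ?_⟩
      have h2 := Finset.card_le_card (hut θ)
      rw [hu2, min_eq_left h] at h2
      exact h2
    · left
      have h2 : u θ = s.filter (fun i => τ i = θ) := by
        apply Finset.eq_of_subset_of_card_le (hu1 θ)
        rw [hu2, min_eq_right h.le]
      have h3 : (m ∪ Finset.univ.biUnion u).filter (fun i => τ i = θ) ⊆
          s.filter (fun i => τ i = θ) := Finset.filter_subset_filter _ hts
      have h4 := hut θ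
      rw [h2] at h4
      rw [Finset.Subset.antisymm h3 h4]

theorem exists_many {ι T : Type} [Finite T] (s : Finset ι) (τ : ι → T) (q : ℕ)
    (h : q * Nat.card T < s.card) : ∃ t : Finset ι, t ⊆ s ∧ q < t.card ∧
      ∀ i ∈ t, ∀ j ∈ t, τ i = τ j := by
  have := Fintype.ofFinite T
  rw [Nat.card_eq_fintype_card, mul_comm, ← Finset.card_univ] at h
  obtain ⟨θ, _, hθ⟩ := Finset.exists_lt_card_fiber_of_mul_lt_card_of_maps_to
    (f := τ) (fun a _ => Finset.mem_univ (τ a)) h
  refine ⟨s.filter (fun i => τ i = θ), Finset.filter_subset _ _, hθ, fun i hi j hj => ?_⟩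
  rw [(Finset.mem_filter.1 hi).2, (Finset.mem_filter.1 hj).2]

end Pool.Agent.Helper29.TD
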