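import Pool.Agent.Helper29.TD.Comp
import Pool.Agent.Helper29.TD.Select
import Pool.Agent.Helper29.TD.BFFam
import Pool.Agent.Helper29.TD.Types

/-!
# Block TD-A11: pruning a family of pieces

`PIso.refl`, `Sep.mono`: clear.
`prune_family`: let `s` be the finset of the sets `comp I (range c) u`, `u ∈ U`, and choose for each `Y ∈ s` the pruned set
`g Y ⊆ Y`.  Let `m` be the finset of the pieces which meet `K`; the pieces are pairwise disjoint (`comp_sep`), so `card m ≤ K.ncard`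
(choose an element of `K ∩ Y` for `Y ∈ m`: injective).  Let `t` be from `select` with the types `τ Y = tp I Y q c`
(`finite_Ty`), `card t ≤ K.ncard + q * T`.  `X' := ⋃ Y ∈ t, g Y`.  An element of `K` in a piece `Y` is in `g Y`, and `Y ∈ m ⊆ t`.
The game: `BF.family` (with `J = I`, index types `Set M`) for the family `g Y` (`Y ∈ t`, types `tp I Y q c`) on the left and
the family `Y` (`Y ∈ s`) on the right, `P0 = prs c c`: if `tp I Y q c = tp I Z q c` then by `tp_eq_iff` (used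
twice) `tp I (g Y) q c = tp I Y q c = tp I Z q c`, hence `BF I I (g Y) Z q (prs c c)`.  The constants `c i` are not in the
pieces (`comp_not`).
`X'.ncard ≤ ∑ Y ∈ t, (g Y).ncard ≤ card t * b`.
-/

set_option autoImplicit false

namespace Pool.Agent.Helper29.TD

open Pool.Agent.Helper20.Spectra

variable {S : Type} {ar : S → ℕ} {M : Type}

lemma PIso.refl (I : Interp S ar M) {k : ℕ} (c : Fin k → M) : PIso I I (prs c c) := by
  have h : ∀ p ∈ prs c c, p.2 = p.1 := by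
    rintro p ⟨i, rfl⟩
    rfl
  refine ⟨fun p hp p' hp' => ?_, fun s v hv => ?_⟩
  · rw [h p hp, h p' hp']
  · have h2 : (fun i => (v i).2) = fun i => (v i).1 := funext fun i => h _ (hv i)
    rw [h2]

lemma Sep.mono {I : Interp S ar M} {A A' B B' : Set M} (h : Sep I A B) (hA : A' ⊆ A) (hB : B' ⊆ B) :
    Sep I A' B' := by
  refine ⟨fun x hx hxB => h.1 x (hA hx) (hB hxB), fun s v hv h1 h2 => ?_⟩
  obtain ⟨i, hi⟩ := h1
  obtain ⟨j, hj⟩ := h2
  exact h.2 s v hv ⟨i, hA hi⟩ ⟨j, hB hj⟩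

theorem prune_family [Finite M] [Finite S] (I : Interp S ar M) (q T b : ℕ) (K : Set M) {k : ℕ}
    (c : Fin k → M) (hT : Nat.card (Ty S ar q k) ≤ T) (U : Set M)
    (hU : ∀ u ∈ U, u ∉ Set.range c)
    (h : ∀ u ∈ U, ∃ X' : Set M, X' ⊆ comp I (Set.range c) u ∧ K ∩ comp I (Set.range c) u ⊆ X' ∧
      X'.ncard ≤ b ∧ BF I I X' (comp I (Set.range c) u) q (prs c c)) :
    ∃ X' : Set M, X' ⊆ ⋃ u ∈ U, comp I (Set.range c) u ∧
      K ∩ (⋃ u ∈ U, comp I (Set.range c) u) ⊆ X' ∧ X'.ncard ≤ (K.ncard + q * T) * b ∧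
      BF I I X' (⋃ u ∈ U, comp I (Set.range c) u) q (prs c c) := by
  classical
  have hfT : Finite (Ty S ar q k) := finite_Ty q k
  have hfin : (comp I (Set.range c) '' U).Finite := Set.toFinite _
  obtain ⟨s, hs⟩ : ∃ s : Finset (Set M), ∀ Y, Y ∈ s ↔ ∃ u ∈ U, comp I (Set.range c) u = Y :=
    ⟨hfin.toFinset, fun Y => by rw [Set.Finite.mem_toFinset]; exact Iff.rfl⟩
  have h' : ∀ Y : Set M, ∃ g : Set M, Y ∈ s →
      (g ⊆ Y ∧ K ∩ Y ⊆ g ∧ g.ncard ≤ b ∧ BF I I g Y q (prs c c)) := by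
    intro Y
    by_cases hY : Y ∈ s
    · obtain ⟨u, hu, rfl⟩ := (hs Y).1 hY
      obtain ⟨X', h1, h2, h3, h4⟩ := h u hu
      exact ⟨X', fun _ => ⟨h1, h2, h3, h4⟩⟩
    · exact ⟨∅, fun h => absurd h hY⟩
  choose g hg using h'
  have hsep : ∀ Y ∈ s, ∀ Z ∈ s, Y ≠ Z → Sep I Y Z := by
    intro Y hY Z hZ hne
    obtain ⟨u, hu, rfl⟩ := (hs Y).1 hY
    obtain ⟨v, hv, rfl⟩ := (hs Z).1 hZ
    exact comp_sep (hU u hu) (hU v hv) hne
  obtain ⟨m, hm⟩ : ∃ m : Finset (Set M), ∀ Y, Y ∈ m ↔ Y ∈ s ∧ (K ∩ Y).Nonempty :=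
    ⟨s.filter (fun Y => (K ∩ Y).Nonempty), fun Y => Finset.mem_filter⟩
  have hmK : m.card ≤ K.ncard := by
    rcases m.eq_empty_or_nonempty with h0 | ⟨Y₀, hY₀⟩
    · rw [h0, Finset.card_empty]
      exact Nat.zero_le _
    have h1 : ∀ Y ∈ m, ∃ x, x ∈ K ∩ Y := fun Y hY => ((hm Y).1 hY).2
    have hne : Nonempty M := ⟨(h1 Y₀ hY₀).choose⟩
    choose! f hf using h1
    rw [Set.ncard_eq_toFinset_card K (Set.toFinite K)]
    refine Finset.card_le_card_of_injOn f (fun Y hY => ?_) (fun Y hY Z hZ hYZ => ?_)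
    · simpa using (hf Y hY).1
    · by_contra hne
      have h2 := hsep Y ((hm Y).1 hY).1 Z ((hm Z).1 hZ).1 hne
      have h3 := (hf Y hY).2
      have h4 := (hf Z hZ).2
      rw [← hYZ] at h4
      exact h2.1 _ h3 h4
  obtain ⟨t, hmt, hts, htc, htt⟩ := select s m (fun Y hY => ((hm Y).1 hY).1)
    (fun Y : Set M => tp I Y q c) q
  have hUs : (⋃ u ∈ U, comp I (Set.range c) u) = ⋃ Y ∈ s, (fun Y : Set M => Y) Y := by
    ext x
    simp only [Set.mem_iUnion, exists_prop]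
    constructor
    · rintro ⟨u, hu, hx⟩
      exact ⟨_, (hs _).2 ⟨u, hu, rfl⟩, hx⟩
    · rintro ⟨Y, hY, hx⟩
      obtain ⟨u, hu, rfl⟩ := (hs Y).1 hY
      exact ⟨u, hu, hx⟩
  refine ⟨⋃ Y ∈ t, g Y, ?_, ?_, ?_, ?_⟩
  · intro x hx
    simp only [Set.mem_iUnion, exists_prop] at hx ⊢
    obtain ⟨Y, hY, hx⟩ := hx
    obtain ⟨u, hu, hYu⟩ := (hs Y).1 (hts hY)
    exact ⟨u, hu, hYu ▸ (hg Y (hts hY)).1 hx⟩
  · rintro x ⟨hxK, hx⟩
    simp only [Set.mem_iUnion, exists_prop] at hx ⊢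
    obtain ⟨u, hu, hx⟩ := hx
    have hY : comp I (Set.range c) u ∈ s := (hs _).2 ⟨u, hu, rfl⟩
    refine ⟨comp I (Set.range c) u, hmt ((hm _).2 ⟨hY, ⟨x, hxK, hx⟩⟩), (hg _ hY).2.1 ⟨hxK, hx⟩⟩
  · refine (Finset.set_ncard_biUnion_le t g).trans ?_
    refine (Finset.sum_le_card_nsmul t _ b (fun Y hY => (hg Y (hts hY)).2.2.1)).trans ?_
    rw [smul_eq_mul]
    refine Nat.mul_le_mul_right b (htc.trans ?_)
    exact Nat.add_le_add hmK (Nat.mul_le_mul_left q hT)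
  · rw [hUs]
    refine BF.family (I := I) (J := I) g (fun Y : Set M => Y) t s
      (fun Y : Set M => tp I Y q c) (fun Y : Set M => tp I Y q c) (P0 := prs c c)
      (fun Y hY Z hZ hne => (hsep Y (hts hY) Z (hts hZ) hne).mono (hg Y (hts hY)).1
        (hg Z (hts hZ)).1) hsep ?_ (PIso.refl I c) q ?_ ?_
    · have h1 : ∀ i, ∀ Y ∈ s, c i ∉ Y := by
        intro i Y hY hi
        obtain ⟨u, hu, rfl⟩ := (hs Y).1 hY
        exact comp_not (hU u hu) hi ⟨i, rfl⟩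
      rintro p ⟨i, rfl⟩
      exact ⟨fun Y hY hx => h1 i Y (hts hY) ((hg Y (hts hY)).1 hx), fun Y hY hx => h1 i Y hY hx⟩
    · intro Y hY Z hZ hYZ
      have h1 : tp I (g Y) q c = tp I Y q c :=
        (tp_eq_iff q c c).2 (hg Y (hts hY)).2.2.2
      exact (tp_eq_iff q c c).1 (h1.trans hYZ)
    · intro θ
      rcases htt θ with h1 | h1
      · exact Or.inl h1.symm
      · exact Or.inr ⟨h1.2, h1.1⟩

end Pool.Agent.Helper29.TD
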