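import Pool.Agent.Helper29.TD.Cp
import Pool.Agent.Helper29.TD.BFSat
import Pool.Agent.Helper29.TD.TyCard

/-!
# Block TD-A17: pumping

`q` from `BF.sat`, `T = T L` for the function of `card_Ty_mono S ar q`, `b = (q * T + 1) ^ L`, `p = b !`, `n0 = (q * T + 1) ^ (L + 1) + 1`.
Given `n ≥ n0` and `I`: `fat` gives `k`, `c`, `s`; `s` is not empty, let `Y₀ ∈ s`; `1 ≤ Y₀.ncard ≤ b` (`comp_self`), so `Y₀.ncard` divides
`p` (`Nat.dvd_factorial`); `r = p / Y₀.ncard`.  The structure `cpI I (Set.range c) Y₀ r` has `n + r * Y₀.ncard = n + p`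
elements, and satisfies `φ` by `cp_bf`, `BF.sat`, `Sat.univ`; transport to `Fin (n + p)` with `Sat.iso`.
-/

set_option autoImplicit false

namespace Pool.Agent.Helper29.TD

open Pool.Agent.Helper20.Spectra

variable {S : Type} {ar : S → ℕ}

theorem pump [Finite S] (φ : (RelLang S ar).Sentence) (L : ℕ) : ∃ p n0 : ℕ, 1 ≤ p ∧
    ∀ n, n0 ≤ n → ∀ I : Interp S ar (Fin n), Sat I φ → PathLe I L →
      ∃ I' : Interp S ar (Fin (n + p)), Sat I' φ := by
  classical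
  obtain ⟨q, hq⟩ := BF.sat φ
  obtain ⟨T, -, hT⟩ := card_Ty_mono S ar q
  refine ⟨Nat.factorial ((q * T L + 1) ^ L), (q * T L + 1) ^ (L + 1) + 1,
    Nat.factorial_pos _, ?_⟩
  intro n hn I hI hL
  obtain ⟨k, c, s, hs, hY, hcard, htp⟩ := fat I q L (T L) hL (fun k hk => hT L k hk) (by
    rw [Nat.card_eq_fintype_card, Fintype.card_fin]
    omega)
  obtain ⟨Y₀, hY₀⟩ : s.Nonempty := Finset.card_pos.1 (by omega)
  have h1 : Y₀.ncard ≤ (q * T L + 1) ^ L := hcard Y₀ hY₀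
  have h2 : 0 < Y₀.ncard := by
    obtain ⟨u, hu, hYu⟩ := hY Y₀ hY₀
    rw [Set.ncard_pos (Set.toFinite _), hYu]
    exact ⟨u, comp_self⟩
  obtain ⟨r, hr⟩ : Y₀.ncard ∣ Nat.factorial ((q * T L + 1) ^ L) := Nat.dvd_factorial h2 h1
  have hbf := cp_bf I q c s hs.le hY htp Y₀ hY₀ r
  have hsat : Sat (cpI I (Set.range c) Y₀ r) φ := by
    rw [← Sat.univ, ← hq _ _ _ _ _ _ hbf, Sat.univ]
    exact hI
  have hcardM : Nat.card (Fin n ⊕ (Fin r × Y₀)) = n + Nat.factorial ((q * T L + 1) ^ L) := by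
    rw [Nat.card_sum, Nat.card_prod, Nat.card_eq_fintype_card (α := Fin n), Fintype.card_fin,
      Nat.card_eq_fintype_card (α := Fin r), Fintype.card_fin, Nat.card_coe_set_eq, hr, mul_comm]
  let e : (Fin n ⊕ (Fin r × Y₀)) ≃ Fin (n + Nat.factorial ((q * T L + 1) ^ L)) :=
    (Finite.equivFin _).trans (finCongr hcardM)
  exact ⟨_, (Sat.iso _ e φ).1 hsat⟩

end Pool.Agent.Helper29.TD
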