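import Pool.Agent.Helper29.TD.Desc

/-!
# Block TD-U7: representatives of the values

`code_lev`: a node whose parent is a cell is of level `d` (`par_kind`; a cell is not a node, a node is not a dummy).
`code_par`: the parent of a node of level `d` is a cell (`par_ex`, `par_kind`, `lev_uniq`).
`rep_lev`: from `code_lev`.  `rep_ex`: `m < K d`, so some `y` of level `d` has the value `m` (`rng`); the cell `c` of `(y, y)` (`Cells.pair`) has a
row code `r` and a column code `s` with values `m`; `r` is a representative.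
`rep_uniq`: if `x`, `x'` are representatives with the same value, with cells `c`, `c'`, then `CellOf c x x` and `CellOf c' x x` (use
`Vals.eq` for level `d`), so `c = c'` and `x = x'` by `rowc`.
`rep_card`: bijection with the numbers below `K d`.
`K_two`: `2 ≤ K 0` (`big`, `zero`) and `K (i + 1) > 2 ^ (K i - 1) ≥ 2` by induction, so `2 ≤ K i` for all `i ≤ d`.
`K_iter`: `K 0 = (Nat.clog 2)^[d] (K d)` (`clog_of_bounds`; show `K (d - j) = (Nat.clog 2)^[j] (K d)` by induction on `j ≤ d`).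
`dum_card`: a dummy `z` has a parent `c` (`par_ex`), a cell (`par_kind`, `dis`); the column code of `c` has the value `0` and the
row code of `c` a value `a z` with `a z + 1 < K d` (`dumc`, `Vals.lt`, `Vals.rng`); `a` is injective: if `a z = a z'` then the two cells are both
`CellOf _ r s` for the codes `r`, `s` of the first cell, so they are equal by `pair`, and `z = z'` by `dumu`.
-/

set_option autoImplicit false

namespace Pool.Agent.Helper29.TD

open Pool.Agent.Helper29.Prefix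

variable {Γ V : Type} {d c0 : ℕ} {W : Wang Γ} {R : St Γ V} {f : ℕ → V → ℕ} {K : ℕ → ℕ}

lemma code_lev (h : Tree d c0 R) {r c : V} (hr : R.node r) (hc : R.cell c) (hp : R.par r c) :
    Lev R d r := by
  rcases h.par_kind r c hp with h1 | ⟨i, hi, h1, h2⟩ | h1
  · exact h1.1
  · exact absurd ⟨hc, h2.1⟩ (h.dis c).2.2.2.1
  · exact absurd ⟨hr, h1.1⟩ (h.dis r).2.2.2.2.2

private lemma lev_node88 {i : ℕ} {x : V} (hx : Lev R i x) : R.node x := by
  cases i with
  | zero => exact hx.1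
  | succ i => exact hx.1

lemma code_par (h : Tree d c0 R) {r : V} (hr : Lev R d r) : ∃ c, R.cell c ∧ R.par r c := by
  have hn : R.node r := lev_node88 hr
  obtain ⟨c, hc⟩ := h.par_ex r (Or.inl hn)
  rcases h.par_kind r c hc with h1 | ⟨i, hi, h1, h2⟩ | h1
  · exact ⟨c, h1.2, hc⟩
  · exact absurd ⟨h1, hr⟩ (h.lev_uniq i (by omega) d (by omega) (by omega) r)
  · exact absurd ⟨hn, h1.1⟩ (h.dis r).2.2.2.2.2

lemma rep_lev (h : Tree d c0 R) {x : V} (hx : Rep d R x) : Lev R d x := by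
  obtain ⟨hn, _, c, s, hc, hxc, _⟩ := hx
  exact code_lev h hn hc hxc

lemma rep_ex (h : Cond d c0 W R) (hV : Vals d R f K) {m : ℕ} (hm : m < K d) :
    ∃ x, Rep d R x ∧ f d x = m := by
  obtain ⟨y, hy, hym⟩ := (hV.rng d le_rfl m).mpr hm
  obtain ⟨c, ⟨hc, ⟨r, hrc, hrn, hrr, hry⟩, s, hsc, hsn, hsr, hsy⟩, _⟩ := h.2.pair y y hy hy
  have hrl : Lev R d r := code_lev h.1 hrn hc hrc
  have hsl : Lev R d s := code_lev h.1 hsn hc hsc
  have h1 := (hV.eq d le_rfl r y hrl hy).mp hry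
  have h2 := (hV.eq d le_rfl s y hsl hy).mp hsy
  refine ⟨r, ⟨hrn, hrr, c, s, hc, hrc, hsc, hsn, hsr, ?_⟩, h1.trans hym⟩
  exact (hV.eq d le_rfl r s hrl hsl).mpr (h1.trans h2.symm)

lemma rep_uniq (h : Cond d c0 W R) (hV : Vals d R f K) {x x' : V} (hx : Rep d R x)
    (hx' : Rep d R x') (he : f d x = f d x') : x = x' := by
  have hxl := rep_lev h.1 hx
  have hxl' := rep_lev h.1 hx'
  obtain ⟨hxn, hxr, c, s, hc, hxc, hsc, hsn, hsr, hxs⟩ := hx
  obtain ⟨hxn', hxr', c', s', hc', hxc', hsc', hsn', hsr', hxs'⟩ := hx'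
  have hsl : Lev R d s := code_lev h.1 hsn hc hsc
  have hsl' : Lev R d s' := code_lev h.1 hsn' hc' hsc'
  have h1 := (hV.eq d le_rfl x s hxl hsl).mp hxs
  have h2 := (hV.eq d le_rfl x' s' hxl' hsl').mp hxs'
  obtain ⟨c1, _, hu⟩ := h.2.pair x x hxl hxl
  have h3 : CellOf d R c x x :=
    ⟨hc, ⟨x, hxc, hxn, hxr, (hV.eq d le_rfl x x hxl hxl).mpr rfl⟩,
      s, hsc, hsn, hsr, (hV.eq d le_rfl s x hsl hxl).mpr h1.symm⟩
  have h4 : CellOf d R c' x x :=
    ⟨hc', ⟨x', hxc', hxn', hxr', (hV.eq d le_rfl x' x hxl' hxl).mpr he.symm⟩,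
      s', hsc', hsn', hsr', (hV.eq d le_rfl s' x hsl' hxl).mpr (h2.symm.trans he.symm)⟩
  have h5 : c' = c := (hu c' h4).trans (hu c h3).symm
  obtain ⟨r, _, _, _, hr⟩ := h.2.rowc c hc
  rw [h5] at hxc'
  rw [hr x hxc hxn hxr, hr x' hxc' hxn' hxr']

lemma rep_card [Finite V] (h : Cond d c0 W R) (hV : Vals d R f K) :
    Nat.card {x // Rep d R x} = K d := by
  let g : {x // Rep d R x} → Fin (K d) :=
    fun x => ⟨f d x.1, (hV.rng d le_rfl _).mp ⟨x.1, rep_lev h.1 x.2, rfl⟩⟩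
  have hg : Function.Bijective g := by
    constructor
    · intro x y hxy
      exact Subtype.ext (rep_uniq h hV x.2 y.2 (congrArg Fin.val hxy))
    · intro m
      obtain ⟨x, hx, hxm⟩ := rep_ex h hV m.2
      exact ⟨⟨x, hx⟩, Fin.ext hxm⟩
  rw [Nat.card_eq_of_bijective g hg, Nat.card_fin]

lemma K_two [Finite V] (h : Tree d c0 R) (hc : 2 ≤ c0) (hV : Vals d R f K) {i : ℕ} (hi : i ≤ d) :
    2 ≤ K i := by
  induction i with
  | zero =>
    obtain ⟨g, hg, hga⟩ := h.big
    have h1 : Nat.card (Fin c0) ≤ Nat.card {a // R.apex a} := by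
      apply Nat.card_le_card_of_injective (fun j : Fin c0 => (⟨g j, hga j⟩ : {a // R.apex a}))
      intro j j' hjj
      exact hg (congrArg Subtype.val hjj)
    rw [Nat.card_fin, ← hV.zero] at h1
    omega
  | succ i ih =>
    have h1 := ih (by omega)
    have h2 := hV.low i (by omega)
    have h3 : 2 ^ 1 ≤ 2 ^ (K i - 1) := Nat.pow_le_pow_right (by norm_num) (by omega)
    omega

lemma K_iter [Finite V] (h : Tree d c0 R) (hc : 2 ≤ c0) (hV : Vals d R f K) :
    (Nat.clog 2)^[d] (K d) = K 0 := by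
  have key : ∀ j, j ≤ d → (Nat.clog 2)^[j] (K d) = K (d - j) := by
    intro j
    induction j with
    | zero => intro _; rfl
    | succ j ih =>
      intro hj
      rw [Function.iterate_succ_apply', ih (by omega)]
      have h1 : d - j = d - (j + 1) + 1 := by omega
      rw [h1]
      have h2 := K_two h hc hV (i := d - (j + 1)) (by omega)
      exact clog_of_bounds (by omega) (hV.low _ (by omega)) (hV.upp _ (by omega))
  have h1 := key d le_rfl
  rwa [Nat.sub_self] at h1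

/-- the data of a dummy -/
private lemma dum_data88 [Finite V] (h : Cond d c0 W R) (hc : 2 ≤ c0) (hV : Vals d R f K) {z : V}
    (hz : R.dum z) : ∃ c r s, R.par z c ∧ Lev R d r ∧ Lev R d s ∧ CellOf d R c r s ∧
      f d s = 0 ∧ f d r + 1 < K d := by
  obtain ⟨c, hzc⟩ := h.1.par_ex z (Or.inr hz)
  have hcc : R.cell c := by
    rcases h.1.par_kind z c hzc with h1 | ⟨i, hi, h1, h2⟩ | h1
    · exact h1.2
    · exact absurd ⟨lev_node88 h1, hz⟩ (h.1.dis z).2.2.2.2.2
    · exact h1.2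
  obtain ⟨r, hrc, hrn, hrr, _⟩ := h.2.rowc c hcc
  obtain ⟨s, hsc, hsn, hsr, _⟩ := h.2.colc c hcc
  have hrl : Lev R d r := code_lev h.1 hrn hcc hrc
  have hsl : Lev R d s := code_lev h.1 hsn hcc hsc
  obtain ⟨h1, h2⟩ := h.2.dumc z c hz hzc
  have hK := K_two h.1 hc hV (i := d) le_rfl
  refine ⟨c, r, s, hzc, hrl, hsl,
    ⟨hcc, ⟨r, hrc, hrn, hrr, (hV.eq d le_rfl r r hrl hrl).mpr rfl⟩,
      s, hsc, hsn, hsr, (hV.eq d le_rfl s s hsl hsl).mpr rfl⟩, ?_, ?_⟩
  · obtain ⟨w, hw, hw0⟩ := (hV.rng d le_rfl 0).mpr (by omega)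
    have h3 := h1 s hsc hsn hsr w hw
    rw [hV.lt d le_rfl w s hw hsl] at h3
    omega
  · obtain ⟨w, hw, hrw⟩ := h2 r hrc hrn hrr
    have h3 := (hV.lt d le_rfl r w hrl hw).mp hrw
    have h4 := (hV.rng d le_rfl (f d w)).mp ⟨w, hw, rfl⟩
    omega

lemma dum_card [Finite V] (h : Cond d c0 W R) (hc : 2 ≤ c0) (hV : Vals d R f K) :
    Nat.card {x // R.dum x} < K d := by
  choose c r s hzc hrl hsl hcell hs0 hrK using
    fun z : {x // R.dum x} => dum_data88 h hc hV z.2
  have hK := K_two h.1 hc hV (i := d) le_rfl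
  have h1 : Nat.card {x // R.dum x} ≤ Nat.card (Fin (K d - 1)) := by
    apply Nat.card_le_card_of_injective
      (fun z : {x // R.dum x} => (⟨f d (r z), by have := hrK z; omega⟩ : Fin (K d - 1)))
    intro z z' hzz
    have he : f d (r z) = f d (r z') := congrArg Fin.val hzz
    obtain ⟨c1, _, hu⟩ := h.2.pair (r z) (s z) (hrl z) (hsl z)
    obtain ⟨hc', ⟨r1, hr1, hn1, hrr1, he1⟩, s1, hs1, hsn1, hsr1, hse1⟩ := hcell z'
    have hr1l : Lev R d r1 := code_lev h.1 hn1 hc' hr1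
    have hs1l : Lev R d s1 := code_lev h.1 hsn1 hc' hs1
    have h2 := (hV.eq d le_rfl r1 (r z') hr1l (hrl z')).mp he1
    have h3 := (hV.eq d le_rfl s1 (s z') hs1l (hsl z')).mp hse1
    have h4 : CellOf d R (c z') (r z) (s z) :=
      ⟨hc', ⟨r1, hr1, hn1, hrr1, (hV.eq d le_rfl r1 (r z) hr1l (hrl z)).mpr (h2.trans he.symm)⟩,
        s1, hs1, hsn1, hsr1, (hV.eq d le_rfl s1 (s z) hs1l (hsl z)).mpr
          (h3.trans ((hs0 z').trans (hs0 z).symm))⟩
    have h5 : c z' = c z := (hu _ h4).trans (hu _ (hcell z)).symm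
    have h6 := hzc z'
    rw [h5] at h6
    exact Subtype.ext (h.2.dumu z.1 z'.1 (c z) z.2 z'.2 (hzc z) h6)
  rw [Nat.card_fin] at h1
  omega

end Pool.Agent.Helper29.TD
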