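import Pool.Agent.Helper29.TD.Defs

/-!
# Short codes of tilings: the vocabulary and uniform definability

`Def Γ r P`: the condition `P V R v` on a structure `(V, R)` and a tuple `v` of `r` elements is definable by one first-order
formula, for all structures at the same time (as in `Pool/Agent/Helper20/OP/Def.lean`).
-/

set_option autoImplicit false

namespace Pool.Agent.Helper29.TD

open FirstOrder FirstOrder.Language Pool.Agent.Helper20.Spectra

/-- the symbols -/
inductive Sy (Γ : Type) : Type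
  | ord | par | att | apex | cell | node | dum | bit | row
  | tile (γ : Γ)

/-- the arities -/
def Sy.ar {Γ : Type} : Sy Γ → ℕ
  | .ord => 2
  | .par => 2
  | .att => 2
  | _ => 1

instance {Γ : Type} [Finite Γ] : Finite (Sy Γ) := by
  apply Finite.of_surjective (fun x : Fin 9 ⊕ Γ => (match x with
    | Sum.inl i => ![Sy.ord, Sy.par, Sy.att, Sy.apex, Sy.cell, Sy.node, Sy.dum, Sy.bit, Sy.row] i
    | Sum.inr γ => Sy.tile γ : Sy Γ))
  intro s
  cases s with
  | ord => exact ⟨Sum.inl 0, rfl⟩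
  | par => exact ⟨Sum.inl 1, rfl⟩
  | att => exact ⟨Sum.inl 2, rfl⟩
  | apex => exact ⟨Sum.inl 3, rfl⟩
  | cell => exact ⟨Sum.inl 4, rfl⟩
  | node => exact ⟨Sum.inl 5, rfl⟩
  | dum => exact ⟨Sum.inl 6, rfl⟩
  | bit => exact ⟨Sum.inl 7, rfl⟩
  | row => exact ⟨Sum.inl 8, rfl⟩
  | tile γ => exact ⟨Sum.inr γ, rfl⟩

/-- structures with universe `V`: `ord` orders the apices, `par x y`: `y` is the parent of `x`, `att x a`: the leaf `x` is
attached to the apex `a` -/
structure St (Γ V : Type) where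
  ord : V → V → Prop
  par : V → V → Prop
  att : V → V → Prop
  apex : V → Prop
  cell : V → Prop
  node : V → Prop
  dum : V → Prop
  bit : V → Prop
  row : V → Prop
  tile : Γ → V → Prop

/-- the interpretation of the symbols -/
def St.toI {Γ V : Type} (R : St Γ V) : Interp (Sy Γ) Sy.ar V
  | .ord => fun v => R.ord (v (0 : Fin 2)) (v (1 : Fin 2))
  | .par => fun v => R.par (v (0 : Fin 2)) (v (1 : Fin 2))
  | .att => fun v => R.att (v (0 : Fin 2)) (v (1 : Fin 2))
  | .apex => fun v => R.apex (v (0 : Fin 1))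
  | .cell => fun v => R.cell (v (0 : Fin 1))
  | .node => fun v => R.node (v (0 : Fin 1))
  | .dum => fun v => R.dum (v (0 : Fin 1))
  | .bit => fun v => R.bit (v (0 : Fin 1))
  | .row => fun v => R.row (v (0 : Fin 1))
  | .tile γ => fun v => R.tile γ (v (0 : Fin 1))

/-- the structure given by an interpretation -/
def St.ofI {Γ V : Type} (I : Interp (Sy Γ) Sy.ar V) : St Γ V where
  ord := fun x y => I .ord (![x, y] : Fin 2 → V)
  par := fun x y => I .par (![x, y] : Fin 2 → V)
  att := fun x y => I .att (![x, y] : Fin 2 → V)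
  apex := fun x => I .apex (![x] : Fin 1 → V)
  cell := fun x => I .cell (![x] : Fin 1 → V)
  node := fun x => I .node (![x] : Fin 1 → V)
  dum := fun x => I .dum (![x] : Fin 1 → V)
  bit := fun x => I .bit (![x] : Fin 1 → V)
  row := fun x => I .row (![x] : Fin 1 → V)
  tile := fun γ x => I (.tile γ) (![x] : Fin 1 → V)

lemma vec1_eq {V : Type} (v : Fin 1 → V) : (![v 0] : Fin 1 → V) = v := by
  funext i
  fin_cases i
  rfl

lemma vec2_eq {V : Type} (v : Fin 2 → V) : (![v 0, v 1] : Fin 2 → V) = v := by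
  funext i
  fin_cases i <;> rfl

lemma St.toI_ofI {Γ V : Type} (I : Interp (Sy Γ) Sy.ar V) : (St.ofI I).toI = I := by
  funext s v
  cases s with
  | ord => exact congrArg (I .ord) (vec2_eq (V := V) v)
  | par => exact congrArg (I .par) (vec2_eq (V := V) v)
  | att => exact congrArg (I .att) (vec2_eq (V := V) v)
  | apex => exact congrArg (I .apex) (vec1_eq (V := V) v)
  | cell => exact congrArg (I .cell) (vec1_eq (V := V) v)
  | node => exact congrArg (I .node) (vec1_eq (V := V) v)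
  | dum => exact congrArg (I .dum) (vec1_eq (V := V) v)
  | bit => exact congrArg (I .bit) (vec1_eq (V := V) v)
  | row => exact congrArg (I .row) (vec1_eq (V := V) v)
  | tile γ => exact congrArg (I (.tile γ)) (vec1_eq (V := V) v)

/-- uniformly definable conditions on a structure `(V, R)` and `r` elements -/
def Def (Γ : Type) (r : ℕ) (P : ∀ (V : Type), St Γ V → (Fin r → V) → Prop) : Prop :=
  ∃ φ : (RelLang (Sy Γ) Sy.ar).BoundedFormula Empty r, ∀ (V : Type) (R : St Γ V) (v : Fin r → V),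
    @BoundedFormula.Realize _ V (mkS R.toI) _ _ φ default v ↔ P V R v

/-- definable conditions on a structure -/
def Def0 (Γ : Type) (P : ∀ (V : Type), St Γ V → Prop) : Prop := Def Γ 0 (fun V R _ => P V R)

/-- definable conditions on one element -/
def Def1 (Γ : Type) (P : ∀ (V : Type), St Γ V → V → Prop) : Prop := Def Γ 1 (fun V R v => P V R (v 0))

/-- definable conditions on two elements -/
def Def2 (Γ : Type) (P : ∀ (V : Type), St Γ V → V → V → Prop) : Prop :=
  Def Γ 2 (fun V R v => P V R (v 0) (v 1))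

/-- definable conditions on three elements -/
def Def3 (Γ : Type) (P : ∀ (V : Type), St Γ V → V → V → V → Prop) : Prop :=
  Def Γ 3 (fun V R v => P V R (v 0) (v 1) (v 2))

namespace Def

variable {Γ : Type} {r : ℕ}

lemma congr {P Q : ∀ (V : Type), St Γ V → (Fin r → V) → Prop} (h : Def Γ r P)
    (hPQ : ∀ V R v, Q V R v ↔ P V R v) : Def Γ r Q := by
  obtain ⟨ψ, h⟩ := h
  exact ⟨ψ, fun M R v => (h M R v).trans (hPQ M R v).symm⟩

lemma const (p : Prop) : Def Γ r (fun _ _ _ => p) := by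
  by_cases hp : p
  · refine ⟨⊤, fun M R v => ?_⟩
    let _ := mkS R.toI
    simp [hp]
  · refine ⟨⊥, fun M R v => ?_⟩
    let _ := mkS R.toI
    simp [hp]

lemma eq (i j : Fin r) : Def Γ r (fun _ _ v => v i = v j) := by
  refine ⟨(Term.var (Sum.inr i)).bdEqual (Term.var (Sum.inr j)), fun M R v => ?_⟩
  let _ := mkS R.toI
  simp [BoundedFormula.realize_bdEqual]

lemma rel (s : Sy Γ) (f : Fin s.ar → Fin r) :
    Def Γ r (fun _ R v => R.toI s (fun k => v (f k))) := by
  let ρ : (RelLang (Sy Γ) Sy.ar).Relations s.ar := (⟨s, rfl⟩ : {t : Sy Γ // t.ar = s.ar})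
  refine ⟨Relations.boundedFormula (L := RelLang (Sy Γ) Sy.ar) ρ
    (fun k => Term.var (Sum.inr (f k))), fun M R v => ?_⟩
  let _ := mkS R.toI
  rw [BoundedFormula.realize_rel]
  rfl

lemma ord (i j : Fin r) : Def Γ r (fun _ R v => R.ord (v i) (v j)) :=
  (Def.rel (.ord : Sy Γ) (![i, j] : Fin 2 → Fin r)).congr (fun _ _ _ => Iff.rfl)

lemma par (i j : Fin r) : Def Γ r (fun _ R v => R.par (v i) (v j)) :=
  (Def.rel (.par : Sy Γ) (![i, j] : Fin 2 → Fin r)).congr (fun _ _ _ => Iff.rfl)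

lemma att (i j : Fin r) : Def Γ r (fun _ R v => R.att (v i) (v j)) :=
  (Def.rel (.att : Sy Γ) (![i, j] : Fin 2 → Fin r)).congr (fun _ _ _ => Iff.rfl)

lemma apex (i : Fin r) : Def Γ r (fun _ R v => R.apex (v i)) :=
  (Def.rel (.apex : Sy Γ) (![i] : Fin 1 → Fin r)).congr (fun _ _ _ => Iff.rfl)

lemma cell (i : Fin r) : Def Γ r (fun _ R v => R.cell (v i)) :=
  (Def.rel (.cell : Sy Γ) (![i] : Fin 1 → Fin r)).congr (fun _ _ _ => Iff.rfl)

lemma node (i : Fin r) : Def Γ r (fun _ R v => R.node (v i)) :=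
  (Def.rel (.node : Sy Γ) (![i] : Fin 1 → Fin r)).congr (fun _ _ _ => Iff.rfl)

lemma dum (i : Fin r) : Def Γ r (fun _ R v => R.dum (v i)) :=
  (Def.rel (.dum : Sy Γ) (![i] : Fin 1 → Fin r)).congr (fun _ _ _ => Iff.rfl)

lemma bit (i : Fin r) : Def Γ r (fun _ R v => R.bit (v i)) :=
  (Def.rel (.bit : Sy Γ) (![i] : Fin 1 → Fin r)).congr (fun _ _ _ => Iff.rfl)

lemma row (i : Fin r) : Def Γ r (fun _ R v => R.row (v i)) :=
  (Def.rel (.row : Sy Γ) (![i] : Fin 1 → Fin r)).congr (fun _ _ _ => Iff.rfl)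

lemma tile (γ : Γ) (i : Fin r) : Def Γ r (fun _ R v => R.tile γ (v i)) :=
  (Def.rel (.tile γ : Sy Γ) (![i] : Fin 1 → Fin r)).congr (fun _ _ _ => Iff.rfl)

lemma not {P : ∀ (V : Type), St Γ V → (Fin r → V) → Prop} (h : Def Γ r P) :
    Def Γ r (fun V R v => ¬ P V R v) := by
  obtain ⟨ψ, h⟩ := h
  refine ⟨ψ.not, fun M R v => ?_⟩
  let _ := mkS R.toI
  rw [BoundedFormula.realize_not, h]

lemma and {P Q : ∀ (V : Type), St Γ V → (Fin r → V) → Prop} (h : Def Γ r P)
    (h' : Def Γ r Q) : Def Γ r (fun V R v => P V R v ∧ Q V R v) := by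
  obtain ⟨ψ, h⟩ := h
  obtain ⟨ψ', h'⟩ := h'
  refine ⟨ψ ⊓ ψ', fun M R v => ?_⟩
  let _ := mkS R.toI
  rw [BoundedFormula.realize_inf, h, h']

lemma or {P Q : ∀ (V : Type), St Γ V → (Fin r → V) → Prop} (h : Def Γ r P)
    (h' : Def Γ r Q) : Def Γ r (fun V R v => P V R v ∨ Q V R v) :=
  (h.not.and h'.not).not.congr (fun V R v => by tauto)

lemma imp {P Q : ∀ (V : Type), St Γ V → (Fin r → V) → Prop} (h : Def Γ r P)
    (h' : Def Γ r Q) : Def Γ r (fun V R v => P V R v → Q V R v) :=
  (h.not.or h').congr (fun V R v => by tauto)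

lemma iff {P Q : ∀ (V : Type), St Γ V → (Fin r → V) → Prop} (h : Def Γ r P)
    (h' : Def Γ r Q) : Def Γ r (fun V R v => (P V R v ↔ Q V R v)) :=
  ((h.imp h').and (h'.imp h)).congr (fun V R v => by tauto)

lemma all {P : ∀ (V : Type), St Γ V → (Fin r → V) → V → Prop}
    (h : Def Γ (r + 1) (fun V R v => P V R (fun i => v i.castSucc) (v (Fin.last r)))) :
    Def Γ r (fun V R v => ∀ x : V, P V R v x) := by
  obtain ⟨ψ, h⟩ := h
  refine ⟨ψ.all, fun M R v => ?_⟩
  let _ := mkS R.toI
  rw [BoundedFormula.realize_all]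
  refine forall_congr' (fun x => ?_)
  rw [h]
  simp only [Fin.snoc_castSucc, Fin.snoc_last]

lemma ex {P : ∀ (V : Type), St Γ V → (Fin r → V) → V → Prop}
    (h : Def Γ (r + 1) (fun V R v => P V R (fun i => v i.castSucc) (v (Fin.last r)))) :
    Def Γ r (fun V R v => ∃ x : V, P V R v x) := by
  obtain ⟨ψ, h⟩ := h
  refine ⟨ψ.ex, fun M R v => ?_⟩
  let _ := mkS R.toI
  rw [BoundedFormula.realize_ex]
  refine exists_congr (fun x => ?_)
  rw [h]
  simp only [Fin.snoc_castSucc, Fin.snoc_last]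

lemma all_finset {γ : Type} (s : Finset γ)
    {P : γ → ∀ (V : Type), St Γ V → (Fin r → V) → Prop} (h : ∀ c ∈ s, Def Γ r (P c)) :
    Def Γ r (fun V R v => ∀ c ∈ s, P c V R v) := by
  classical
  induction s using Finset.induction_on with
  | empty => exact (Def.const True).congr (fun V R v => by simp)
  | insert c s hc ih =>
    refine ((h c (Finset.mem_insert_self c s)).and
      (ih (fun d hd => h d (Finset.mem_insert_of_mem hd)))).congr (fun V R v => ?_)
    simp only [Finset.forall_mem_insert]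

lemma all_fin {γ : Type} [Finite γ] {P : γ → ∀ (V : Type), St Γ V → (Fin r → V) → Prop}
    (h : ∀ c, Def Γ r (P c)) : Def Γ r (fun V R v => ∀ c, P c V R v) := by
  have := Fintype.ofFinite γ
  exact (all_finset Finset.univ (fun c _ => h c)).congr (fun V R v => by simp)

lemma ex_fin {γ : Type} [Finite γ] {P : γ → ∀ (V : Type), St Γ V → (Fin r → V) → Prop}
    (h : ∀ c, Def Γ r (P c)) : Def Γ r (fun V R v => ∃ c, P c V R v) := by
  refine (Def.all_fin (P := fun c V R v => ¬ P c V R v) (fun c => (h c).not)).not.congr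
    (fun V R v => ?_)
  push Not
  rfl

/-- bounded natural numbers as indices -/
lemma all_lt (n : ℕ) {P : ℕ → ∀ (V : Type), St Γ V → (Fin r → V) → Prop}
    (h : ∀ c, Def Γ r (P c)) : Def Γ r (fun V R v => ∀ c, c < n → P c V R v) :=
  (all_finset (Finset.range n) (fun c _ => h c)).congr (fun V R v => by simp)

lemma ex_lt (n : ℕ) {P : ℕ → ∀ (V : Type), St Γ V → (Fin r → V) → Prop}
    (h : ∀ c, Def Γ r (P c)) : Def Γ r (fun V R v => ∃ c, c < n ∧ P c V R v) := by
  refine (Def.all_lt n (P := fun c V R v => ¬ P c V R v) (fun c => (h c).not)).not.congr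
    (fun V R v => ?_)
  push Not
  rfl

/-- renaming of variables -/
lemma ren {r' : ℕ} {P : ∀ (V : Type), St Γ V → (Fin r → V) → Prop} (h : Def Γ r P)
    (e : Fin r → Fin r') : Def Γ r' (fun V R v => P V R (fun i => v (e i))) := by
  obtain ⟨ψ, h⟩ := h
  refine ⟨(BoundedFormula.relabel (fun x : Empty ⊕ Fin r =>
    (Sum.inr (Sum.elim Empty.elim e x) : Empty ⊕ Fin r')) ψ.toFormula :
      (RelLang (Sy Γ) Sy.ar).BoundedFormula Empty (r' + 0)), fun M R v => ?_⟩
  let _ := mkS R.toI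
  have h1 := BoundedFormula.realize_relabel (φ := ψ.toFormula) (g := fun x : Empty ⊕ Fin r =>
    (Sum.inr (Sum.elim Empty.elim e x) : Empty ⊕ Fin r')) (v := (default : Empty → M))
    (xs := (v : Fin (r' + 0) → M))
  refine h1.trans ?_
  have h2 := BoundedFormula.realize_toFormula ψ (Sum.elim (default : Empty → M) v ∘ fun x : Empty ⊕ Fin r =>
    (Sum.inr (Sum.elim Empty.elim e x) : Empty ⊕ Fin r'))
  refine Iff.trans ?_ (h M R (fun i => v (e i)))
  have e1 : (Sum.elim (default : Empty → M) v ∘ fun x : Empty ⊕ Fin r =>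
    (Sum.inr (Sum.elim Empty.elim e x) : Empty ⊕ Fin r')) ∘ Sum.inl = (default : Empty → M) :=
    Subsingleton.elim _ _
  have e2 : (Sum.elim (default : Empty → M) v ∘ fun x : Empty ⊕ Fin r =>
    (Sum.inr (Sum.elim Empty.elim e x) : Empty ⊕ Fin r')) ∘ Sum.inr = fun i => v (e i) := rfl
  rw [e1, e2] at h2
  refine Iff.trans (Iff.of_eq ?_) h2
  congr 1
  funext i
  exact i.elim0

end Def

section app

variable {Γ : Type} {r : ℕ}

lemma Def0.app {P : ∀ (V : Type), St Γ V → Prop} (h : Def0 Γ P) :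
    Def Γ r (fun V R _ => P V R) := Def.ren h (fun i => i.elim0)

lemma Def1.app {P : ∀ (V : Type), St Γ V → V → Prop} (h : Def1 Γ P) (i : Fin r) :
    Def Γ r (fun V R v => P V R (v i)) := Def.ren h (fun _ => i)

lemma Def2.app {P : ∀ (V : Type), St Γ V → V → V → Prop} (h : Def2 Γ P) (i j : Fin r) :
    Def Γ r (fun V R v => P V R (v i) (v j)) := Def.ren h ![i, j]

lemma Def3.app {P : ∀ (V : Type), St Γ V → V → V → V → Prop} (h : Def3 Γ P)
    (i j k : Fin r) : Def Γ r (fun V R v => P V R (v i) (v j) (v k)) := Def.ren h ![i, j, k]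

end app

/-- a definable condition is given by a sentence -/
lemma Def0.exists_sentence {Γ : Type} {P : ∀ (V : Type), St Γ V → Prop} (h : Def0 Γ P) :
    ∃ φ : (RelLang (Sy Γ) Sy.ar).Sentence, ∀ (V : Type) (R : St Γ V), Sat R.toI φ ↔ P V R := by
  obtain ⟨φ, hφ⟩ := h
  refine ⟨φ, fun V R => ?_⟩
  exact hφ V R default

end Pool.Agent.Helper29.TD
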