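import Pool.Agent.Helper29.TD.Cond
import Pool.Agent.Helper29.TD.Fs

/-!
# Block TD-U12: the standard code, definition and number of elements

`s 0 = N` is the number of values of a code, `s (j + 1) = Nat.clog 2 (s j)` the number of values of the nodes of depth `j + 1`, `s d` the number
of apices.  A node of depth `j` in the row code (`b = true`) or the column code (`b = false`) of the cell `(r, c)` is given by the list
of its positions `l` (the last position first), `l.length = j`; its value is its last position.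

`Ver.card_lists`: the lists of length `j` with `okl s` are `∏ t ∈ range j, s (t + 1)` many (induction on `j`: the cons of a number below
`s (j + 1)` and a list of length `j`).  `csz_sum`: `csz i (s a) = ∑ j ∈ range (i + 1), ∏ t ∈ range j, s (a + t + 1)`, induction on `i` for all `a`.
`Ver.finite`, `Ver.card`: the vertices are the disjoint union of `Fin (s d)`, `Fin (s 0) × Fin (s 0)`, `Fin m` and
`Fin (s 0) × Fin (s 0) × Bool × {l // okl s l ∧ l.length ≤ d}` (write an equivalence), and
`s d + s 0 * s 0 + m + s 0 * s 0 * 2 * csz d (s 0)` is the right hand side.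
-/

set_option autoImplicit false

namespace Pool.Agent.Helper29.TD

/-- admissible lists of positions -/
def okl (s : ℕ → ℕ) : List ℕ → Prop
  | [] => True
  | p :: l => p < s (l.length + 1) ∧ okl s l

/-- the value of a node -/
def vl (r c : ℕ) (b : Bool) : List ℕ → ℕ
  | [] => if b = true then r else c
  | p :: _ => p

/-- the vertices -/
inductive Ver : Type
  | apex (a : ℕ)
  | cell (r c : ℕ)
  | dum (z : ℕ)
  | node (r c : ℕ) (b : Bool) (l : List ℕ)

/-- the admissible vertices -/
def Ver.ok (s : ℕ → ℕ) (d m : ℕ) : Ver → Prop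
  | .apex a => a < s d
  | .cell r c => r < s 0 ∧ c < s 0
  | .dum z => z < m
  | .node r c _ l => r < s 0 ∧ c < s 0 ∧ l.length ≤ d ∧ okl s l

/-- the value of a vertex -/
def Ver.val : Ver → ℕ
  | .node r c b l => vl r c b l
  | _ => 0

def Ver.isApex : Ver → Prop
  | .apex _ => True
  | _ => False

def Ver.isCell : Ver → Prop
  | .cell _ _ => True
  | _ => False

def Ver.isDum : Ver → Prop
  | .dum _ => True
  | _ => False

def Ver.isNode : Ver → Prop
  | .node _ _ _ _ => True
  | _ => False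

def Ver.ord : Ver → Ver → Prop
  | .apex a, .apex b => a < b
  | _, _ => False

def Ver.par : Ver → Ver → Prop
  | .node r c b (_ :: l), .node r' c' b' l' => r = r' ∧ c = c' ∧ b = b' ∧ l = l'
  | .node r c _ [], .cell r' c' => r = r' ∧ c = c'
  | .dum z, .cell r c => r = z ∧ c = 0
  | _, _ => False

def Ver.att (d : ℕ) : Ver → Ver → Prop
  | .node r c b l, .apex a => l.length = d ∧ vl r c b l = a
  | _, _ => False

def Ver.bit : Ver → Prop
  | .node r c b (p :: l) => (vl r c b l).testBit p = true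
  | _ => False

def Ver.row : Ver → Prop
  | .node _ _ b [] => b = true
  | _ => False

def Ver.tile {Γ : Type} (f : ℕ → ℕ → Γ) (γ : Γ) : Ver → Prop
  | .cell r c => f r c = γ
  | _ => False

/-- the standard code of the tiling `f` with `m` dummies -/
def std {Γ : Type} (s : ℕ → ℕ) (d m : ℕ) (f : ℕ → ℕ → Γ) : St Γ {v : Ver // v.ok s d m} where
  ord := fun x y => x.1.ord y.1
  par := fun x y => x.1.par y.1
  att := fun x y => x.1.att d y.1
  apex := fun x => x.1.isApex
  cell := fun x => x.1.isCell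
  node := fun x => x.1.isNode
  dum := fun x => x.1.isDum
  bit := fun x => x.1.bit
  row := fun x => x.1.row
  tile := fun γ x => x.1.tile f γ

/-- the hypotheses on the parameters -/
structure StdHyp (s : ℕ → ℕ) (d m c0 : ℕ) : Prop where
  hs : ∀ j, s (j + 1) = Nat.clog 2 (s j)
  hc : c0 ≤ s d
  h2 : 2 ≤ c0
  hm : m < s 0

lemma csz_sum {s : ℕ → ℕ} (hs : ∀ j, s (j + 1) = Nat.clog 2 (s j)) (i a : ℕ) :
    csz i (s a) = ∑ j ∈ Finset.range (i + 1), ∏ t ∈ Finset.range j, s (a + t + 1) := by
  induction i generalizing a with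
  | zero => simp [csz]
  | succ i ih =>
    rw [Finset.sum_range_succ', Finset.prod_range_zero, csz, ← hs a, ih (a + 1), add_comm, Finset.mul_sum]
    congr 1
    refine Finset.sum_congr rfl fun j _ => ?_
    rw [Finset.prod_range_succ', mul_comm, add_zero]
    congr 1
    refine Finset.prod_congr rfl fun t _ => ?_
    congr 1
    ring

/-- The admissible lists of length `j + 1`. -/
private def listEqv (s : ℕ → ℕ) (j : ℕ) :
    {l : List ℕ // okl s l ∧ l.length = j + 1} ≃ Fin (s (j + 1)) × {l : List ℕ // okl s l ∧ l.length = j} where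
  toFun x := match x with
    | ⟨[], h⟩ => absurd h.2 (by simp)
    | ⟨p :: l, h⟩ =>
      have h2 : l.length = j := Nat.succ_injective h.2
      (⟨p, by have h1 := h.1.1; rw [h2] at h1; exact h1⟩, ⟨l, h.1.2, h2⟩)
  invFun x := ⟨x.1.1 :: x.2.1, ⟨by rw [x.2.2.2]; exact x.1.2, x.2.2.1⟩, by rw [List.length_cons, x.2.2.2]⟩
  left_inv := by
    rintro ⟨l, h⟩
    cases l with
    | nil => exact absurd h.2 (by simp)
    | cons p l => rfl
  right_inv := by
    rintro ⟨p, l⟩
    rfl

private lemma list_fin (s : ℕ → ℕ) (j : ℕ) : Finite {l : List ℕ // okl s l ∧ l.length = j} := by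
  induction j with
  | zero =>
    have : Subsingleton {l : List ℕ // okl s l ∧ l.length = 0} := ⟨fun x y => by
      apply Subtype.ext
      rw [List.length_eq_zero_iff.1 x.2.2, List.length_eq_zero_iff.1 y.2.2]⟩
    infer_instance
  | succ j ih =>
    have := ih
    exact Finite.of_equiv _ (listEqv s j).symm

private lemma list_card (s : ℕ → ℕ) (j : ℕ) :
    Nat.card {l : List ℕ // okl s l ∧ l.length = j} = ∏ t ∈ Finset.range j, s (t + 1) := by
  induction j with
  | zero =>
    have : Subsingleton {l : List ℕ // okl s l ∧ l.length = 0} := ⟨fun x y => by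
      apply Subtype.ext
      rw [List.length_eq_zero_iff.1 x.2.2, List.length_eq_zero_iff.1 y.2.2]⟩
    have : Nonempty {l : List ℕ // okl s l ∧ l.length = 0} := ⟨⟨[], trivial, rfl⟩⟩
    rw [Finset.prod_range_zero]
    exact Nat.card_unique
  | succ j ih =>
    rw [Nat.card_congr (listEqv s j), Nat.card_prod, Nat.card_fin, ih, Finset.prod_range_succ, mul_comm]

/-- Lists of bounded length. -/
private def lenEqv (s : ℕ → ℕ) (d : ℕ) : {l : List ℕ // okl s l ∧ l.length ≤ d} ≃
    Σ j : Fin (d + 1), {l : List ℕ // okl s l ∧ l.length = j.1} where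
  toFun l := ⟨⟨l.1.length, Nat.lt_succ_of_le l.2.2⟩, ⟨l.1, l.2.1, rfl⟩⟩
  invFun x := ⟨x.2.1, x.2.2.1, by rw [x.2.2.2]; exact Nat.le_of_lt_succ x.1.2⟩
  left_inv l := rfl
  right_inv := by
    rintro ⟨⟨j, hj⟩, ⟨l, h1, h2⟩⟩
    cases h2
    rfl

private lemma len_fin (s : ℕ → ℕ) (d : ℕ) : Finite {l : List ℕ // okl s l ∧ l.length ≤ d} := by
  have := list_fin s
  exact Finite.of_equiv _ (lenEqv s d).symm

private lemma len_card {s : ℕ → ℕ} (hs : ∀ j, s (j + 1) = Nat.clog 2 (s j)) (d : ℕ) :
    Nat.card {l : List ℕ // okl s l ∧ l.length ≤ d} = csz d (s 0) := by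
  have := list_fin s
  rw [Nat.card_congr (lenEqv s d), Nat.card_sigma, csz_sum hs]
  rw [← Fin.sum_univ_eq_sum_range (fun j => ∏ t ∈ Finset.range j, s (0 + t + 1))]
  refine Finset.sum_congr rfl fun j _ => ?_
  rw [list_card]
  exact Finset.prod_congr rfl fun t _ => by rw [zero_add]

/-- The vertices as a disjoint union. -/
private def verEqv (s : ℕ → ℕ) (d m : ℕ) : {v : Ver // v.ok s d m} ≃
    (Fin (s d) ⊕ (Fin (s 0) × Fin (s 0))) ⊕
      (Fin m ⊕ (Fin (s 0) × Fin (s 0) × Bool × {l : List ℕ // okl s l ∧ l.length ≤ d})) where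
  toFun v := match v with
    | ⟨.apex a, h⟩ => .inl (.inl ⟨a, h⟩)
    | ⟨.cell r c, h⟩ => .inl (.inr (⟨r, h.1⟩, ⟨c, h.2⟩))
    | ⟨.dum z, h⟩ => .inr (.inl ⟨z, h⟩)
    | ⟨.node r c b l, h⟩ => .inr (.inr (⟨r, h.1⟩, ⟨c, h.2.1⟩, b, ⟨l, h.2.2.2, h.2.2.1⟩))
  invFun x := match x with
    | .inl (.inl a) => ⟨.apex a.1, a.2⟩
    | .inl (.inr p) => ⟨.cell p.1.1 p.2.1, p.1.2, p.2.2⟩
    | .inr (.inl z) => ⟨.dum z.1, z.2⟩
    | .inr (.inr q) => ⟨.node q.1.1 q.2.1.1 q.2.2.1 q.2.2.2.1, q.1.2, q.2.1.2, q.2.2.2.2.2, q.2.2.2.2.1⟩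
  left_inv := by
    rintro ⟨v, h⟩
    cases v <;> rfl
  right_inv := by
    rintro ((a | p) | (z | q)) <;> rfl

theorem Ver.finite (s : ℕ → ℕ) (d m : ℕ) : Finite {v : Ver // v.ok s d m} := by
  have := len_fin s d
  exact Finite.of_equiv _ (verEqv s d m).symm

theorem Ver.card {s : ℕ → ℕ} (hs : ∀ j, s (j + 1) = Nat.clog 2 (s j)) (d m : ℕ) :
    Nat.card {v : Ver // v.ok s d m} = s d + (1 + 2 * csz d (s 0)) * s 0 ^ 2 + m := by
  have := len_fin s d
  rw [Nat.card_congr (verEqv s d m), Nat.card_sum, Nat.card_sum, Nat.card_sum, Nat.card_prod, Nat.card_prod, Nat.card_prod,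
    Nat.card_prod, len_card hs, Nat.card_fin, Nat.card_fin, Nat.card_fin, Nat.card_eq_fintype_card, Fintype.card_bool]
  ring

end Pool.Agent.Helper29.TD
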