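import Pool.Agent.Helper29.TD.StdVals

/-!
# Block TD-U14: the standard code satisfies the conditions on the trees

Field by field, by cases on the vertices; use `std_lev`, `std_vals`, `std_suc`.
`par_kind`: a child `node r c b (p :: l)` of `node r c b l` has the level `i = d - (l.length + 1) < d`, `node r c b []` has the level `d`.
`par_ex`: the parent of `node r c b (p :: l)` is `node r c b l`, of `node r c b []` is `cell r c`, of `dum z` is `cell z 0` (`z < m < s 0`).
`att_all`: the apex `a < s d` is attached to a leaf with value `a`: if `d = 0` the node `node a 0 true []`, otherwise a node with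
the list `a :: 0 :: ... :: 0` (`List.replicate (d - 1) 0`, admissible as `0 < s j` for `j ≤ d`).
`ch_ex`: `x = node r c b l` of level `i + 1`, `v` of level `i` has a value `p < s (d - i) = s (l.length + 1)`: the child `node r c b (p :: l)`.
`pred`: `x` has a child with bit, so `val x > 0`; a node of the same depth with value `val x - 1`: for depth `0` change `r` or `c`, for
depth `j + 1` replace the first element of the list.  `top`: a node of level `i + 1` with the greatest value `s j - 1`
(`j = d - i - 1`; depth `0`: `node (s 0 - 1) 0 true []`; otherwise the list `(s j - 1) :: 0 :: ... :: 0`); as `2 ^ (s (j + 1) - 1) ≤ s j - 1 < 2 ^ s (j + 1)`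
(`StdHyp.low`, `StdHyp.upp`) its bit at the position `s (j + 1) - 1` is one (`Nat.testBit`, e.g. `Nat.testBit_two_pow_sub_one`-like lemmas or
`Nat.testBit_lt_two_pow`/`Nat.lt_pow_two_of_testBit`), and no node of level `i` has a greater value than `s (j + 1) - 1`.
`big`: the apices `0, ..., c0 - 1`.
-/

set_option autoImplicit false

namespace Pool.Agent.Helper29.TD

variable {Γ : Type} {s : ℕ → ℕ} {d m c0 : ℕ}

private lemma okl_replicate97 (h : StdHyp s d m c0) : ∀ n, n ≤ d → okl s (List.replicate n 0) := by
  intro n
  induction n with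
  | zero => exact fun _ => trivial
  | succ n ih =>
    intro hn
    rw [List.replicate_succ]
    refine ⟨?_, ih (by omega)⟩
    rw [List.length_replicate]
    have := h.two_le hn
    omega

private lemma node_val97 (h : StdHyp s d m c0) {j : ℕ} (hj : j ≤ d) {a : ℕ} (ha : a < s j) :
    ∃ (r c : ℕ) (b : Bool) (l : List ℕ), (Ver.node r c b l).ok s d m ∧ l.length = j ∧
      vl r c b l = a := by
  have h0 := h.two_le (Nat.zero_le d)
  cases j with
  | zero =>
    exact ⟨a, 0, true, [], ⟨ha, by omega, by simp, trivial⟩, rfl, rfl⟩
  | succ j =>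
    refine ⟨0, 0, true, a :: List.replicate j 0, ⟨by omega, by omega, ?_, ?_, ?_⟩, ?_, rfl⟩
    · simpa using hj
    · rw [List.length_replicate]
      exact ha
    · exact okl_replicate97 h j (by omega)
    · simp

private lemma node_pred97 {r c : ℕ} {b : Bool} {l : List ℕ}
    (hok : (Ver.node r c b l).ok s d m) (hpos : 0 < vl r c b l) :
    ∃ (r' c' : ℕ) (b' : Bool) (l' : List ℕ), (Ver.node r' c' b' l').ok s d m ∧
      l'.length = l.length ∧ vl r' c' b' l' + 1 = vl r c b l := by
  obtain ⟨h1, h2, h3, h4⟩ := hok
  cases l with
  | nil =>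
    cases b with
    | true =>
      have e : vl r c true [] = r := rfl
      rw [e] at hpos ⊢
      refine ⟨r - 1, c, true, [], ⟨by omega, h2, h3, trivial⟩, rfl, ?_⟩
      change r - 1 + 1 = r
      omega
    | false =>
      have e : vl r c false [] = c := rfl
      rw [e] at hpos ⊢
      refine ⟨r, c - 1, false, [], ⟨h1, by omega, h3, trivial⟩, rfl, ?_⟩
      change c - 1 + 1 = c
      omega
  | cons q l =>
    have e : vl r c b (q :: l) = q := rfl
    rw [e] at hpos ⊢
    obtain ⟨h5, h6⟩ := h4
    refine ⟨r, c, b, (q - 1) :: l, ⟨h1, h2, h3, by omega, h6⟩, rfl, ?_⟩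
    change q - 1 + 1 = q
    omega

private lemma testBit97 {n i : ℕ} (h1 : 2 ^ i ≤ n) (h2 : n < 2 ^ (i + 1)) :
    n.testBit i = true := by
  rw [Nat.testBit_eq_decide_div_mod_eq, decide_eq_true_eq]
  have h3 : n / 2 ^ i = 1 := by
    rw [Nat.div_eq_iff (Nat.two_pow_pos i)]
    rw [pow_succ] at h2
    omega
  rw [h3]

theorem std_tree (h : StdHyp s d m c0) (f : ℕ → ℕ → Γ) : Tree d c0 (std s d m f) := by
  have h0 := h.two_le (Nat.zero_le d)
  have hm := h.hm
  constructor
  case kind =>
    rintro ⟨v, hv⟩
    cases v with
    | apex a => exact Or.inl trivial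
    | cell r c => exact Or.inr (Or.inl trivial)
    | dum z => exact Or.inr (Or.inr (Or.inr trivial))
    | node r c b l => exact Or.inr (Or.inr (Or.inl trivial))
  case dis =>
    rintro ⟨v, hv⟩
    cases v with
    | apex a => exact ⟨fun h => h.2, fun h => h.2, fun h => h.2, fun h => h.1, fun h => h.1,
        fun h => h.1⟩
    | cell r c => exact ⟨fun h => h.1, fun h => h.1, fun h => h.1, fun h => h.2, fun h => h.2,
        fun h => h.1⟩
    | dum z => exact ⟨fun h => h.1, fun h => h.1, fun h => h.1, fun h => h.1, fun h => h.1,
        fun h => h.1⟩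
    | node r c b l => exact ⟨fun h => h.1, fun h => h.1, fun h => h.1, fun h => h.1,
        fun h => h.1, fun h => h.2⟩
  case ord_apex =>
    rintro ⟨v, hv⟩ ⟨w, hw⟩ hvw
    cases v <;> cases w <;> first | exact ⟨trivial, trivial⟩ | exact hvw.elim
  case ord_irr =>
    rintro ⟨v, hv⟩ hvv
    cases v with
    | apex a => exact lt_irrefl a hvv
    | cell r c => exact hvv
    | dum z => exact hvv
    | node r c b l => exact hvv
  case ord_trans =>
    rintro ⟨u, hu⟩ ⟨v, hv⟩ ⟨w, hw⟩ huv hvw
    cases u <;> cases v <;> cases w <;>
      first | exact huv.elim | exact hvw.elim | exact lt_trans huv hvw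
  case ord_lin =>
    rintro ⟨v, hv⟩ ⟨w, hw⟩ hv1 hw1
    cases v with
    | apex a =>
      cases w with
      | apex b =>
        rcases lt_trichotomy a b with hab | hab | hab
        · exact Or.inl hab
        · exact Or.inr (Or.inl (Subtype.ext (congrArg Ver.apex hab)))
        · exact Or.inr (Or.inr hab)
      | cell r c => exact hw1.elim
      | dum z => exact hw1.elim
      | node r c b l => exact hw1.elim
    | cell r c => exact hv1.elim
    | dum z => exact hv1.elim
    | node r c b l => exact hv1.elim
  case par_kind =>
    rintro ⟨u, hu⟩ ⟨x, hx⟩ hux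
    cases u with
    | apex a => cases x <;> exact hux.elim
    | cell r c => cases x <;> exact hux.elim
    | dum z =>
      cases x with
      | cell r c => exact Or.inr (Or.inr ⟨trivial, trivial⟩)
      | apex a => exact hux.elim
      | dum z => exact hux.elim
      | node r c b l => exact hux.elim
    | node r c b l =>
      cases l with
      | nil =>
        cases x with
        | cell r' c' =>
          left
          refine ⟨(std_lev h f d _).2 ⟨r, c, b, [], rfl, by simp⟩, trivial⟩
        | apex a => exact hux.elim
        | dum z => exact hux.elim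
        | node r' c' b' l' => exact hux.elim
      | cons p l =>
        cases x with
        | cell r' c' => exact hux.elim
        | apex a => exact hux.elim
        | dum z => exact hux.elim
        | node r' c' b' l' =>
          obtain ⟨e1, e2, e3, e4⟩ := hux
          have h3 : (p :: l).length ≤ d := hu.2.2.1
          rw [List.length_cons] at h3
          right
          left
          refine ⟨d - (l.length + 1), by omega, (std_lev h f _ _).2 ⟨r, c, b, p :: l, rfl, ?_⟩,
            (std_lev h f _ _).2 ⟨r', c', b', l', rfl, ?_⟩⟩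
          · rw [List.length_cons]
            omega
          · rw [← e4]
            omega
  case par_uniq =>
    rintro ⟨u, hu⟩ ⟨x, hx⟩ ⟨y, hy⟩ hux huy
    apply Subtype.ext
    change x = y
    cases u with
    | apex a => cases x <;> exact hux.elim
    | cell r c => cases x <;> exact hux.elim
    | dum z =>
      cases x with
      | cell r c =>
        cases y with
        | cell r' c' => rw [hux.1, hux.2, huy.1, huy.2]
        | apex a => exact huy.elim
        | dum z => exact huy.elim
        | node r c b l => exact huy.elim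
      | apex a => exact hux.elim
      | dum z => exact hux.elim
      | node r c b l => exact hux.elim
    | node r c b l =>
      cases l with
      | nil =>
        cases x with
        | cell r1 c1 =>
          cases y with
          | cell r2 c2 => rw [← hux.1, ← hux.2, ← huy.1, ← huy.2]
          | apex a => exact huy.elim
          | dum z => exact huy.elim
          | node r c b l => exact huy.elim
        | apex a => exact hux.elim
        | dum z => exact hux.elim
        | node r' c' b' l' => exact hux.elim
      | cons p l =>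
        cases x with
        | cell r' c' => exact hux.elim
        | apex a => exact hux.elim
        | dum z => exact hux.elim
        | node r1 c1 b1 l1 =>
          cases y with
          | cell r' c' => exact huy.elim
          | apex a => exact huy.elim
          | dum z => exact huy.elim
          | node r2 c2 b2 l2 =>
            obtain ⟨e1, e2, e3, e4⟩ := hux
            obtain ⟨f1, f2, f3, f4⟩ := huy
            rw [← e1, ← e2, ← e3, ← e4, ← f1, ← f2, ← f3, ← f4]
  case par_ex =>
    rintro ⟨u, hu⟩ hu1
    cases u with
    | apex a => exact hu1.elim False.elim False.elim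
    | cell r c => exact hu1.elim False.elim False.elim
    | dum z =>
      have hz : z < m := hu
      exact ⟨⟨.cell z 0, ⟨by omega, by omega⟩⟩, ⟨rfl, rfl⟩⟩
    | node r c b l =>
      obtain ⟨h1, h2, h3, h4⟩ := hu
      cases l with
      | nil => exact ⟨⟨.cell r c, ⟨h1, h2⟩⟩, ⟨rfl, rfl⟩⟩
      | cons p l =>
        rw [List.length_cons] at h3
        exact ⟨⟨.node r c b l, ⟨h1, h2, by omega, h4.2⟩⟩, ⟨rfl, rfl, rfl, rfl⟩⟩
  case node_lev =>
    rintro ⟨x, hx⟩ hx1
    cases x with
    | apex a => exact hx1.elim
    | cell r c => exact hx1.elim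
    | dum z => exact hx1.elim
    | node r c b l =>
      have h3 : l.length ≤ d := hx.2.2.1
      exact ⟨d - l.length, by omega, (std_lev h f _ _).2 ⟨r, c, b, l, rfl, by omega⟩⟩
  case lev_uniq =>
    rintro i hi j hj hij x ⟨h1, h2⟩
    obtain ⟨r, c, b, l, e1, e2⟩ := (std_lev h f _ _).1 h1
    obtain ⟨r', c', b', l', e3, e4⟩ := (std_lev h f _ _).1 h2
    rw [e1] at e3
    have e5 : l = l' := (Ver.node.inj e3).2.2.2
    rw [← e5] at e4
    omega
  case att_kind =>
    rintro ⟨x, hx⟩ ⟨a, ha⟩ hxa
    cases x <;> cases a <;> first | exact ⟨trivial, trivial⟩ | exact hxa.elim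
  case att_uniq =>
    rintro ⟨x, hx⟩ ⟨a, ha⟩ ⟨b, hb⟩ hxa hxb
    apply Subtype.ext
    change a = b
    cases x with
    | apex a' => cases a <;> exact hxa.elim
    | cell r c => cases a <;> exact hxa.elim
    | dum z => cases a <;> exact hxa.elim
    | node r c b' l =>
      cases a with
      | apex a1 =>
        cases b with
        | apex b1 => rw [← hxa.2, ← hxb.2]
        | cell r' c' => exact hxb.elim
        | dum z => exact hxb.elim
        | node r' c' b' l' => exact hxb.elim
      | cell r' c' => exact hxa.elim
      | dum z => exact hxa.elim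
      | node r' c' b' l' => exact hxa.elim
  case att_all =>
    rintro ⟨a, ha⟩ ha1
    cases a with
    | apex a =>
      obtain ⟨r, c, b, l, h1, h2, h3⟩ := node_val97 h le_rfl (show a < s d from ha)
      exact ⟨⟨.node r c b l, h1⟩, ⟨h2, h3⟩⟩
    | cell r c => exact ha1.elim
    | dum z => exact ha1.elim
    | node r c b l => exact ha1.elim
  case ch_ex =>
    intro i hi x v hx hv
    obtain ⟨r, c, b, l, e1, e2⟩ := (std_lev h f _ _).1 hx
    obtain ⟨r', c', b', l', e3, e4⟩ := (std_lev h f _ _).1 hv
    have hxok : (Ver.node r c b l).ok s d m := e1 ▸ x.2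
    have hvok : (Ver.node r' c' b' l').ok s d m := e3 ▸ v.2
    have hlt := vl_lt hvok
    have hlen : l'.length = l.length + 1 := by omega
    rw [hlen] at hlt
    have huok : (Ver.node r c b (vl r' c' b' l' :: l)).ok s d m := by
      refine ⟨hxok.1, hxok.2.1, ?_, hlt, hxok.2.2.2⟩
      rw [List.length_cons]
      omega
    have hulev : Lev (std s d m f) i ⟨_, huok⟩ := (std_lev h f _ _).2
      ⟨r, c, b, vl r' c' b' l' :: l, rfl, by rw [List.length_cons]; omega⟩
    refine ⟨⟨_, huok⟩, ?_, ?_⟩
    · change Ver.par _ x.1
      rw [e1]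
      exact ⟨rfl, rfl, rfl, rfl⟩
    · rw [(std_vals h f i _ _ hulev hv).1, e3]
      rfl
  case ch_uniq =>
    intro i hi x u v hx hu hv huv
    obtain ⟨r, c, b, l, e1, e2⟩ := (std_lev h f _ _).1 hx
    have key : ∀ w : {v : Ver // v.ok s d m}, (std s d m f).par w x →
        ∃ p, w.1 = Ver.node r c b (p :: l) := by
      rintro ⟨w, hw⟩ hwx
      change Ver.par w x.1 at hwx
      rw [e1] at hwx
      cases w with
      | apex a => exact hwx.elim
      | cell r c => exact hwx.elim
      | dum z => exact hwx.elim
      | node r1 c1 b1 l1 =>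
        cases l1 with
        | nil => exact hwx.elim
        | cons p l1 =>
          obtain ⟨f1, f2, f3, f4⟩ := hwx
          refine ⟨p, ?_⟩
          change Ver.node r1 c1 b1 (p :: l1) = _
          rw [f1, f2, f3, f4]
    obtain ⟨p, hp⟩ := key u hu
    obtain ⟨q, hq⟩ := key v hv
    have hul : Lev (std s d m f) i u := (std_lev h f _ _).2 ⟨r, c, b, p :: l, hp, by
      rw [List.length_cons]; omega⟩
    have hvl : Lev (std s d m f) i v := (std_lev h f _ _).2 ⟨r, c, b, q :: l, hq, by
      rw [List.length_cons]; omega⟩
    rw [(std_vals h f i u v hul hvl).1, hp, hq] at huv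
    have hpq : p = q := huv
    apply Subtype.ext
    rw [hp, hq, hpq]
  case pred =>
    intro i hi x v hx hv hb
    obtain ⟨r, c, b, l, e1, e2⟩ := (std_lev h f _ _).1 hx
    have hxok : (Ver.node r c b l).ok s d m := e1 ▸ x.2
    have hpos : 0 < vl r c b l := by
      obtain ⟨v, hvok⟩ := v
      change Ver.par v x.1 at hv
      change Ver.bit v at hb
      rw [e1] at hv
      cases v with
      | apex a => exact hv.elim
      | cell r c => exact hv.elim
      | dum z => exact hv.elim
      | node r1 c1 b1 l1 =>
        cases l1 with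
        | nil => exact hv.elim
        | cons p l1 =>
          obtain ⟨f1, f2, f3, f4⟩ := hv
          have hb2 : (vl r1 c1 b1 l1).testBit p = true := hb
          rw [f1, f2, f3, f4] at hb2
          by_contra h1
          have h2 : vl r c b l = 0 := by omega
          rw [h2, Nat.zero_testBit] at hb2
          exact Bool.false_ne_true hb2
    obtain ⟨r', c', b', l', h1, h2, h3⟩ := node_pred97 hxok hpos
    have hy : Lev (std s d m f) (i + 1) ⟨_, h1⟩ := (std_lev h f _ _).2
      ⟨r', c', b', l', rfl, by omega⟩
    refine ⟨⟨_, h1⟩, hy, ?_⟩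
    rw [std_suc h f i _ _ hy hx, e1]
    exact h3.symm
  case top =>
    intro i hi
    have hj : d - i - 1 + 1 ≤ d := by omega
    have h2 := h.two_le hj
    have h3 := h.two_le (show d - i - 1 ≤ d by omega)
    have h4 := h.low (show d - i - 1 ≤ d by omega)
    have h5 := h.upp (d - i - 1)
    obtain ⟨r, c, b, l, hok, hlen, hval⟩ := node_val97 h (show d - i - 1 ≤ d by omega)
      (show s (d - i - 1) - 1 < s (d - i - 1) by omega)
    have hvok : (Ver.node r c b ((s (d - i - 1 + 1) - 1) :: l)).ok s d m := by
      refine ⟨hok.1, hok.2.1, ?_, ?_, hok.2.2.2⟩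
      · rw [List.length_cons]
        omega
      · rw [hlen]
        omega
    have hx : Lev (std s d m f) (i + 1) ⟨_, hok⟩ := (std_lev h f _ _).2
      ⟨r, c, b, l, rfl, by omega⟩
    have hv : Lev (std s d m f) i ⟨_, hvok⟩ := (std_lev h f _ _).2
      ⟨r, c, b, _, rfl, by rw [List.length_cons]; omega⟩
    refine ⟨⟨_, hok⟩, ⟨_, hvok⟩, hx, ⟨rfl, rfl, rfl, rfl⟩, ?_, ?_⟩
    · change (vl r c b l).testBit (s (d - i - 1 + 1) - 1) = true
      rw [hval]
      apply testBit97
      · omega
      · have e : s (d - i - 1 + 1) - 1 + 1 = s (d - i - 1 + 1) := by omega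
        rw [e]
        omega
    · intro w hw hlt
      rw [(std_vals h f i _ _ hv hw).2] at hlt
      obtain ⟨r', c', b', l', e3, e4⟩ := (std_lev h f _ _).1 hw
      have hwok : (Ver.node r' c' b' l').ok s d m := e3 ▸ w.2
      have h6 := vl_lt hwok
      have hlen : l'.length = d - i - 1 + 1 := by omega
      rw [hlen] at h6
      rw [e3] at hlt
      have h7 : s (d - i - 1 + 1) - 1 < vl r' c' b' l' := hlt
      omega
  case big =>
    refine ⟨fun i => ⟨.apex i, lt_of_lt_of_le i.2 h.hc⟩, fun i j hij => ?_, fun i => trivial⟩
    have h1 := congrArg Subtype.val hij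
    exact Fin.ext (Ver.apex.inj h1)

end Pool.Agent.Helper29.TD
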