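import Pool.Agent.Helper29.TD.Cond
import Pool.Agent.Helper29.TD.Bin

/-!
# Block TD-U2: one level up

`StepHyp`: on the lower nodes (`lo`) the relations `E`, `L` are equality and order of the numbers `f u < K`; an upper node (`hi`)
has exactly one child for each number below `K`.  `bits R f K x`: the numbers of the children `u` of `x` with `bit u`.

`mem_bits`: unfold.  `stepE_iff`: the two clauses say `bits x ⊆ bits y` and `bits y ⊆ bits x` (the children of `x`, `y` are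
lower nodes, so `E u w ↔ f u = f w`); then `bin_inj`.
`stepL_iff`: with `b = f v` the formula is the right hand side of `bin_lt`.
`stepS_iff`: with `b = f v` the right hand side of `bin_succ`: `∀ a < b, a ∈ bits x` is `∀ u, par u x → L u v → bit u`, since for
`a < b < K` there is exactly one child `u` of `x` with `f u = a`.
`bits_lt`: `bin_lt_two_pow`.  `le_bits`: `two_pow_le_bin`.
-/

set_option autoImplicit false

namespace Pool.Agent.Helper29.TD

open Classical

variable {Γ V : Type}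

/-- the hypotheses of the step -/
structure StepHyp (R : St Γ V) (lo hi : V → Prop) (E L : V → V → Prop) (f : V → ℕ) (K : ℕ) :
    Prop where
  hE : ∀ u v, lo u → lo v → (E u v ↔ f u = f v)
  hL : ∀ u v, lo u → lo v → (L u v ↔ f u < f v)
  hlo : ∀ u x, hi x → R.par u x → lo u
  hK : ∀ u, lo u → f u < K
  hch : ∀ x, hi x → ∀ m, m < K → ∃ u, R.par u x ∧ f u = m
  huq : ∀ x, hi x → ∀ u v, R.par u x → R.par v x → f u = f v → u = v

/-- the positions of the one bits of `x` -/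
noncomputable def bits (R : St Γ V) (f : V → ℕ) (K : ℕ) (x : V) : Finset ℕ :=
  (Finset.range K).filter (fun m => ∃ u, R.par u x ∧ R.bit u ∧ f u = m)

variable {R : St Γ V} {lo hi : V → Prop} {E L : V → V → Prop} {f : V → ℕ} {K : ℕ}

lemma mem_bits {x : V} {m : ℕ} :
    m ∈ bits R f K x ↔ m < K ∧ ∃ u, R.par u x ∧ R.bit u ∧ f u = m := by
  unfold bits
  rw [Finset.mem_filter, Finset.mem_range]

lemma StepHyp.mem_of (h : StepHyp R lo hi E L f K) {x u : V} (hx : hi x) (hu : R.par u x)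
    (hb : R.bit u) : f u ∈ bits R f K x :=
  mem_bits.2 ⟨h.hK u (h.hlo u x hx hu), u, hu, hb, rfl⟩

lemma StepHyp.bit_of (h : StepHyp R lo hi E L f K) {x u : V} (hx : hi x) (hu : R.par u x)
    (hm : f u ∈ bits R f K x) : R.bit u := by
  obtain ⟨_, u', hu', hb, e⟩ := mem_bits.1 hm
  have := h.huq x hx u' u hu' hu e
  rwa [this] at hb

lemma StepHyp.high_iff (h : StepHyp R lo hi E L f K) {x y v : V} (hx : hi x) (hy : hi y)
    (hv : lo v) : high R E L x y v ↔
      (∀ a ∈ bits R f K x, f v < a → a ∈ bits R f K y) ∧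
        ∀ a ∈ bits R f K y, f v < a → a ∈ bits R f K x := by
  constructor
  · rintro ⟨h1, h2⟩
    refine ⟨fun a ha hva => ?_, fun a ha hva => ?_⟩
    · obtain ⟨_, u, hu, hb, rfl⟩ := mem_bits.1 ha
      have hlu := h.hlo u x hx hu
      obtain ⟨w, hw, hbw, he⟩ := h1 u hu hb ((h.hL v u hv hlu).2 hva)
      rw [(h.hE u w hlu (h.hlo w y hy hw)).1 he]
      exact h.mem_of hy hw hbw
    · obtain ⟨_, w, hw, hb, rfl⟩ := mem_bits.1 ha
      have hlw := h.hlo w y hy hw
      obtain ⟨u, hu, hbu, he⟩ := h2 w hw hb ((h.hL v w hv hlw).2 hva)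
      rw [(h.hE w u hlw (h.hlo u x hx hu)).1 he]
      exact h.mem_of hx hu hbu
  · rintro ⟨h1, h2⟩
    refine ⟨fun u hu hb hvu => ?_, fun w hw hb hvw => ?_⟩
    · have hlu := h.hlo u x hx hu
      obtain ⟨_, w, hw, hbw, e⟩ := mem_bits.1
        (h1 (f u) (h.mem_of hx hu hb) ((h.hL v u hv hlu).1 hvu))
      exact ⟨w, hw, hbw, (h.hE u w hlu (h.hlo w y hy hw)).2 e.symm⟩
    · have hlw := h.hlo w y hy hw
      obtain ⟨_, u, hu, hbu, e⟩ := mem_bits.1
        (h2 (f w) (h.mem_of hy hw hb) ((h.hL v w hv hlw).1 hvw))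
      exact ⟨u, hu, hbu, (h.hE w u hlw (h.hlo u x hx hu)).2 e.symm⟩

lemma StepHyp.notin_iff (h : StepHyp R lo hi E L f K) {x v : V} (hx : hi x) (hv : lo v) :
    (∀ u, R.par u x → R.bit u → ¬ E u v) ↔ f v ∉ bits R f K x := by
  constructor
  · intro h1 hm
    obtain ⟨_, u, hu, hb, e⟩ := mem_bits.1 hm
    exact h1 u hu hb ((h.hE u v (h.hlo u x hx hu) hv).2 e)
  · intro h1 u hu hb he
    apply h1
    rw [← (h.hE u v (h.hlo u x hx hu) hv).1 he]
    exact h.mem_of hx hu hb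

theorem StepHyp.stepE_iff (h : StepHyp R lo hi E L f K) {x y : V} (hx : hi x) (hy : hi y) :
    stepE R E x y ↔ bin (bits R f K x) = bin (bits R f K y) := by
  rw [bin_inj]
  constructor
  · rintro ⟨h1, h2⟩
    ext m
    constructor
    · intro hm
      obtain ⟨_, u, hu, hb, rfl⟩ := mem_bits.1 hm
      obtain ⟨w, hw, hbw, he⟩ := h1 u hu hb
      rw [(h.hE u w (h.hlo u x hx hu) (h.hlo w y hy hw)).1 he]
      exact h.mem_of hy hw hbw
    · intro hm
      obtain ⟨_, w, hw, hb, rfl⟩ := mem_bits.1 hm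
      obtain ⟨u, hu, hbu, he⟩ := h2 w hw hb
      rw [(h.hE w u (h.hlo w y hy hw) (h.hlo u x hx hu)).1 he]
      exact h.mem_of hx hu hbu
  · intro hm
    refine ⟨fun u hu hb => ?_, fun w hw hb => ?_⟩
    · have h1 := h.mem_of hx hu hb
      rw [hm] at h1
      obtain ⟨_, w, hw, hbw, e⟩ := mem_bits.1 h1
      exact ⟨w, hw, hbw, (h.hE u w (h.hlo u x hx hu) (h.hlo w y hy hw)).2 e.symm⟩
    · have h1 := h.mem_of hy hw hb
      rw [← hm] at h1
      obtain ⟨_, u, hu, hbu, e⟩ := mem_bits.1 h1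
      exact ⟨u, hu, hbu, (h.hE w u (h.hlo w y hy hw) (h.hlo u x hx hu)).2 e.symm⟩

theorem StepHyp.stepL_iff (h : StepHyp R lo hi E L f K) {x y : V} (hx : hi x) (hy : hi y) :
    stepL R E L x y ↔ bin (bits R f K x) < bin (bits R f K y) := by
  rw [bin_lt]
  constructor
  · rintro ⟨v, hv, hb, h1, h2⟩
    have hlv := h.hlo v y hy hv
    rw [h.notin_iff hx hlv] at h1
    obtain ⟨h3, h4⟩ := (h.high_iff hx hy hlv).1 h2
    exact ⟨f v, h.mem_of hy hv hb, h1, h3, h4⟩
  · rintro ⟨b, hb, h1, h3, h4⟩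
    obtain ⟨_, v, hv, hbv, rfl⟩ := mem_bits.1 hb
    have hlv := h.hlo v y hy hv
    exact ⟨v, hv, hbv, (h.notin_iff hx hlv).2 h1, (h.high_iff hx hy hlv).2 ⟨h3, h4⟩⟩

theorem StepHyp.stepS_iff (h : StepHyp R lo hi E L f K) {x y : V} (hx : hi x) (hy : hi y) :
    stepS R E L x y ↔ bin (bits R f K y) = bin (bits R f K x) + 1 := by
  rw [bin_succ]
  constructor
  · rintro ⟨v, hv, hb, h1, h5, h6, h2⟩
    have hlv := h.hlo v y hy hv
    rw [h.notin_iff hx hlv] at h1
    obtain ⟨h3, h4⟩ := (h.high_iff hx hy hlv).1 h2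
    refine ⟨f v, h.mem_of hy hv hb, h1, fun a ha => ?_, fun a ha hm => ?_, h3, h4⟩
    · obtain ⟨u, hu, rfl⟩ := h.hch x hx a (ha.trans (h.hK v hlv))
      exact h.mem_of hx hu (h5 u hu ((h.hL u v (h.hlo u x hx hu) hlv).2 ha))
    · obtain ⟨_, w, hw, hbw, rfl⟩ := mem_bits.1 hm
      exact h6 w hw ((h.hL w v (h.hlo w y hy hw) hlv).2 ha) hbw
  · rintro ⟨b, hb, h1, h5, h6, h3, h4⟩
    obtain ⟨_, v, hv, hbv, rfl⟩ := mem_bits.1 hb
    have hlv := h.hlo v y hy hv
    refine ⟨v, hv, hbv, (h.notin_iff hx hlv).2 h1, fun u hu hl => ?_, fun w hw hl hbw => ?_,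
      (h.high_iff hx hy hlv).2 ⟨h3, h4⟩⟩
    · exact h.bit_of hx hu (h5 (f u) ((h.hL u v (h.hlo u x hx hu) hlv).1 hl))
    · exact h6 (f w) ((h.hL w v (h.hlo w y hy hw) hlv).1 hl) (h.mem_of hy hw hbw)

lemma bits_lt (x : V) : bin (bits R f K x) < 2 ^ K := by
  exact bin_lt_two_pow (fun a ha => (mem_bits.1 ha).1)

lemma StepHyp.le_bits (h : StepHyp R lo hi E L f K) {x v : V} (hx : hi x) (hv : R.par v x)
    (hb : R.bit v) : 2 ^ f v ≤ bin (bits R f K x) := by
  exact two_pow_le_bin (h.mem_of hx hv hb)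

end Pool.Agent.Helper29.TD
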