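import Pool.Agent.Helper29.TD.Std
import Pool.Agent.Helper29.TD.Step

/-!
# Block TD-U13: the standard code, levels and values

`s_mono`: `s (j + 1) ≤ s j` (`Nat.clog 2 k ≤ k`), so `2 ≤ s j` for `j ≤ d`.  `val_lt`: by cases on `l`.  `s_bounds`: Mathlib `Nat.clog` lemmas.
`std_lev`: induction on `i`.  `i = 0`: a node has an apex attached if and only if `l.length = d` (the apex `vl r c b l < s d` exists by
`val_lt`).  Step: `node r c b l` has a child `node r c b (p :: l)` of level `i`, `i + (l.length + 1) = d`; conversely if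
`(i + 1) + l.length = d` then `0 < s (l.length + 1)`, so the child with `p = 0` is admissible.
`std_vals`: induction on `i`.  `i = 0`: `eqv`, `ltv` compare the attached apices `a = val`.  Step: `StepHyp` for `lo = Lev R i`, `hi = Lev R (i+1)`,
`f v = v.1.val`, `K = s (d - i)`: a node `node r c b l`, `l.length + 1 = d - i`, has the children `node r c b (p :: l)`, `p < s (d - i)`, with
value `p`.  `bits R f K x` is the set of the `p < K` with `(val x).testBit p`, so `bin (bits ..) = val x` by `bin_testBit`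
(`val x < s (d - i - 1) ≤ 2 ^ K`); use `stepE_iff`, `stepL_iff`; for `std_suc` use `stepS_iff`.
-/

set_option autoImplicit false

namespace Pool.Agent.Helper29.TD

variable {Γ : Type} {s : ℕ → ℕ} {d m c0 : ℕ}

lemma StdHyp.two_le (h : StdHyp s d m c0) {j : ℕ} (hj : j ≤ d) : 2 ≤ s j := by
  have hmono : Antitone s := by
    apply antitone_nat_of_succ_le
    intro n
    rw [h.hs n]
    exact Nat.clog_le_of_le_pow Nat.lt_two_pow_self.le
  exact h.h2.trans (h.hc.trans (hmono hj))

lemma StdHyp.low (h : StdHyp s d m c0) {j : ℕ} (hj : j ≤ d) : 2 ^ (s (j + 1) - 1) < s j := by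
  rw [h.hs j]
  exact Nat.pow_pred_clog_lt_self (by norm_num) (h.two_le hj)

lemma StdHyp.upp (h : StdHyp s d m c0) (j : ℕ) : s j ≤ 2 ^ s (j + 1) := by
  rw [h.hs j]
  exact Nat.le_pow_clog (by norm_num) _

lemma vl_lt {r c : ℕ} {b : Bool} {l : List ℕ} (h : (Ver.node r c b l).ok s d m) :
    vl r c b l < s l.length := by
  obtain ⟨h1, h2, -, h4⟩ := h
  cases l with
  | nil =>
    unfold vl
    split_ifs
    · exact h1
    · exact h2
  | cons p l => exact h4.1

/-- the parent relation into a node -/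
private lemma par_node {u : Ver} {r c : ℕ} {b : Bool} {l : List ℕ} :
    u.par (Ver.node r c b l) ↔ ∃ p, u = Ver.node r c b (p :: l) := by
  constructor
  · intro h
    rcases u with a | ⟨r', c'⟩ | z | ⟨r', c', b', l'⟩
    · exact h.elim
    · exact h.elim
    · exact h.elim
    · cases l' with
      | nil => exact h.elim
      | cons p l' =>
        obtain ⟨rfl, rfl, rfl, rfl⟩ := h
        exact ⟨p, rfl⟩
  · rintro ⟨p, rfl⟩
    exact ⟨rfl, rfl, rfl, rfl⟩

private lemma att_node {a : Ver} {r c : ℕ} {b : Bool} {l : List ℕ} :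
    (Ver.node r c b l).att d a ↔ l.length = d ∧ a = Ver.apex (vl r c b l) := by
  constructor
  · intro h
    rcases a with a | ⟨r', c'⟩ | z | ⟨r', c', b', l'⟩
    · obtain ⟨h1, h2⟩ := h
      exact ⟨h1, by rw [h2]⟩
    · exact h.elim
    · exact h.elim
    · exact h.elim
  · rintro ⟨h1, rfl⟩
    exact ⟨h1, rfl⟩

theorem std_lev (h : StdHyp s d m c0) (f : ℕ → ℕ → Γ) (i : ℕ) (x : {v : Ver // v.ok s d m}) :
    Lev (std s d m f) i x ↔ ∃ r c b l, x.1 = Ver.node r c b l ∧ i + l.length = d := by
  induction i generalizing x with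
  | zero =>
    constructor
    · rintro ⟨-, a, ha⟩
      obtain ⟨x, hx⟩ := x
      have ha : x.att d a.1 := ha
      rcases x with a' | ⟨r', c'⟩ | z | ⟨r, c, b, l⟩
      · exact ha.elim
      · exact ha.elim
      · exact ha.elim
      · exact ⟨r, c, b, l, rfl, by rw [zero_add]; exact (att_node.1 ha).1⟩
    · rintro ⟨r, c, b, l, hx, hl⟩
      obtain ⟨x, hxo⟩ := x
      have hx : x = Ver.node r c b l := hx
      subst hx
      rw [zero_add] at hl
      refine ⟨trivial, ⟨Ver.apex (vl r c b l), ?_⟩, ?_⟩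
      · have h1 := vl_lt hxo
        rw [hl] at h1
        exact h1
      · exact att_node.2 ⟨hl, rfl⟩
  | succ i ih =>
    constructor
    · rintro ⟨hn, u, hu, hp⟩
      obtain ⟨r, c, b, l, hul, hl⟩ := (ih u).1 hu
      obtain ⟨x, hxo⟩ := x
      have hp : u.1.par x := hp
      have hn : x.isNode := hn
      rcases x with a' | ⟨r', c'⟩ | z | ⟨r', c', b', l'⟩
      · exact hn.elim
      · exact hn.elim
      · exact hn.elim
      · obtain ⟨p, hp⟩ := par_node.1 hp
        rw [hul] at hp
        injection hp with h1 h2 h3 h4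
        refine ⟨r', c', b', l', rfl, ?_⟩
        rw [h4, List.length_cons] at hl
        omega
    · rintro ⟨r, c, b, l, hx, hl⟩
      obtain ⟨x, hxo⟩ := x
      have hx : x = Ver.node r c b l := hx
      subst hx
      have h0 : 2 ≤ s (l.length + 1) := h.two_le (by omega)
      have hok : (Ver.node r c b (0 :: l)).ok s d m :=
        ⟨hxo.1, hxo.2.1, by rw [List.length_cons]; omega, by omega, hxo.2.2.2⟩
      refine ⟨trivial, ⟨Ver.node r c b (0 :: l), hok⟩, ?_, par_node.2 ⟨0, rfl⟩⟩
      exact (ih _).2 ⟨r, c, b, 0 :: l, rfl, by rw [List.length_cons]; omega⟩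

/-- the step -/
private lemma std_step (h : StdHyp s d m c0) (f : ℕ → ℕ → Γ) (i : ℕ)
    (ih : ∀ x y : {v : Ver // v.ok s d m}, Lev (std s d m f) i x → Lev (std s d m f) i y →
      (eqv (std s d m f) i x y ↔ x.1.val = y.1.val) ∧
      (ltv (std s d m f) i x y ↔ x.1.val < y.1.val)) :
    StepHyp (std s d m f) (Lev (std s d m f) i) (Lev (std s d m f) (i + 1)) (eqv (std s d m f) i)
      (ltv (std s d m f) i) (fun v => v.1.val) (s (d - i)) where
  hE := fun u v hu hv => (ih u v hu hv).1
  hL := fun u v hu hv => (ih u v hu hv).2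
  hlo := by
    rintro ⟨u, huo⟩ ⟨x, hxo⟩ hx hp
    obtain ⟨r, c, b, l, hxl, hl⟩ := (std_lev h f _ _).1 hx
    have hxl : x = Ver.node r c b l := hxl
    subst hxl
    obtain ⟨p, hp⟩ := par_node.1 (show u.par _ from hp)
    subst hp
    exact (std_lev h f _ _).2 ⟨r, c, b, p :: l, rfl, by rw [List.length_cons]; omega⟩
  hK := by
    rintro ⟨u, huo⟩ hu
    obtain ⟨r, c, b, l, hul, hl⟩ := (std_lev h f _ _).1 hu
    have hul : u = Ver.node r c b l := hul
    subst hul
    have h1 := vl_lt huo
    have h2 : d - i = l.length := by omega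
    rw [h2]
    exact h1
  hch := by
    rintro ⟨x, hxo⟩ hx k hk
    obtain ⟨r, c, b, l, hxl, hl⟩ := (std_lev h f _ _).1 hx
    have hxl : x = Ver.node r c b l := hxl
    subst hxl
    have h2 : d - i = l.length + 1 := by omega
    rw [h2] at hk
    exact ⟨⟨Ver.node r c b (k :: l), hxo.1, hxo.2.1, by rw [List.length_cons]; omega, hk,
      hxo.2.2.2⟩, par_node.2 ⟨k, rfl⟩, rfl⟩
  huq := by
    rintro ⟨x, hxo⟩ hx ⟨u, huo⟩ ⟨v, hvo⟩ hu hv huv
    obtain ⟨r, c, b, l, hxl, hl⟩ := (std_lev h f _ _).1 hx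
    have hxl : x = Ver.node r c b l := hxl
    subst hxl
    obtain ⟨p, hp⟩ := par_node.1 (show u.par _ from hu)
    obtain ⟨q, hq⟩ := par_node.1 (show v.par _ from hv)
    subst hp
    subst hq
    have huv : p = q := huv
    subst huv
    rfl

private lemma std_bits (h : StdHyp s d m c0) (f : ℕ → ℕ → Γ) (i : ℕ)
    (x : {v : Ver // v.ok s d m}) (hx : Lev (std s d m f) (i + 1) x) :
    bin (bits (std s d m f) (fun v => v.1.val) (s (d - i)) x) = x.1.val := by
  obtain ⟨x, hxo⟩ := x
  obtain ⟨r, c, b, l, hxl, hl⟩ := (std_lev h f _ _).1 hx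
  have hxl : x = Ver.node r c b l := hxl
  subst hxl
  have h2 : d - i = l.length + 1 := by omega
  have h3 : vl r c b l < 2 ^ s (d - i) := by
    rw [h2]
    exact lt_of_lt_of_le (vl_lt hxo) (h.upp _)
  refine Eq.trans ?_ (bin_testBit h3)
  congr 1
  ext k
  rw [mem_bits, Finset.mem_filter, Finset.mem_range]
  refine and_congr_right fun hk => ?_
  constructor
  · rintro ⟨⟨u, huo⟩, hp, hb, hv⟩
    obtain ⟨p, hp⟩ := par_node.1 (show u.par _ from hp)
    subst hp
    have hv : p = k := hv
    subst hv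
    exact hb
  · intro hb
    rw [h2] at hk
    exact ⟨⟨Ver.node r c b (k :: l), hxo.1, hxo.2.1, by rw [List.length_cons]; omega, hk,
      hxo.2.2.2⟩, par_node.2 ⟨k, rfl⟩, hb, rfl⟩

theorem std_vals (h : StdHyp s d m c0) (f : ℕ → ℕ → Γ) (i : ℕ) :
    ∀ x y : {v : Ver // v.ok s d m}, Lev (std s d m f) i x → Lev (std s d m f) i y →
      (eqv (std s d m f) i x y ↔ x.1.val = y.1.val) ∧
      (ltv (std s d m f) i x y ↔ x.1.val < y.1.val) := by
  induction i with
  | zero =>
    rintro ⟨x, hxo⟩ ⟨y, hyo⟩ hx hy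
    obtain ⟨r, c, b, l, hxl, hl⟩ := (std_lev h f _ _).1 hx
    obtain ⟨r', c', b', l', hyl, hl'⟩ := (std_lev h f _ _).1 hy
    have hxl : x = Ver.node r c b l := hxl
    have hyl : y = Ver.node r' c' b' l' := hyl
    subst hxl
    subst hyl
    rw [zero_add] at hl hl'
    have hao : vl r c b l < s d := by
      have h1 := vl_lt hxo
      rwa [hl] at h1
    have hao' : vl r' c' b' l' < s d := by
      have h1 := vl_lt hyo
      rwa [hl'] at h1
    constructor
    · constructor
      · rintro ⟨a, h1, h2⟩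
        have e1 := (att_node.1 (show (Ver.node r c b l).att d a.1 from h1)).2
        have e2 := (att_node.1 (show (Ver.node r' c' b' l').att d a.1 from h2)).2
        rw [e1] at e2
        injection e2
      · intro he
        have he : vl r c b l = vl r' c' b' l' := he
        have h2 : (Ver.node r' c' b' l').att d (Ver.apex (vl r c b l)) := by
          rw [he]
          exact att_node.2 ⟨hl', rfl⟩
        exact ⟨⟨Ver.apex (vl r c b l), hao⟩, att_node.2 ⟨hl, rfl⟩, h2⟩
    · constructor
      · rintro ⟨a, a', h1, h2, h3⟩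
        have e1 := (att_node.1 (show (Ver.node r c b l).att d a.1 from h1)).2
        have e2 := (att_node.1 (show (Ver.node r' c' b' l').att d a'.1 from h2)).2
        have h3 : a.1.ord a'.1 := h3
        rw [e1, e2] at h3
        exact h3
      · intro he
        exact ⟨⟨Ver.apex (vl r c b l), hao⟩, ⟨Ver.apex (vl r' c' b' l'), hao'⟩,
          att_node.2 ⟨hl, rfl⟩, att_node.2 ⟨hl', rfl⟩, he⟩
  | succ i ih =>
    intro x y hx hy
    have hs := std_step h f i ih
    have h1 := hs.stepE_iff hx hy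
    have h2 := hs.stepL_iff hx hy
    rw [std_bits h f i x hx, std_bits h f i y hy] at h1 h2
    exact ⟨h1, h2⟩

theorem std_suc (h : StdHyp s d m c0) (f : ℕ → ℕ → Γ) (i : ℕ) :
    ∀ x y : {v : Ver // v.ok s d m}, Lev (std s d m f) (i + 1) x → Lev (std s d m f) (i + 1) y →
      (suc (std s d m f) i x y ↔ y.1.val = x.1.val + 1) := by
  intro x y hx hy
  have h1 := (std_step h f i (std_vals h f i)).stepS_iff hx hy
  rw [std_bits h f i x hx, std_bits h f i y hy] at h1
  exact h1

end Pool.Agent.Helper29.TD
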