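import Pool.Agent.Helper29.TD.Gap
import Pool.Agent.Helper29.TD.Pump

/-!
# Below all iterated logarithms: ultimately periodic
-/

set_option autoImplicit false

namespace Pool.Agent.Helper29.TD

open Pool.Agent.Helper20.Spectra Pool.Agent.Helper20.OP Filter

variable {S : Type} {ar : S → ℕ}

lemma exists_longest {n L : ℕ} {I : Interp S ar (Fin n)} (h : ¬ PathLe I L) :
    ∃ (W : ℕ) (p : Fin W → Fin n), L < W ∧ IsPath I p ∧ PathLe I W := by
  classical
  have hb : ∀ (l : ℕ) (p : Fin l → Fin n), IsPath I p → l ≤ n := by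
    intro l p hp
    simpa using Fintype.card_le_of_injective p hp.1
  unfold PathLe at h
  push Not at h
  obtain ⟨l, p, hp, hl⟩ := h
  let Q : ℕ → Prop := fun l => ∃ p : Fin l → Fin n, IsPath I p
  have hQ : Q l := ⟨p, hp⟩
  have hspec := Nat.findGreatest_spec (P := Q) (hb l p hp) hQ
  obtain ⟨p', hp'⟩ := hspec
  refine ⟨Nat.findGreatest Q n, p', ?_, hp', ?_⟩
  · exact hl.trans_le (Nat.le_findGreatest (hb l p hp) hQ)
  · intro l'' p'' hp''
    exact Nat.le_findGreatest (hb l'' p'' hp'') ⟨p'', hp''⟩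

theorem tame (w : ℕ → ℕ) (hw : ∀ d, ∀ᶠ n in atTop, E d (w n) ≤ n) (A : Set ℕ)
    (hA : ShortSpectrum w A) : UltPeriodic A ∧ ∃ L, ShortSpectrum (fun _ => L) A := by
  obtain ⟨S, hS, ar, φ, h1, h2⟩ := hA
  by_cases hb : ∃ L, ∀ (n : ℕ) (I : Interp S ar (Fin n)), 1 ≤ n → Sat I φ → PathLe I L
  · obtain ⟨L, hL⟩ := hb
    refine ⟨?_, L, S, hS, ar, φ, hL, h2⟩
    obtain ⟨p, n0, hp, hpump⟩ := pump φ L
    refine ultPeriodic_of_add hp (N := n0) (fun n hn hA => ?_)
    obtain ⟨hn1, I, hI⟩ := (h2 n).1 hA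
    exact (h2 _).2 ⟨by omega, hpump n hn I hI (hL n I hn1 hI)⟩
  · exfalso
    push Not at hb
    obtain ⟨d, hd⟩ := gap φ
    obtain ⟨N0, hN0⟩ := eventually_atTop.1 (hw (d + 1))
    obtain ⟨n, I, hn, hI, hp⟩ := hb (N0 + 2)
    obtain ⟨W, p, hLW, hpp, hW⟩ := exists_longest hp
    obtain ⟨n', I', p', hI', hp', hn'⟩ := hd n I W p hI hW hpp (by omega)
    have hWn : W ≤ n' := by simpa using Fintype.card_le_of_injective p' hp'.1
    have h3 := h1 n' I' (by omega) hI' W p' hp'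
    have h4 := hN0 n' (by omega)
    have h5 : E d W ≤ E d (w n') := E_mono d h3
    have h6 := E_succ_le d (w n')
    omega

end Pool.Agent.Helper29.TD
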