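import Pool.Agent.Helper29.TD.Step

/-!
# Block TD-U3: the values of the nodes

`Vals d R f K`: `f i x` is the value of the node `x` of level `i`; the values of the nodes of level `i` are `0, ..., K i - 1`.

`seg`: a nonempty finite set of natural numbers which contains with each positive element its predecessor is `{m | m < k}`.
`Tree.vals`.  Define `f 0 x` = the number of apices below the apex of `x`, `f (i + 1) x = bin (bits R (f i) (K i) x)`, and
`K i` = the number of values of the nodes of level `i` (`Set.ncard` of the image; `f`, `K` by recursion: `f` at level `i + 1` uses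
`K i`).  Show by induction on `i ≤ d` the fields `eq`, `lt`, `rng` for `i` (and, for `i < d`, the fields `chx`, `chu`, `low`, `upp`).
Level `0`: `f 0 x` determines the apex of `x` (a finite strict linear order), the values are all numbers below the number of
apices (`att_all`; the number of smaller apices is a bijection of the apices with `0, ..., K 0 - 1`), `K 0 = Nat.card {a // apex a}`.
Step: `StepHyp R (Lev R i) (Lev R (i + 1)) (eqv R i) (ltv R i) (f i) (K i)` holds: `hlo`: a child of a node of level `i + 1 ≤ d` is of level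
`i` (`par_kind`, `dis`, `lev_uniq`); `hch`: `rng` and `ch_ex`; `huq`: `ch_uniq`.  So `eq`, `lt` for `i + 1` by `stepE_iff`, `stepL_iff`.
If `f (i+1) x > 0` then `bits` is not empty, so `x` has a child `v` with `bit v`, and `pred`, `stepS_iff` give a node with
value `f (i+1) x - 1`: the values form an initial segment (`seg`; `top` gives a node of level `i + 1`): `rng`.  `upp`: `bits_lt`.  `low`: `top`
gives `x`, `v` with `f i v` maximal, so `f i v = K i - 1`, and `f (i+1) x ≥ 2 ^ (K i - 1)` by `le_bits`.
-/

set_option autoImplicit false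

namespace Pool.Agent.Helper29.TD

variable {Γ V : Type}

/-- `f i x` is the value of the node `x` of level `i`; the values of the nodes of level `i` are the numbers below `K i` -/
structure Vals (d : ℕ) (R : St Γ V) (f : ℕ → V → ℕ) (K : ℕ → ℕ) : Prop where
  eq : ∀ i, i ≤ d → ∀ x y, Lev R i x → Lev R i y → (eqv R i x y ↔ f i x = f i y)
  lt : ∀ i, i ≤ d → ∀ x y, Lev R i x → Lev R i y → (ltv R i x y ↔ f i x < f i y)
  rng : ∀ i, i ≤ d → ∀ m, (∃ x, Lev R i x ∧ f i x = m) ↔ m < K i
  low : ∀ i, i < d → 2 ^ (K i - 1) < K (i + 1)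
  upp : ∀ i, i < d → K (i + 1) ≤ 2 ^ K i
  chx : ∀ i, i < d → ∀ x, Lev R (i + 1) x → ∀ m, m < K i → ∃ u, R.par u x ∧ f i u = m
  chu : ∀ i, i < d → ∀ x u v, Lev R (i + 1) x → R.par u x → R.par v x → f i u = f i v → u = v
  zero : K 0 = Nat.card {a // R.apex a}

lemma seg (A : Set ℕ) (hA : A.Finite) (hne : A.Nonempty) (h : ∀ m, m + 1 ∈ A → m ∈ A) :
    ∃ k, ∀ m, m ∈ A ↔ m < k := by
  obtain ⟨M, hM, hmax⟩ := Set.exists_max_image A id hA hne
  refine ⟨M + 1, fun m => ⟨fun hm => Nat.lt_succ_of_le (hmax m hm), fun hm => ?_⟩⟩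
  have h1 : ∀ j, j ≤ M → M - j ∈ A := by
    intro j
    induction j with
    | zero => intro _; simpa using hM
    | succ j ih =>
      intro hj
      apply h
      have h2 : M - (j + 1) + 1 = M - j := by omega
      rw [h2]
      exact ih (by omega)
  have h2 := h1 (M - m) (by omega)
  have h3 : M - (M - m) = m := by omega
  rwa [h3] at h2

/-- the children of a node of level `i + 1` are of level `i` -/
lemma Tree.child {d c0 : ℕ} {R : St Γ V} (h : Tree d c0 R) {i : ℕ} (hi : i < d) {u x : V}
    (hx : Lev R (i + 1) x) (hu : R.par u x) : Lev R i u := by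
  have hxn : R.node x := hx.1
  rcases h.par_kind u x hu with h1 | ⟨j, hj, hju, hjx⟩ | h1
  · exact absurd ⟨h1.2, hxn⟩ (h.dis x).2.2.2.1
  · have h2 : j = i := by
      by_contra hne
      exact h.lev_uniq (j + 1) (by omega) (i + 1) (by omega) (by omega) x ⟨hjx, hx⟩
    rw [← h2]
    exact hju
  · exact absurd ⟨h1.2, hxn⟩ (h.dis x).2.2.2.1

theorem Tree.vals [Finite V] {d c0 : ℕ} {R : St Γ V} (h : Tree d c0 R) (hc : 1 ≤ c0) :
    ∃ (f : ℕ → V → ℕ) (K : ℕ → ℕ), Vals d R f K := by
  classical
  -- level 0
  let c : V → ℕ := fun a => {b | R.ord b a}.ncard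
  have hcl : ∀ a b, R.ord a b → c a < c b := by
    intro a b hab
    apply Set.ncard_lt_ncard _ (Set.toFinite _)
    constructor
    · intro x hx
      exact h.ord_trans x a b hx hab
    · intro hs
      exact h.ord_irr a (hs hab)
  have hcl' : ∀ a b, R.apex a → R.apex b → (R.ord a b ↔ c a < c b) := by
    intro a b ha hb
    refine ⟨hcl a b, fun hlt => ?_⟩
    rcases h.ord_lin a b ha hb with h1 | h1 | h1
    · exact h1
    · rw [h1] at hlt
      exact absurd hlt (lt_irrefl _)
    · exact absurd (hcl b a h1) (by omega)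
  have hce : ∀ a b, R.apex a → R.apex b → c a = c b → a = b := by
    intro a b ha hb he
    rcases h.ord_lin a b ha hb with h1 | h1 | h1
    · have := hcl a b h1
      omega
    · exact h1
    · have := hcl b a h1
      omega
  let K0 : ℕ := Nat.card {a // R.apex a}
  have hcK : ∀ a, R.apex a → c a < K0 := by
    intro a ha
    have h1 : K0 = {b | R.apex b}.ncard := (Nat.card_coe_set_eq {b | R.apex b})
    rw [h1]
    apply Set.ncard_lt_ncard _ (Set.toFinite _)
    constructor
    · intro x hx
      exact (h.ord_apex x a hx).1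
    · intro hs
      exact h.ord_irr a (hs ha)
  have hcs : ∀ m, m < K0 → ∃ a, R.apex a ∧ c a = m := by
    intro m hm
    let g : {a // R.apex a} → Fin K0 := fun a => ⟨c a.1, hcK a.1 a.2⟩
    have hg : Function.Injective g := by
      intro a b hab
      apply Subtype.ext
      apply hce a.1 b.1 a.2 b.2
      exact congrArg Fin.val hab
    have hg' : Function.Bijective g := by
      rw [Nat.bijective_iff_injective_and_card]
      exact ⟨hg, by simp [K0]⟩
    obtain ⟨a, ha⟩ := hg'.2 ⟨m, hm⟩
    exact ⟨a.1, a.2, congrArg Fin.val ha⟩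
  let f0 : V → ℕ := fun x => if hx : ∃ a, R.att x a then c hx.choose else 0
  have hf0 : ∀ x a, R.att x a → f0 x = c a := by
    intro x a hxa
    have hx : ∃ a, R.att x a := ⟨a, hxa⟩
    change (if hx : ∃ a, R.att x a then c hx.choose else 0) = c a
    rw [dif_pos hx]
    congr 1
    exact h.att_uniq x _ _ hx.choose_spec hxa
  -- the recursion
  let st : ℕ → (V → ℕ) × ℕ → (V → ℕ) × ℕ := fun i g =>
    (fun x => bin (bits R g.1 g.2 x), ((fun x => bin (bits R g.1 g.2 x)) '' {x | Lev R (i + 1) x}).ncard)
  let F : ℕ → (V → ℕ) × ℕ := fun i => Nat.rec (f0, K0) st i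
  let f : ℕ → V → ℕ := fun i => (F i).1
  let K : ℕ → ℕ := fun i => (F i).2
  have fS : ∀ i x, f (i + 1) x = bin (bits R (f i) (K i) x) := fun i x => rfl
  have KS : ∀ i, K (i + 1) = ((fun x => bin (bits R (f i) (K i) x)) '' {x | Lev R (i + 1) x}).ncard :=
    fun i => rfl
  have sh : ∀ i, i < d → (∀ x y, Lev R i x → Lev R i y → (eqv R i x y ↔ f i x = f i y)) →
      (∀ x y, Lev R i x → Lev R i y → (ltv R i x y ↔ f i x < f i y)) →
      (∀ m, (∃ x, Lev R i x ∧ f i x = m) ↔ m < K i) →
      StepHyp R (Lev R i) (Lev R (i + 1)) (eqv R i) (ltv R i) (f i) (K i) := by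
    intro i hi he hl hr
    exact
      { hE := he
        hL := hl
        hlo := fun u x hx hu => h.child hi hx hu
        hK := fun u hu => (hr (f i u)).mp ⟨u, hu, rfl⟩
        hch := by
          intro x hx m hm
          obtain ⟨v, hv, hvm⟩ := (hr m).mpr hm
          obtain ⟨u, hu, huv⟩ := h.ch_ex i hi x v hx hv
          exact ⟨u, hu, ((he u v (h.child hi hx hu) hv).mp huv).trans hvm⟩
        huq := by
          intro x hx u v hu hv huv
          exact h.ch_uniq i hi x u v hx hu hv
            ((he u v (h.child hi hx hu) (h.child hi hx hv)).mpr huv) }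
  have key : ∀ i, i ≤ d → (∀ x y, Lev R i x → Lev R i y → (eqv R i x y ↔ f i x = f i y)) ∧
      (∀ x y, Lev R i x → Lev R i y → (ltv R i x y ↔ f i x < f i y)) ∧
      (∀ m, (∃ x, Lev R i x ∧ f i x = m) ↔ m < K i) := by
    intro i
    induction i with
    | zero =>
      intro _
      refine ⟨?_, ?_, ?_⟩
      · rintro x y ⟨_, a, ha⟩ ⟨_, b, hb⟩
        change (∃ a, R.att x a ∧ R.att y a) ↔ f0 x = f0 y
        rw [hf0 x a ha, hf0 y b hb]
        constructor
        · rintro ⟨a', h1, h2⟩
          rw [h.att_uniq x a a' ha h1, h.att_uniq y b a' hb h2]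
        · intro he
          have h1 := hce a b (h.att_kind x a ha).2 (h.att_kind y b hb).2 he
          exact ⟨a, ha, by rw [h1]; exact hb⟩
      · rintro x y ⟨_, a, ha⟩ ⟨_, b, hb⟩
        change (∃ a b, R.att x a ∧ R.att y b ∧ R.ord a b) ↔ f0 x < f0 y
        rw [hf0 x a ha, hf0 y b hb, ← hcl' a b (h.att_kind x a ha).2 (h.att_kind y b hb).2]
        constructor
        · rintro ⟨a', b', h1, h2, h3⟩
          rw [h.att_uniq x a a' ha h1, h.att_uniq y b b' hb h2]
          exact h3
        · intro h1
          exact ⟨a, b, ha, hb, h1⟩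
      · intro m
        change (∃ x, Lev R 0 x ∧ f0 x = m) ↔ m < K0
        constructor
        · rintro ⟨x, ⟨_, a, ha⟩, rfl⟩
          rw [hf0 x a ha]
          exact hcK a (h.att_kind x a ha).2
        · intro hm
          obtain ⟨a, ha, hac⟩ := hcs m hm
          obtain ⟨x, hx⟩ := h.att_all a ha
          exact ⟨x, ⟨(h.att_kind x a hx).1, a, hx⟩, by rw [hf0 x a hx, hac]⟩
    | succ i ih =>
      intro hi
      have hi' : i < d := by omega
      obtain ⟨he, hl, hr⟩ := ih (by omega)
      have hs := sh i hi' he hl hr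
      refine ⟨?_, ?_, ?_⟩
      · intro x y hx hy
        rw [fS, fS]
        exact hs.stepE_iff hx hy
      · intro x y hx hy
        rw [fS, fS]
        exact hs.stepL_iff hx hy
      · obtain ⟨k, hk⟩ := seg ((fun x => bin (bits R (f i) (K i) x)) '' {x | Lev R (i + 1) x})
          (Set.toFinite _) (by
            obtain ⟨x, v, hx, _⟩ := h.top i hi'
            exact ⟨_, x, hx, rfl⟩) (by
            rintro m ⟨x, hx, hxm⟩
            have hxm' : bin (bits R (f i) (K i) x) = m + 1 := hxm
            have h1 : (bits R (f i) (K i) x).Nonempty := by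
              rw [Finset.nonempty_iff_ne_empty]
              intro h2
              rw [h2] at hxm'
              simp [bin] at hxm'
            obtain ⟨b, hb⟩ := h1
            obtain ⟨_, v, hv, hvb, _⟩ := mem_bits.mp hb
            obtain ⟨y, hy, hyx⟩ := h.pred i hi' x v hx hv hvb
            refine ⟨y, hy, ?_⟩
            have h3 := (hs.stepS_iff hy hx).mp hyx
            change bin (bits R (f i) (K i) y) = m
            omega)
        have hKk : K (i + 1) = k := by
          rw [KS]
          have h1 : (fun x => bin (bits R (f i) (K i) x)) '' {x | Lev R (i + 1) x} =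
              (Finset.range k : Set ℕ) := by
            ext m
            rw [hk m]
            simp
          rw [h1, Set.ncard_coe_finset, Finset.card_range]
        intro m
        rw [hKk, ← hk m]
        rfl
  refine ⟨f, K, ?_⟩
  exact
    { eq := fun i hi => (key i hi).1
      lt := fun i hi => (key i hi).2.1
      rng := fun i hi => (key i hi).2.2
      low := by
        intro i hi
        obtain ⟨he, hl, hr⟩ := key i hi.le
        have hs := sh i hi he hl hr
        obtain ⟨x, v, hx, hv, hvb, hvm⟩ := h.top i hi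
        have hvl := h.child hi hx hv
        have h1 := hs.hK v hvl
        obtain ⟨w, hw, hwK⟩ := (hr (K i - 1)).mpr (by omega)
        have h2 := hvm w hw
        rw [hl v w hvl hw] at h2
        have h3 := hs.le_bits hx hv hvb
        have h4 : f (i + 1) x < K (i + 1) := ((key (i + 1) hi).2.2 _).mp ⟨x, hx, rfl⟩
        rw [fS] at h4
        have h5 : 2 ^ (K i - 1) ≤ 2 ^ f i v := Nat.pow_le_pow_right (by norm_num) (by omega)
        omega
      upp := by
        intro i hi
        by_contra hcon
        push Not at hcon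
        obtain ⟨x, hx, hxe⟩ := ((key (i + 1) hi).2.2 (2 ^ K i)).mpr hcon
        rw [fS] at hxe
        have h1 := bits_lt (R := R) (f := f i) (K := K i) x
        omega
      chx := by
        intro i hi x hx m hm
        obtain ⟨he, hl, hr⟩ := key i hi.le
        exact (sh i hi he hl hr).hch x hx m hm
      chu := by
        intro i hi x u v hx hu hv huv
        obtain ⟨he, hl, hr⟩ := key i hi.le
        exact (sh i hi he hl hr).huq x hx u v hu hv huv
      zero := rfl }

end Pool.Agent.Helper29.TD
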